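import Mathlib
import Pool.Agent.Helper278.GroupVN
import Pool.Agent.Helper278.CEPull
import Pool.Agent.Helper278.TrAlg
import Pool.Agent.Helper278.Trace

set_option autoImplicit false
set_option linter.unusedSectionVars false

open scoped InnerProductSpace ComplexOrder

namespace Pool.Agent.Helper159.GM

open Pool.Agent.Helper278 Pool.Agent.Helper278.CE

/-- conjugation by `g` -/
def cj {G : Type} [Group G] (g : G) : G ≃ G := (MulAut.conj g).toEquiv

theorem cj_apply {G : Type} [Group G] (g h : G) : cj g h = g * h * g⁻¹ := rfl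

/-- A tracial algebra represented as the group von Neumann algebra of `G` on `ℓ²(G)`. -/
structure GVN {A : Type} [Ring A] [StarRing A] [Algebra ℂ A] (τ : A →ₗ[ℂ] ℂ) {G : Type} [Group G]
    (u : G →* A) (op : A →⋆ₐ[ℂ] (EllTwo G →L[ℂ] EllTwo G)) : Prop where
  tr : TrAlg τ
  tau_eq : ∀ x, τ x = op x (sb G 1) 1
  n2_eq : ∀ x, n2 τ x = ‖op x (sb G 1)‖
  star_u : ∀ g, star (u g) = u g⁻¹
  op_u : ∀ g f h, op (u g) f h = f (g⁻¹ * h)
  coef : ∀ x g h, op x (sb G g) h = op x (sb G 1) (h * g⁻¹)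

section

variable {A : Type} [Ring A] [StarRing A] [Algebra ℂ A] [StarModule ℂ A] {τ : A →ₗ[ℂ] ℂ}
  {G : Type} [Group G] {u : G →* A} {op : A →⋆ₐ[ℂ] (EllTwo G →L[ℂ] EllTwo G)}

namespace GVN

variable (h : GVN τ u op)

include h

theorem u_unitary (g : G) : u g ∈ unitary A := by
  rw [Unitary.mem_iff, h.star_u, ← map_mul, ← map_mul]
  simp

theorem norm_op_unitary (x : A) (hx : x ∈ unitary A) (f : EllTwo G) : ‖op x f‖ = ‖f‖ := by
  have h1 : ⟪op x f, op x f⟫_ℂ = ⟪f, f⟫_ℂ := by
    rw [← ContinuousLinearMap.adjoint_inner_right, ← ContinuousLinearMap.star_eq_adjoint,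
      ← map_star]
    have : op (star x) (op x f) = (op (star x) * op x) f := rfl
    rw [this, ← map_mul, (Unitary.mem_iff.1 hx).1, map_one]
    rfl
  rw [inner_self_eq_norm_sq_to_K, inner_self_eq_norm_sq_to_K] at h1
  have h2 : ‖op x f‖ ^ 2 = ‖f‖ ^ 2 := by exact_mod_cast h1
  exact (sq_eq_sq₀ (norm_nonneg _) (norm_nonneg _)).1 h2

theorem hat_mul (x y : A) : op (x * y) (sb G 1) = op x (op y (sb G 1)) := by
  rw [map_mul]; rfl

theorem hat_u (g : G) : op (u g) (sb G 1) = sb G g := by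
  ext k
  rw [h.op_u]
  by_cases hk : g = k
  · subst hk
    rw [inv_mul_cancel, sb_self, sb_self]
  · rw [sb_ne _ _ hk, sb_ne]
    intro h1
    apply hk
    have := congrArg (fun z => g * z) h1
    simpa using this

/-- the coefficients of the adjoint -/
theorem hat_star (x : A) (g : G) : op (star x) (sb G 1) g = star (op x (sb G 1) g⁻¹) := by
  rw [← coef_sb g (op (star x) (sb G 1)), map_star, ContinuousLinearMap.star_eq_adjoint,
    ContinuousLinearMap.adjoint_inner_right, ← inner_conj_symm, coef_sb, h.coef, one_mul]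
  rfl

/-- right multiplication by `u g` in coordinates -/
theorem hat_mul_u (x : A) (g k : G) : op (x * u g) (sb G 1) k = op x (sb G 1) (k * g⁻¹) := by
  rw [h.hat_mul, h.hat_u, h.coef]

theorem hat_u_mul (x : A) (g k : G) : op (u g * x) (sb G 1) k = op x (sb G 1) (g⁻¹ * k) := by
  rw [h.hat_mul, h.op_u]

theorem hat_conj (x : A) (g : G) : op (u g⁻¹ * x * u g) (sb G 1) = permOp (cj g) (op x (sb G 1)) := by
  ext k
  rw [h.hat_mul_u, h.hat_u_mul, permOp_apply, cj_apply, inv_inv, mul_assoc]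

theorem n2_comm_u (x : A) (g : G) :
    n2 τ (u g * x - x * u g) = ‖permOp (cj g) (op x (sb G 1)) - op x (sb G 1)‖ := by
  have e1 : u g * x - x * u g = -(u g * (u g⁻¹ * x * u g - x)) := by
    have : u g * (u g⁻¹ * x * u g) = x * u g := by
      rw [← mul_assoc, ← mul_assoc, ← map_mul, mul_inv_cancel, map_one, one_mul]
    rw [mul_sub, this]
    abel
  rw [e1, h.tr.n2_neg, h.n2_eq, h.hat_mul, h.norm_op_unitary _ (h.u_unitary g), map_sub,
    ContinuousLinearMap.sub_apply, h.hat_conj]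

theorem n2_unitary (x : A) (hx : x ∈ unitary A) : n2 τ x = 1 := by
  unfold n2
  rw [(Unitary.mem_iff.1 hx).1, h.tr.one]
  simp

theorem n2_mul_unitary (x y : A) (hy : y ∈ unitary A) : n2 τ (x * y) = n2 τ x := by
  unfold n2
  rw [star_mul, h.tr.comm, mul_assoc, ← mul_assoc y, (Unitary.mem_iff.1 hy).2, one_mul, h.tr.comm]

theorem n2_unitary_mul (x y : A) (hx : x ∈ unitary A) : n2 τ (x * y) = n2 τ y := by
  unfold n2
  rw [star_mul, mul_assoc, ← mul_assoc (star x), (Unitary.mem_iff.1 hx).1, one_mul]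

/-- convolution formula -/
theorem hasSum_op (x : A) (f : EllTwo G) (g : G) :
    HasSum (fun k => f k * op x (sb G 1) (g * k⁻¹)) (op x f g) := by
  have h1 : op x f g = ⟪op (star x) (sb G g), f⟫_ℂ := by
    rw [← coef_sb g (op x f), map_star, ContinuousLinearMap.star_eq_adjoint,
      ContinuousLinearMap.adjoint_inner_left]
  rw [h1]
  refine ((sb G).hasSum_inner_mul_inner (op (star x) (sb G g)) f).congr_fun ?_
  intro k
  have e : op (star x) (sb G g) k = star (op x (sb G 1) (g * k⁻¹)) := by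
    rw [h.coef (star x) g k, h.hat_star, mul_inv_rev, inv_inv]
  rw [coef_sb, ← inner_conj_symm, coef_sb, e, mul_comm]
  simp

end GVN

end

end Pool.Agent.Helper159.GM
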