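import Mathlib
import Pool.Agent.Helper159.GM.Base

set_option autoImplicit false
set_option linter.unusedSectionVars false

open scoped InnerProductSpace ComplexOrder Topology
open Filter

namespace Pool.Agent.Helper159.GM

open Pool.Agent.Helper278 Pool.Agent.Helper278.CE

/-- sum of the commutators with `a` and `b` in 2-norm -/
noncomputable def dd {A : Type*} [Ring A] [StarRing A] (φ : A → ℂ) (a b x : A) : ℝ :=
  n2 φ (a * x - x * a) + n2 φ (b * x - x * b)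

/-- A commutative subgroup `C` centralised by `p`, `q` such that the conjugation by `p`, `q` has
spectral gap off `C`. -/
structure GapData (G : Type) [Group G] (C : Subgroup G) (p q : G) : Prop where
  comm : ∀ a ∈ C, ∀ b ∈ C, a * b = b * a
  p_comm : ∀ a ∈ C, p * a = a * p
  q_comm : ∀ a ∈ C, q * a = a * q
  gap : ∀ (f : EllTwo G), (∀ g ∈ C, f g = 0) → ∀ t : ℝ, ‖permOp (cj p) f - f‖ ≤ t →
    ‖permOp (cj q) f - f‖ ≤ t → ‖f‖ ≤ 20 * t
  icc : ∀ a ∈ C, a ≠ 1 → (Set.range fun g : G => g * a * g⁻¹).Infinite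

/-- the property that holds in the first factor -/
def Pos2 {A : Type*} [Ring A] [StarRing A] (φ : A → ℂ) (κ : ℝ) : Prop :=
  ∃ f₁ ∈ unitary A, ∃ f₂ ∈ unitary A, ∀ b ∈ unitary A, ∀ c ∈ unitary A, ∀ η : ℝ, 0 < η →
    ∃ w ∈ unitary A,
      n2 φ ((w * b * star w) * c - c * (w * b * star w)) ≤ κ * dd φ f₁ f₂ b + η ∧
      ∀ x ∈ unitary A, ∀ y ∈ unitary A,
        n2 φ ((w * x * star w) * y - y * (w * x * star w)) ≤
          κ * (dd φ f₁ f₂ x + dd φ f₁ f₂ y) + η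

/-- the property that holds in the second factor -/
def Neg2 {A : Type*} [Ring A] [StarRing A] (φ : A → ℂ) (c₀ : ℝ) : Prop :=
  ∀ f₁ ∈ unitary A, ∀ f₂ ∈ unitary A, ∀ δ : ℝ, 0 < δ →
    ∃ b ∈ unitary A, ∃ c ∈ unitary A, dd φ f₁ f₂ b ≤ δ ∧ ∀ w ∈ unitary A,
      1 ≤ n2 φ ((w * b * star w) * c - c * (w * b * star w)) ∨
      ∃ x ∈ unitary A, ∃ y ∈ unitary A, dd φ f₁ f₂ x ≤ δ ∧ dd φ f₁ f₂ y ≤ δ ∧
        c₀ ≤ n2 φ ((w * x * star w) * y - y * (w * x * star w))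

/-- chains of subgroups `D n` exhausting `G` with central subgroups `Z n` acting in a mixing way -/
structure Chain (G : Type) [Group G] (Z D : ℕ → Subgroup G) (a t : ℕ → G) : Prop where
  fin : ∀ S : Finset G, ∃ n, ∀ g ∈ S, g ∈ D n
  sub : ∀ n, Z n ≤ D n
  cent : ∀ n, ∀ z ∈ Z n, ∀ g ∈ D n, z * g = g * z
  a_mem : ∀ n, a n ∈ Z n
  a_t : ∀ n, a n * t n ≠ t n * a n
  mix : ∀ n (S : Finset G), ∃ z ∈ Z n, ∀ g ∈ S, ∀ k ∈ S, g ∉ D n →
    z * g * z⁻¹ ≠ k ∧ (k ∉ D n → g * z * k ∉ D n)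

end Pool.Agent.Helper159.GM
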