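import Mathlib
import Pool.Agent.Helper159.GM.Core
import Pool.Agent.Helper278.CEFactor

set_option autoImplicit false
set_option linter.unusedSectionVars false

open scoped InnerProductSpace ComplexOrder Topology
open Filter

namespace Pool.Agent.Helper159.GM

open Pool.Agent.Helper278 Pool.Agent.Helper278.CE

variable (G : Type) [Group G]

/-- the group von Neumann algebra of `G` -/
noncomputable abbrev LG : VonNeumannAlgebra (EllTwo G) := LK (sb G)

variable {G}

theorem rho_one (x : EllTwo G →L[ℂ] EllTwo G) (hx : x ∈ LG G) (g : G) :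
    x (sb G g) = rhoK (sb G) g⁻¹ (x (sb G 1)) := by
  have h1 : sb G g = rhoK (sb G) g⁻¹ (sb G 1) := by
    unfold rhoK
    rw [permK_basis]
    congr 1
    show g = 1 * (g⁻¹)⁻¹
    group
  have h2 := congrArg (fun z : EllTwo G →L[ℂ] EllTwo G => z (sb G 1)) (comm_right (sb G) x hx g⁻¹)
  have h3 : rhoK (sb G) g⁻¹ (x (sb G 1)) = x (rhoK (sb G) g⁻¹ (sb G 1)) := h2
  rw [h3, ← h1]

theorem eq_zero_of_vec (x : EllTwo G →L[ℂ] EllTwo G) (hx : x ∈ LG G) (h : x (sb G 1) = 0) :
    x = 0 := by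
  apply ext_basis (sb G)
  intro g
  rw [rho_one x hx, h, map_zero]
  rfl

theorem trace_star_mul' (x : Elt (LG G)) :
    trG (sb G) (star x * x) = ((‖(x : EllTwo G →L[ℂ] EllTwo G) (sb G 1)‖ ^ 2 : ℝ) : ℂ) := by
  have h1 : trG (sb G) (star x * x) = ⟪(x : EllTwo G →L[ℂ] EllTwo G) (sb G 1),
      (x : EllTwo G →L[ℂ] EllTwo G) (sb G 1)⟫_ℂ := by
    rw [← ContinuousLinearMap.adjoint_inner_right, ← ContinuousLinearMap.star_eq_adjoint]
    rfl
  rw [h1, inner_self_eq_norm_sq_to_K]
  push_cast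
  rfl

theorem faithful_LG : IsFaithfulTrace (fun x : Elt (LG G) => trG (sb G) x) := by
  refine ⟨(isTr_trG _).one, (isTr_trG _).comm, ?_⟩
  intro x hx
  rw [trace_star_mul'] at hx
  have h1 : ‖(x : EllTwo G →L[ℂ] EllTwo G) (sb G 1)‖ ^ 2 = 0 := by exact_mod_cast hx
  apply Subtype.ext
  exact eq_zero_of_vec _ x.2 (norm_eq_zero.1 (pow_eq_zero_iff two_ne_zero |>.1 h1))

theorem normal_LG : IsNormalPositive (LG G) (fun x => trG (sb G) x) :=
  normal_vector (LG G) _ (sb G 1) fun _ => rfl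

variable (G)

/-- the bundled trace of the group von Neumann algebra -/
noncomputable def TL : TracialState (LG G) := mkState (LG G) _ normal_LG faithful_LG

/-- the canonical unitaries -/
noncomputable def uL : G →* Elt (LG G) where
  toFun g := ⟨lamK (sb G) g, lamK_mem (sb G) g⟩
  map_one' := Subtype.ext (lamK_one (sb G))
  map_mul' g h := Subtype.ext (lamK_mul (sb G) g h)

/-- the representation of the group von Neumann algebra -/
noncomputable def opL : Elt (LG G) →⋆ₐ[ℂ] (EllTwo G →L[ℂ] EllTwo G) :=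
  (LG G).toStarSubalgebra.subtype

variable {G}

theorem opL_apply (x : Elt (LG G)) : opL G x = (x : EllTwo G →L[ℂ] EllTwo G) := rfl

theorem TL_apply (x : Elt (LG G)) : (TL G).τ x =
    ⟪sb G 1, (x : EllTwo G →L[ℂ] EllTwo G) (sb G 1)⟫_ℂ := rfl

theorem gvn : GVN (TL G).τ (uL G) (opL G) where
  tr := trAlg (TL G)
  tau_eq x := by
    rw [TL_apply, coef_sb]
    rfl
  n2_eq x := by
    unfold n2
    have h1 : (TL G).τ (star x * x) = ((‖(x : EllTwo G →L[ℂ] EllTwo G) (sb G 1)‖ ^ 2 : ℝ) : ℂ) :=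
      trace_star_mul' x
    rw [h1, Complex.ofReal_re, Real.sqrt_sq (norm_nonneg _)]
    rfl
  star_u g := Subtype.ext (star_lamK (sb G) g)
  op_u g f h := by
    show (lamK (sb G) g f) h = _
    unfold lamK
    rw [permK_sb, permOp_apply]
    rfl
  coef x g h := by
    show ((x : EllTwo G →L[ℂ] EllTwo G) (sb G g)) h = ((x : EllTwo G →L[ℂ] EllTwo G) (sb G 1)) (h * g⁻¹)
    rw [rho_one _ x.2]
    unfold rhoK
    rw [permK_sb, permOp_apply]
    rfl

end Pool.Agent.Helper159.GM
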