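import Mathlib
import Pool.Agent.Helper159.GM.Core

set_option autoImplicit false
set_option linter.unusedSectionVars false

open scoped InnerProductSpace ComplexOrder Topology
open Filter

namespace Pool.Agent.Helper159.GM

open Pool.Agent.Helper278 Pool.Agent.Helper278.CE



/-! TARGET (prove; you may add auxiliary lemmas before it) -/

variable {A : Type} [Ring A] [StarRing A] [Algebra ℂ A] [StarModule ℂ A] {τ : A →ₗ[ℂ] ℂ}
  {G : Type} [Group G] {u : G →* A} {op : A →⋆ₐ[ℂ] (EllTwo G →L[ℂ] EllTwo G)}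

theorem center (h : GVN τ u op) {C : Subgroup G} {p q : G} (hg : GapData G C p q) (z : A)
    (hz : ∀ x, z * x = x * z) : ∃ c : ℂ, z = c • 1 := by
  classical
  obtain ⟨zh, hzh⟩ : ∃ zh, zh = op z (sb G 1) := ⟨_, rfl⟩
  have hconj : ∀ g : G, permOp (cj g) zh = zh := by
    intro g
    have h1 := h.n2_comm_u z g
    rw [hz (u g), sub_self, h.tr.n2_zero, ← hzh] at h1
    exact sub_eq_zero.mp (norm_eq_zero.mp h1.symm)
  have hpt : ∀ g k : G, zh (g * k * g⁻¹) = zh k := by
    intro g k
    have h1 := congrArg (fun f : EllTwo G => f k) (hconj g)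
    simp only [permOp_apply, cj_apply] at h1
    exact h1
  have hfix : ∀ r : G, (∀ a ∈ C, r * a = a * r) → permOp (cj r) (cut (C : Set G)ᶜ zh) =
      cut (C : Set G)ᶜ zh := by
    intro r hr
    ext k
    rw [permOp_apply, cj_apply]
    have hiff : r * k * r⁻¹ ∈ C ↔ k ∈ C := by
      constructor
      · intro hk
        have h1 := hr _ hk
        have h2 : k = r * k * r⁻¹ := by
          have h3 : r * (r * k * r⁻¹) = r * k := by
            rw [h1]; group
          exact (mul_left_cancel h3).symm
        rw [h2]; exact hk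
      · intro hk
        rw [hr k hk, mul_inv_cancel_right]
        exact hk
    by_cases hk : k ∈ C
    · have e1 : cut (C : Set G)ᶜ zh k = 0 := cut_apply_not_mem _ (by simpa using hk)
      have e2 : cut (C : Set G)ᶜ zh (r * k * r⁻¹) = 0 :=
        cut_apply_not_mem _ (by simpa using hiff.mpr hk)
      rw [e1, e2]
    · have e1 : cut (C : Set G)ᶜ zh k = zh k := cut_apply_mem _ (by simpa using hk)
      have e2 : cut (C : Set G)ᶜ zh (r * k * r⁻¹) = zh (r * k * r⁻¹) :=
        cut_apply_mem _ (by
          rw [Set.mem_compl_iff, SetLike.mem_coe, hiff]; exact hk)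
      rw [e1, e2, hpt]
  have hcut0 : cut (C : Set G)ᶜ zh = 0 := by
    have h1 := hg.gap (cut (C : Set G)ᶜ zh) (fun g hgC => cut_apply_not_mem _ (by simpa using hgC)) 0
      (by rw [hfix p hg.p_comm, sub_self, norm_zero])
      (by rw [hfix q hg.q_comm, sub_self, norm_zero])
    rw [mul_zero] at h1
    exact norm_le_zero_iff.mp h1
  have hz1 : ∀ k, k ∉ C → zh k = 0 := by
    intro k hk
    rw [← cut_apply_mem (S := (C : Set G)ᶜ) zh (by simpa using hk), hcut0]
    rfl
  have hz2 : ∀ k, k ≠ 1 → zh k = 0 := by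
    intro a ha
    by_cases haC : a ∈ C
    · by_contra hne
      have hpos : 0 < ‖zh a‖ ^ 2 := by positivity
      have hs := (norm_sq_eq zh).summable.tendsto_cofinite_zero
      have h1 := hs.eventually (gt_mem_nhds hpos)
      rw [Filter.eventually_cofinite] at h1
      refine hg.icc a haC ha (h1.subset ?_)
      rintro _ ⟨g, rfl⟩
      show ¬ ‖zh (g * a * g⁻¹)‖ ^ 2 < ‖zh a‖ ^ 2
      rw [hpt g a]
      exact lt_irrefl _
    · exact hz1 a haC
  have hzc : zh = (zh 1) • sb G 1 := by
    ext k
    rw [lp.coeFn_smul, Pi.smul_apply, smul_eq_mul]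
    by_cases hk : k = 1
    · subst hk
      rw [sb_self, mul_one]
    · rw [hz2 k hk, sb_ne 1 k (Ne.symm hk), mul_zero]
  refine ⟨zh 1, ?_⟩
  obtain ⟨w, hw⟩ : ∃ w, w = z - zh 1 • (1 : A) := ⟨_, rfl⟩
  have hw0 : op w (sb G 1) = 0 := by
    rw [hw, map_sub, map_smul, map_one]
    show op z (sb G 1) - zh 1 • sb G 1 = 0
    rw [← hzh, ← hzc, sub_self]
  have hn : n2 τ w = 0 := by rw [h.n2_eq, hw0, norm_zero]
  have hre : (τ (star w * w)).re = 0 := by rw [← h.tr.n2_sq, hn]; norm_num
  have hnn := h.tr.nonneg w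
  have him : (τ (star w * w)).im = 0 := ((Complex.nonneg_iff.mp hnn).2).symm
  have hw1 : w = 0 := h.tr.faithful w (Complex.ext hre him)
  rw [hw] at hw1
  exact sub_eq_zero.mp hw1

theorem infinite_dim (h : GVN τ u op) [Infinite G] : ¬ FiniteDimensional ℂ A := by
  intro hfd
  let L : A →ₗ[ℂ] EllTwo G :=
    { toFun := fun x => op x (sb G 1)
      map_add' := fun x y => by rw [map_add]; rfl
      map_smul' := fun c x => by rw [map_smul]; rfl }
  have h1 : LinearIndependent ℂ (sb G) := (sb G).orthonormal.linearIndependent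
  have h2 : (fun g : G => L (u g)) = sb G := by
    funext g
    exact h.hat_u g
  have h3 : LinearIndependent ℂ (fun g : G => u g) := by
    refine LinearIndependent.of_comp L ?_
    show LinearIndependent ℂ (fun g : G => L (u g))
    rw [h2]
    exact h1
  have h4 : Finite G := h3.finite
  exact not_finite G


end Pool.Agent.Helper159.GM
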