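import Mathlib

set_option autoImplicit false

namespace Pool.Agent.Helper159.GM

/-- the action of permutations on the finitely supported functions -/
noncomputable def dom {Y : Type} : Equiv.Perm Y →* MulAut (Multiplicative (Y →₀ ZMod 2)) where
  toFun σ := AddEquiv.toMultiplicative (Finsupp.domCongr σ)
  map_one' := by
    ext k : 1
    apply Multiplicative.toAdd.injective
    show Finsupp.equivMapDomain (Equiv.refl Y) (Multiplicative.toAdd k) = _
    rw [Finsupp.equivMapDomain_refl]
    rfl
  map_mul' σ ρ := by
    ext k : 1
    apply Multiplicative.toAdd.injective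
    show Finsupp.equivMapDomain (σ * ρ) (Multiplicative.toAdd k) =
      Finsupp.equivMapDomain σ (Finsupp.equivMapDomain ρ (Multiplicative.toAdd k))
    rw [← Finsupp.equivMapDomain_trans]
    rfl

theorem dom_apply {Y : Type} (σ : Equiv.Perm Y) (k : Multiplicative (Y →₀ ZMod 2)) (y : Y) :
    (Multiplicative.toAdd (dom σ k)) y = (Multiplicative.toAdd k) (σ⁻¹ y) := by
  show Finsupp.equivMapDomain σ (Multiplicative.toAdd k) y = _
  rw [Finsupp.equivMapDomain_apply]
  rfl


end Pool.Agent.Helper159.GM
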