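import Mathlib
import Pool.Agent.Helper159.GM.Base
import Pool.Agent.Helper159.GM.Dom

set_option autoImplicit false

namespace Pool.Agent.Helper159.GM


abbrev F2 : Type := FreeGroup Bool

/-- the index set -/
abbrev Y1 : Type := ℕ × ℤ × F2

/-- `⊕ ℤ/2`, written multiplicatively -/
abbrev K1 : Type := Multiplicative (Y1 →₀ ZMod 2)

abbrev Q1 : Type := Multiplicative (ℕ →₀ ℤ) × F2

/-- the permutation `(i, m, x) ↦ (i, m + α i, f x)` of the index set -/
noncomputable def pm1 : Q1 →* Equiv.Perm Y1 where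
  toFun q :=
    { toFun := fun y => (y.1, y.2.1 + (Multiplicative.toAdd q.1) y.1, q.2 * y.2.2)
      invFun := fun y => (y.1, y.2.1 - (Multiplicative.toAdd q.1) y.1, q.2⁻¹ * y.2.2)
      left_inv := fun y => by simp
      right_inv := fun y => by simp }
  map_one' := by
    ext y : 1
    show (y.1, y.2.1 + 0, 1 * y.2.2) = y
    simp
  map_mul' q r := by
    ext y : 1
    show (y.1, y.2.1 + ((Multiplicative.toAdd q.1) y.1 + (Multiplicative.toAdd r.1) y.1),
      q.2 * r.2 * y.2.2) = (y.1, y.2.1 + (Multiplicative.toAdd r.1) y.1 +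
      (Multiplicative.toAdd q.1) y.1, q.2 * (r.2 * y.2.2))
    rw [mul_assoc, add_assoc, add_comm ((Multiplicative.toAdd r.1) y.1)]

noncomputable def act1 : Q1 →* MulAut K1 := dom.comp pm1

/-- the group `(⊕_{ℕ × ℤ × F₂} ℤ/2) ⋊ (⊕_ℕ ℤ × F₂)` -/
abbrev G1 : Type := K1 ⋊[act1] Q1

/-- the subgroup `⊕_ℕ ℤ` of `G1` -/
noncomputable def C1 : Subgroup G1 where
  carrier := {g | g.left = 1 ∧ g.right.2 = 1}
  one_mem' := ⟨rfl, rfl⟩
  mul_mem' := by
    rintro g h ⟨hg1, hg2⟩ ⟨hh1, hh2⟩
    refine ⟨?_, ?_⟩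
    · rw [SemidirectProduct.mul_left, hg1, hh1, map_one, one_mul]
    · rw [SemidirectProduct.mul_right, Prod.snd_mul, hg2, hh2, one_mul]
  inv_mem' := by
    rintro g ⟨hg1, hg2⟩
    refine ⟨?_, ?_⟩
    · rw [SemidirectProduct.inv_left, hg1, inv_one, map_one]
    · rw [SemidirectProduct.inv_right, Prod.snd_inv, hg2, inv_one]

/-- the element of `Q1 = ⊕_ℕ ℤ × F₂` of the free group, in `G1` -/
noncomputable def fr1 (x : F2) : G1 := SemidirectProduct.inr (1, x)

noncomputable def p1 : G1 := fr1 (FreeGroup.of true)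
noncomputable def q1 : G1 := fr1 (FreeGroup.of false)

/-- the generator `a_n` of `⊕_ℕ ℤ` -/
noncomputable def a1 (n : ℕ) : G1 := SemidirectProduct.inr (Multiplicative.ofAdd (Finsupp.single n (1 : ℤ)), 1)

/-- an element of order 2 at the coordinate `n` -/
noncomputable def t1 (n : ℕ) : G1 :=
  SemidirectProduct.inl (Multiplicative.ofAdd (Finsupp.single ((n, 0, 1) : Y1) (1 : ZMod 2)))

/-- `Z n`: elements of `⊕_{i ≥ n} ℤ` -/
noncomputable def Z1 (n : ℕ) : Subgroup G1 where
  carrier := {g | g.left = 1 ∧ g.right.2 = 1 ∧ ∀ i < n, (Multiplicative.toAdd g.right.1) i = 0}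
  one_mem' := ⟨rfl, rfl, fun i _ => rfl⟩
  mul_mem' := by
    rintro g h ⟨hg1, hg2, hg3⟩ ⟨hh1, hh2, hh3⟩
    refine ⟨?_, ?_, ?_⟩
    · rw [SemidirectProduct.mul_left, hg1, hh1, map_one, one_mul]
    · rw [SemidirectProduct.mul_right, Prod.snd_mul, hg2, hh2, one_mul]
    · intro i hi
      show (Multiplicative.toAdd g.right.1) i + (Multiplicative.toAdd h.right.1) i = 0
      rw [hg3 i hi, hh3 i hi, add_zero]
  inv_mem' := by
    rintro g ⟨hg1, hg2, hg3⟩
    refine ⟨?_, ?_, ?_⟩
    · rw [SemidirectProduct.inv_left, hg1, inv_one, map_one]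
    · rw [SemidirectProduct.inv_right, Prod.snd_inv, hg2, inv_one]
    · intro i hi
      show -((Multiplicative.toAdd g.right.1) i) = 0
      rw [hg3 i hi, neg_zero]

/-- `D n`: the support of the left part lies in the coordinates `i < n` -/
noncomputable def D1 (n : ℕ) : Subgroup G1 where
  carrier := {g | ∀ y : Y1, n ≤ y.1 → (Multiplicative.toAdd g.left) y = 0}
  one_mem' := fun y _ => rfl
  mul_mem' := by
    intro g h hg hh y hy
    show (Multiplicative.toAdd g.left) y + (Multiplicative.toAdd (act1 g.right h.left)) y = 0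
    rw [hg y hy, zero_add]
    show (Multiplicative.toAdd (dom (pm1 g.right) h.left)) y = 0
    rw [dom_apply, ← map_inv]
    exact hh _ hy
  inv_mem' := by
    intro g hg y hy
    show (Multiplicative.toAdd (act1 g.right⁻¹ g.left⁻¹)) y = 0
    show (Multiplicative.toAdd (dom (pm1 g.right⁻¹) g.left⁻¹)) y = 0
    rw [dom_apply, ← map_inv]
    show -((Multiplicative.toAdd g.left) ((pm1 g.right⁻¹⁻¹) y)) = 0
    rw [hg _ (by exact hy), neg_zero]


end Pool.Agent.Helper159.GM
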