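import Mathlib
import Pool.Agent.Helper159.GM.Grp1

set_option autoImplicit false
set_option linter.unusedSectionVars false

namespace Pool.Agent.Helper159.GM



/-! TARGET (prove; you may add auxiliary lemmas before it) -/

theorem aux_act1 (q : Q1) (k : K1) (y : Y1) :
    (Multiplicative.toAdd (act1 q k)) y = (Multiplicative.toAdd k) ((pm1 q⁻¹) y) := by
  show (Multiplicative.toAdd (dom (pm1 q) k)) y = _
  rw [dom_apply, ← map_inv]

theorem aux_D1_mono {m n : ℕ} (h : m ≤ n) {g : G1} (hg : g ∈ D1 m) : g ∈ D1 n :=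
  fun y hy => hg y (h.trans hy)

theorem aux_one (g : G1) : ∃ n, g ∈ D1 n := by
  classical
  refine ⟨(Multiplicative.toAdd g.left).support.sup (fun y => y.1) + 1, fun y hy => ?_⟩
  by_contra hne
  have h1 : y ∈ (Multiplicative.toAdd g.left).support := Finsupp.mem_support_iff.2 hne
  have h2 := Finset.le_sup (f := fun y : Y1 => y.1) h1
  omega

theorem chain1_fin (S : Finset G1) : ∃ n, ∀ g ∈ S, g ∈ D1 n := by
  classical
  choose f hf using aux_one
  refine ⟨S.sup f, fun g hg => aux_D1_mono (Finset.le_sup hg) (hf g)⟩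

theorem chain1_sub (n : ℕ) : Z1 n ≤ D1 n := by
  intro g hg y _
  have h1 : g.left = 1 := hg.1
  rw [h1]
  rfl

theorem chain1_cent (n : ℕ) : ∀ z ∈ Z1 n, ∀ g ∈ D1 n, z * g = g * z := by
  rintro z ⟨hz1, hz2, hz3⟩ g hg
  have key : act1 z.right g.left = g.left := by
    apply Multiplicative.toAdd.injective
    ext y : 1
    rw [aux_act1]
    have e : (pm1 z.right⁻¹) y = (y.1, y.2.1 + -((Multiplicative.toAdd z.right.1) y.1), y.2.2) := by
      show (y.1, y.2.1 + -((Multiplicative.toAdd z.right.1) y.1), z.right.2⁻¹ * y.2.2) = _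
      rw [hz2, inv_one, one_mul]
    rw [e]
    by_cases hy : n ≤ y.1
    · rw [hg y hy]
      exact hg _ hy
    · rw [hz3 y.1 (not_le.1 hy), neg_zero, add_zero]
  apply SemidirectProduct.ext
  · rw [SemidirectProduct.mul_left, SemidirectProduct.mul_left, key, hz1, map_one, one_mul,
      mul_one]
  · rw [SemidirectProduct.mul_right, SemidirectProduct.mul_right]
    apply Prod.ext
    · rw [Prod.fst_mul, Prod.fst_mul, mul_comm]
    · rw [Prod.snd_mul, Prod.snd_mul, hz2, one_mul, mul_one]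

theorem chain1_a_mem (n : ℕ) : a1 n ∈ Z1 n := by
  refine ⟨rfl, rfl, fun i hi => ?_⟩
  show (Finsupp.single n (1 : ℤ)) i = 0
  rw [Finsupp.single_apply, if_neg (by omega)]

theorem chain1_a_t (n : ℕ) : a1 n * t1 n ≠ t1 n * a1 n := by
  intro h
  have h1 : (a1 n * t1 n).left = (t1 n * a1 n).left := congrArg SemidirectProduct.left h
  rw [SemidirectProduct.mul_left, SemidirectProduct.mul_left] at h1
  have h2 := congrArg (fun k : K1 => (Multiplicative.toAdd k) ((n, 0, 1) : Y1)) h1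
  have e1 : (a1 n).left = 1 := rfl
  have e2 : (t1 n).left = Multiplicative.ofAdd (Finsupp.single ((n, 0, 1) : Y1) (1 : ZMod 2)) := rfl
  rw [e1, map_one, one_mul, mul_one] at h2
  rw [aux_act1, e2] at h2
  have e3 : (pm1 (a1 n).right⁻¹) ((n, 0, 1) : Y1) = (n, -1, 1) := by
    show ((n, 0 + -((Finsupp.single n (1 : ℤ)) n), (1 : F2)⁻¹ * 1) : Y1) = (n, -1, 1)
    simp
  rw [e3] at h2
  simp [Finsupp.single_apply] at h2

theorem a1_ne (n : ℕ) : a1 n ≠ 1 := by
  intro h
  have h1 : (a1 n).right.1 = 1 := by rw [h]; rfl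
  have h2 : (Finsupp.single n (1 : ℤ)) = 0 := congrArg Multiplicative.toAdd h1
  have h3 := congrArg (fun k : ℕ →₀ ℤ => k n) h2
  simp at h3

theorem a1_comm (g : G1) : ∃ N, ∀ n ≥ N, a1 n * g = g * a1 n := by
  obtain ⟨N, hN⟩ := aux_one g
  exact ⟨N, fun n hn => chain1_cent n _ (chain1_a_mem n) g (aux_D1_mono hn hN)⟩


end Pool.Agent.Helper159.GM
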