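import Mathlib
import Pool.Agent.Helper159.GM.Core

set_option autoImplicit false
set_option linter.unusedSectionVars false

open scoped InnerProductSpace ComplexOrder Topology
open Filter

namespace Pool.Agent.Helper159.GM

open Pool.Agent.Helper278 Pool.Agent.Helper278.CE



/-! TARGET (prove; you may add auxiliary lemmas before it) -/

theorem exists_finset_cut {G : Type} (S : Set G) (f : EllTwo G) (ε : ℝ) (hε : 0 < ε) :
    ∃ F : Finset G, (F : Set G) ⊆ S ∧ ‖cut S f - cut (F : Set G) f‖ < ε := by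
  classical
  have h := norm_sq_eq (cut S f)
  obtain ⟨F0, hF0⟩ : ∃ F0 : Finset G, ‖cut S f‖ ^ 2 - ε ^ 2 < ∑ g ∈ F0, ‖cut S f g‖ ^ 2 := by
    by_contra hcon
    push Not at hcon
    have h1 := hasSum_le_of_sum_le h hcon
    have : 0 < ε ^ 2 := by positivity
    linarith
  refine ⟨F0.filter (· ∈ S), ?_, ?_⟩
  · intro g hg
    exact (Finset.mem_filter.1 (Finset.mem_coe.1 hg)).2
  · obtain ⟨F, hF⟩ : ∃ F : Set G, F = ((F0.filter (· ∈ S) : Finset G) : Set G) := ⟨_, rfl⟩
    rw [← hF]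
    have hmem : ∀ g, g ∈ F ↔ g ∈ F0 ∧ g ∈ S := by
      intro g
      rw [hF, Finset.mem_coe, Finset.mem_filter]
    have hFS : F ⊆ S := fun g hg => ((hmem g).1 hg).2
    have e1 : cut S f - cut F f = cut (S \ F) f := by
      ext g
      rw [lp.coeFn_sub, Pi.sub_apply]
      by_cases hg : g ∈ F
      · rw [cut_apply_mem f (hFS hg), cut_apply_mem f hg, sub_self,
          cut_apply_not_mem f (fun h' => h'.2 hg)]
      · rw [cut_apply_not_mem f hg, sub_zero]
        by_cases hs : g ∈ S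
        · rw [cut_apply_mem f hs, cut_apply_mem f (⟨hs, hg⟩ : g ∈ S \ F)]
        · rw [cut_apply_not_mem f hs, cut_apply_not_mem f (fun h' => hs h'.1)]
    have e2 := norm_cut_disj F (S \ F) Set.disjoint_sdiff_right f
    rw [Set.union_diff_cancel hFS] at e2
    have e3 : ∑ g ∈ F0, ‖cut S f g‖ ^ 2 ≤ ‖cut F f‖ ^ 2 := by
      have h1 := sum_le_hasSum F0 (fun g _ => sq_nonneg _) (norm_sq_eq (cut F f))
      refine le_trans (le_of_eq (Finset.sum_congr rfl fun g hg => ?_)) h1
      by_cases hs : g ∈ S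
      · rw [cut_apply_mem f hs, cut_apply_mem f ((hmem g).2 ⟨hg, hs⟩)]
      · rw [cut_apply_not_mem f hs, cut_apply_not_mem f (fun h' => hs (hFS h'))]
    rw [e1]
    have h4 : ‖cut (S \ F) f‖ ^ 2 < ε ^ 2 := by linarith
    exact lt_of_pow_lt_pow_left₀ 2 hε.le h4


end Pool.Agent.Helper159.GM
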