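import Mathlib
import Pool.Agent.Helper159.GM.JFinset

set_option autoImplicit false
set_option linter.unusedSectionVars false

open scoped InnerProductSpace ComplexOrder Topology
open Filter

namespace Pool.Agent.Helper159.GM

open Pool.Agent.Helper278 Pool.Agent.Helper278.CE





/-! TARGET (prove; you may add auxiliary lemmas before it) -/

variable {A : Type} [Ring A] [StarRing A] [Algebra ℂ A] [StarModule ℂ A] {τ : A →ₗ[ℂ] ℂ}
  {G : Type} [Group G] {u : G →* A} {op : A →⋆ₐ[ℂ] (EllTwo G →L[ℂ] EllTwo G)}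

theorem gamma (h : GVN τ u op) (a : ℕ → G) (ha : ∀ n, a n ≠ 1)
    (hc : ∀ g, ∃ N, ∀ n ≥ N, a n * g = g * a n) (F : Finset A) (ε : ℝ) (hε : 0 < ε) :
    ∃ w ∈ unitary A, τ w = 0 ∧ ∀ x ∈ F, n2 τ (w * x - x * w) < ε := by
  classical
  have hcut : ∀ x : A, ∃ S : Finset G, ‖op x (sb G 1) - cut (S : Set G) (op x (sb G 1))‖ < ε / 4 := by
    intro x
    obtain ⟨S, -, hS⟩ := exists_finset_cut Set.univ (op x (sb G 1)) (ε / 4) (by positivity)
    rw [cut_univ] at hS
    exact ⟨S, hS⟩
  choose Fx hFx using hcut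
  choose Nf hNf using hc
  set N := (F.biUnion Fx).sup Nf with hN
  have hcomm : ∀ x ∈ F, ∀ g ∈ Fx x, a N * g = g * a N := by
    intro x hx g hg
    exact hNf g N (Finset.le_sup (f := Nf) (Finset.mem_biUnion.2 ⟨x, hx, hg⟩))
  refine ⟨u (a N), h.u_unitary _, ?_, ?_⟩
  · rw [h.tau_eq, h.hat_u]
    exact sb_ne _ _ (ha N)
  · intro x hx
    rw [h.n2_comm_u]
    set f := op x (sb G 1) with hf
    set f' := cut (Fx x : Set G) f with hf'
    have hP : permOp (cj (a N)) f' = f' := by
      ext k
      rw [permOp_apply, cj_apply]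
      by_cases hk : k ∈ Fx x
      · rw [hcomm x hx k hk, mul_inv_cancel_right]
      · have hk2 : a N * k * (a N)⁻¹ ∉ Fx x := by
          intro hl
          have h1 := hcomm x hx _ hl
          apply hk
          have h2 : a N * k * (a N)⁻¹ = k := by
            have h3 : a N * (a N * k * (a N)⁻¹) = a N * k := by
              rw [h1]; group
            exact mul_left_cancel h3
          rw [h2] at hl
          exact hl
        rw [hf', cut_apply_not_mem f (show a N * k * (a N)⁻¹ ∉ (Fx x : Set G) from fun hh => hk2 hh),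
          cut_apply_not_mem f (show k ∉ (Fx x : Set G) from fun hh => hk hh)]
    have h1 : permOp (cj (a N)) f - f = permOp (cj (a N)) (f - f') - (f - f') := by
      rw [map_sub, hP]
      abel
    rw [h1]
    calc ‖permOp (cj (a N)) (f - f') - (f - f')‖ ≤ ‖permOp (cj (a N)) (f - f')‖ + ‖f - f'‖ := norm_sub_le _ _
      _ = ‖f - f'‖ + ‖f - f'‖ := by rw [norm_permOp]
      _ < ε := by
          have := hFx x
          linarith

end Pool.Agent.Helper159.GM
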