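import Mathlib
import Pool.Agent.Helper159.GM.Grp1

set_option autoImplicit false
set_option linter.unusedSectionVars false

namespace Pool.Agent.Helper159.GM



/-! TARGET (prove; you may add auxiliary lemmas before it) -/

theorem icc1_key (a : G1) (ha : a ∈ C1) (k : K1) (y : Y1) :
    (Multiplicative.toAdd ((SemidirectProduct.inl k : G1) * a * (SemidirectProduct.inl k : G1)⁻¹).left) y
      = (Multiplicative.toAdd k) y -
        (Multiplicative.toAdd k) (y.1, y.2.1 - (Multiplicative.toAdd a.right.1) y.1, y.2.2) := by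
  obtain ⟨hl, hr⟩ := ha
  have e1 : ((SemidirectProduct.inl k : G1) * a * (SemidirectProduct.inl k : G1)⁻¹).left =
      k * act1 a.right k⁻¹ := by
    rw [SemidirectProduct.mul_left, SemidirectProduct.mul_left, SemidirectProduct.mul_right,
      SemidirectProduct.inv_left, hl]
    simp
  rw [e1]
  show (Multiplicative.toAdd k) y + (Multiplicative.toAdd (dom (pm1 a.right) k⁻¹)) y = _
  rw [dom_apply]
  have e2 : (pm1 a.right)⁻¹ y = (y.1, y.2.1 - (Multiplicative.toAdd a.right.1) y.1, y.2.2) := by
    show (y.1, y.2.1 - (Multiplicative.toAdd a.right.1) y.1, a.right.2⁻¹ * y.2.2) = _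
    rw [hr]
    simp
  rw [e2]
  show _ + -((Multiplicative.toAdd k) _) = _
  rw [← sub_eq_add_neg]

theorem icc1 (a : G1) (ha : a ∈ C1) (h1 : a ≠ 1) : (Set.range fun g : G1 => g * a * g⁻¹).Infinite := by
  obtain ⟨i, hi⟩ : ∃ i, (Multiplicative.toAdd a.right.1) i ≠ 0 := by
    by_contra h
    push Not at h
    apply h1
    apply SemidirectProduct.ext
    · exact ha.1
    · apply Prod.ext
      · show a.right.1 = 1
        apply Multiplicative.toAdd.injective
        ext j
        exact h j
      · exact ha.2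
  set α : ℤ := (Multiplicative.toAdd a.right.1) i with hα
  let g : ℕ → G1 := fun m => SemidirectProduct.inl
    (Multiplicative.ofAdd (Finsupp.single ((i, (m:ℤ), 1) : Y1) (1 : ZMod 2)))
  have key : ∀ (m : ℕ) (t : ℤ), (Multiplicative.toAdd (g m * a * (g m)⁻¹).left) ((i, t, 1) : Y1) =
      (if (m:ℤ) = t then 1 else 0) - (if (m:ℤ) = t - α then 1 else 0) := by
    intro m t
    rw [icc1_key a ha]
    show (Finsupp.single ((i, (m:ℤ), 1) : Y1) (1 : ZMod 2)) (i, t, 1) -
      (Finsupp.single ((i, (m:ℤ), 1) : Y1) (1 : ZMod 2)) (i, t - α, 1) = _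
    rw [Finsupp.single_apply, Finsupp.single_apply]
    simp
  apply Set.infinite_of_injective_forall_mem (f := fun m : ℕ => g m * a * (g m)⁻¹)
  · intro m m' h
    have h' : g m * a * (g m)⁻¹ = g m' * a * (g m')⁻¹ := h
    by_contra hne
    have hne' : (m:ℤ) ≠ m' := by exact_mod_cast hne
    have e1 := key m m
    have e2 := key m' m
    have e3 := key m m'
    have e4 := key m' m'
    rw [h', e2] at e1
    rw [h', e4] at e3
    have f1 : (m':ℤ) = m - α := by
      by_contra hc
      rw [if_neg (Ne.symm hne'), if_neg hc, if_pos rfl, if_neg (by omega)] at e1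
      simp at e1
    have f2 : (m:ℤ) = m' - α := by
      by_contra hc
      rw [if_pos rfl, if_neg (by omega), if_neg hne', if_neg hc] at e3
      simp at e3
    apply hi
    omega
  · intro m
    exact ⟨g m, rfl⟩

theorem c1_comm : ∀ a ∈ C1, ∀ b ∈ C1, a * b = b * a := by
  rintro a ⟨ha1, ha2⟩ b ⟨hb1, hb2⟩
  apply SemidirectProduct.ext
  · rw [SemidirectProduct.mul_left, SemidirectProduct.mul_left, ha1, hb1, map_one, map_one]
  · rw [SemidirectProduct.mul_right, SemidirectProduct.mul_right]
    apply Prod.ext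
    · exact mul_comm _ _
    · rw [Prod.snd_mul, Prod.snd_mul, ha2, hb2]

theorem fr1_comm_aux (x : F2) : ∀ a ∈ C1, fr1 x * a = a * fr1 x := by
  rintro a ⟨ha1, ha2⟩
  apply SemidirectProduct.ext
  · rw [SemidirectProduct.mul_left, SemidirectProduct.mul_left, ha1, map_one]
    show (1 : K1) * 1 = 1 * act1 a.right 1
    rw [map_one]
  · rw [SemidirectProduct.mul_right, SemidirectProduct.mul_right]
    apply Prod.ext
    · exact mul_comm _ _
    · rw [Prod.snd_mul, Prod.snd_mul, ha2, one_mul, mul_one]

theorem p1_comm : ∀ a ∈ C1, p1 * a = a * p1 := fr1_comm_aux _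

theorem q1_comm : ∀ a ∈ C1, q1 * a = a * q1 := fr1_comm_aux _


end Pool.Agent.Helper159.GM
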