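import Mathlib
import Pool.Agent.Helper159.GM.Base
import Pool.Agent.Helper159.GM.Dom

set_option autoImplicit false

namespace Pool.Agent.Helper159.GM


/-- the letters: `p`, `q` and the block swaps `(m, M)` -/
abbrev X2 : Type := Bool ⊕ (ℕ × ℕ)

abbrev A2 : Type := Multiplicative (ℕ →₀ ZMod 2)

/-- the block swap: exchanges `[0, m)` and `[m + M, 2 m + M)` -/
def bsf (m M i : ℕ) : ℕ :=
  if i < m then i + (m + M) else if m + M ≤ i ∧ i < m + M + m then i - (m + M) else i

theorem bsf_inv (m M : ℕ) : Function.Involutive (bsf m M) := by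
  intro i
  unfold bsf
  split_ifs <;> omega

def bs (m M : ℕ) : Equiv.Perm ℕ := (bsf_inv m M).toPerm

theorem bs_apply (m M i : ℕ) : bs m M i = bsf m M i := rfl

/-- the action of the free group by permutations of `ℕ` -/
def pm2 : FreeGroup X2 →* Equiv.Perm ℕ :=
  FreeGroup.lift (Sum.elim (fun _ => 1) (fun r => bs r.1 r.2))

noncomputable def act2 : FreeGroup X2 →* MulAut A2 := dom.comp pm2

/-- the group `(⊕_ℕ ℤ/2) ⋊ F_∞` -/
abbrev G2 : Type := A2 ⋊[act2] FreeGroup X2

/-- the subgroup `⊕_ℕ ℤ/2` of `G2` -/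
noncomputable def C2 : Subgroup G2 where
  carrier := {g | g.right = 1}
  one_mem' := rfl
  mul_mem' := by
    intro g h hg hh
    show g.right * h.right = 1
    rw [show g.right = 1 from hg, show h.right = 1 from hh, one_mul]
  inv_mem' := by
    intro g hg
    show g.right⁻¹ = 1
    rw [show g.right = 1 from hg, inv_one]

noncomputable def p2 : G2 := SemidirectProduct.inr (FreeGroup.of (Sum.inl true))
noncomputable def q2 : G2 := SemidirectProduct.inr (FreeGroup.of (Sum.inl false))

/-- the generators of `⊕_ℕ ℤ/2` -/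
noncomputable def a2 (n : ℕ) : G2 :=
  SemidirectProduct.inl (Multiplicative.ofAdd (Finsupp.single n (1 : ZMod 2)))


end Pool.Agent.Helper159.GM
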