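import Mathlib
import Pool.Agent.Helper159.GM.Grp2

set_option autoImplicit false
set_option linter.unusedSectionVars false

namespace Pool.Agent.Helper159.GM



theorem icc2_conj (a : G2) (m M : ℕ) (y : ℕ) :
    (Multiplicative.toAdd ((SemidirectProduct.inr (FreeGroup.of (Sum.inr (m, M))) : G2) * a *
      (SemidirectProduct.inr (FreeGroup.of (Sum.inr (m, M))) : G2)⁻¹).left) y
      = (Multiplicative.toAdd a.left) (bsf m M y) := by
  have h1 : ((SemidirectProduct.inr (FreeGroup.of (Sum.inr (m, M))) : G2) * a *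
      (SemidirectProduct.inr (FreeGroup.of (Sum.inr (m, M))) : G2)⁻¹).left
      = act2 (FreeGroup.of (Sum.inr (m, M))) a.left := by
    simp [SemidirectProduct.mul_left, SemidirectProduct.inv_left]
  rw [h1]
  have h2 : act2 (FreeGroup.of (Sum.inr (m, M))) = dom (bs m M) := by
    show dom (pm2 (FreeGroup.of (Sum.inr (m, M)))) = dom (bs m M)
    congr 1
  rw [h2, dom_apply]
  have h3 : (bs m M)⁻¹ y = bsf m M y := by
    show (bs m M).symm y = bsf m M y
    rw [Equiv.symm_apply_eq, bs_apply, bsf_inv m M y]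
  rw [h3]

/-! TARGET (prove; you may add auxiliary lemmas before it) -/

theorem icc2 (a : G2) (ha : a ∈ C2) (h1 : a ≠ 1) : (Set.range fun g : G2 => g * a * g⁻¹).Infinite := by
  have hv : (Multiplicative.toAdd a.left : ℕ →₀ ZMod 2) ≠ 0 := by
    intro h
    apply h1
    have hr : a.right = 1 := ha
    refine SemidirectProduct.ext ?_ hr
    exact Multiplicative.toAdd.injective h
  obtain ⟨i0, hi0⟩ := Finsupp.ne_iff.mp hv
  obtain ⟨m, hm⟩ : ∃ m : ℕ, ∀ i ∈ (Multiplicative.toAdd a.left : ℕ →₀ ZMod 2).support, i < m := by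
    refine ⟨(Multiplicative.toAdd a.left : ℕ →₀ ZMod 2).support.sup id + 1, fun i hi => ?_⟩
    exact Nat.lt_succ_of_le (Finset.le_sup (f := id) hi)
  have hzero : ∀ i, m ≤ i → (Multiplicative.toAdd a.left : ℕ →₀ ZMod 2) i = 0 := by
    intro i hi
    by_contra hcon
    exact absurd (hm i (Finsupp.mem_support_iff.mpr hcon)) (not_lt.mpr hi)
  have hi0m : i0 < m := by
    by_contra hcon
    exact hi0 (hzero i0 (not_lt.mp hcon))
  refine Set.infinite_of_injective_forall_mem (f := fun j : ℕ =>
    (SemidirectProduct.inr (FreeGroup.of (Sum.inr (m, m * j))) : G2) * a *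
      (SemidirectProduct.inr (FreeGroup.of (Sum.inr (m, m * j))) : G2)⁻¹) ?_
    (fun j => ⟨SemidirectProduct.inr (FreeGroup.of (Sum.inr (m, m * j))), rfl⟩)
  intro j k hjk
  by_contra hne
  have h2 : (Multiplicative.toAdd ((SemidirectProduct.inr (FreeGroup.of (Sum.inr (m, m * j))) :
      G2) * a * (SemidirectProduct.inr (FreeGroup.of (Sum.inr (m, m * j))) : G2)⁻¹).left)
        (i0 + (m + m * j))
      = (Multiplicative.toAdd ((SemidirectProduct.inr (FreeGroup.of (Sum.inr (m, m * k))) :
      G2) * a * (SemidirectProduct.inr (FreeGroup.of (Sum.inr (m, m * k))) : G2)⁻¹).left)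
        (i0 + (m + m * j)) := by
    have h3 : (SemidirectProduct.inr (FreeGroup.of (Sum.inr (m, m * j))) :
      G2) * a * (SemidirectProduct.inr (FreeGroup.of (Sum.inr (m, m * j))) : G2)⁻¹
      = (SemidirectProduct.inr (FreeGroup.of (Sum.inr (m, m * k))) :
      G2) * a * (SemidirectProduct.inr (FreeGroup.of (Sum.inr (m, m * k))) : G2)⁻¹ := hjk
    rw [h3]
  rw [icc2_conj, icc2_conj] at h2
  have e1 : bsf m (m * j) (i0 + (m + m * j)) = i0 := by
    unfold bsf
    rw [if_neg (by omega), if_pos (by omega)]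
    omega
  have e2 : bsf m (m * k) (i0 + (m + m * j)) = i0 + (m + m * j) := by
    unfold bsf
    have hlt : ¬ (m + m * k ≤ i0 + (m + m * j) ∧ i0 + (m + m * j) < m + m * k + m) := by
      rintro ⟨q1, q2⟩
      rcases Nat.lt_or_gt_of_ne hne with h | h
      · have : m * (j + 1) ≤ m * k := Nat.mul_le_mul_left m h
        rw [Nat.mul_add, Nat.mul_one] at this
        omega
      · have : m * (k + 1) ≤ m * j := Nat.mul_le_mul_left m h
        rw [Nat.mul_add, Nat.mul_one] at this
        omega
    rw [if_neg (by omega), if_neg hlt]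
  rw [e1, e2, hzero (i0 + (m + m * j)) (by omega)] at h2
  exact hi0 h2


end Pool.Agent.Helper159.GM
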