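import Mathlib
import Pool.Agent.Helper159.GM.Grp1

set_option autoImplicit false
set_option linter.unusedSectionVars false

namespace Pool.Agent.Helper159.GM



/-! TARGET (prove; you may add auxiliary lemmas before it) -/

theorem c1m_bounds (S : Finset G1) : ∃ (B : ℤ) (N : ℕ), 0 ≤ B ∧
    (∀ g ∈ S, ∀ y : Y1, (Multiplicative.toAdd g.left) y ≠ 0 → |y.2.1| ≤ B ∧ y.1 < N) ∧
    (∀ g ∈ S, ∀ i : ℕ, |(Multiplicative.toAdd g.right.1) i| ≤ B) := by
  classical
  obtain ⟨B1, hB1⟩ : ∃ B1 : ℤ, B1 = ∑ g ∈ S, ∑ y ∈ (Multiplicative.toAdd g.left).support, |y.2.1| :=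
    ⟨_, rfl⟩
  obtain ⟨B2, hB2⟩ : ∃ B2 : ℤ, B2 = ∑ g ∈ S, ∑ i ∈ (Multiplicative.toAdd g.right.1).support,
    |(Multiplicative.toAdd g.right.1) i| := ⟨_, rfl⟩
  have h1 : ∀ g : G1, 0 ≤ ∑ y ∈ (Multiplicative.toAdd g.left).support, |y.2.1| :=
    fun g => Finset.sum_nonneg (fun _ _ => abs_nonneg _)
  have h2 : ∀ g : G1, 0 ≤ ∑ i ∈ (Multiplicative.toAdd g.right.1).support,
    |(Multiplicative.toAdd g.right.1) i| := fun g => Finset.sum_nonneg (fun _ _ => abs_nonneg _)
  have hB1' : 0 ≤ B1 := hB1 ▸ Finset.sum_nonneg (fun g _ => h1 g)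
  have hB2' : 0 ≤ B2 := hB2 ▸ Finset.sum_nonneg (fun g _ => h2 g)
  refine ⟨B1 + B2, ∑ g ∈ S, ∑ y ∈ (Multiplicative.toAdd g.left).support, (y.1 + 1),
    add_nonneg hB1' hB2', fun g hg y hy => ⟨?_, ?_⟩, fun g hg i => ?_⟩
  · have hys : y ∈ (Multiplicative.toAdd g.left).support := Finsupp.mem_support_iff.2 hy
    have e1 : |y.2.1| ≤ ∑ y ∈ (Multiplicative.toAdd g.left).support, |y.2.1| :=
      Finset.single_le_sum (f := fun y : Y1 => |y.2.1|) (fun _ _ => abs_nonneg _) hys
    have e2 : ∑ y ∈ (Multiplicative.toAdd g.left).support, |y.2.1| ≤ B1 := by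
      rw [hB1]
      exact Finset.single_le_sum (f := fun g : G1 =>
        ∑ y ∈ (Multiplicative.toAdd g.left).support, |y.2.1|) (fun g _ => h1 g) hg
    linarith
  · have hys : y ∈ (Multiplicative.toAdd g.left).support := Finsupp.mem_support_iff.2 hy
    have e1 : y.1 + 1 ≤ ∑ y ∈ (Multiplicative.toAdd g.left).support, (y.1 + 1) :=
      Finset.single_le_sum (f := fun y : Y1 => y.1 + 1) (fun _ _ => Nat.zero_le _) hys
    have e2 : ∑ y ∈ (Multiplicative.toAdd g.left).support, (y.1 + 1) ≤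
        ∑ g ∈ S, ∑ y ∈ (Multiplicative.toAdd g.left).support, (y.1 + 1) :=
      Finset.single_le_sum (f := fun g : G1 =>
        ∑ y ∈ (Multiplicative.toAdd g.left).support, (y.1 + 1)) (fun g _ => Nat.zero_le _) hg
    omega
  · by_cases hi : (Multiplicative.toAdd g.right.1) i = 0
    · rw [hi, abs_zero]
      exact add_nonneg hB1' hB2'
    · have his : i ∈ (Multiplicative.toAdd g.right.1).support := Finsupp.mem_support_iff.2 hi
      have e1 : |(Multiplicative.toAdd g.right.1) i| ≤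
          ∑ i ∈ (Multiplicative.toAdd g.right.1).support, |(Multiplicative.toAdd g.right.1) i| :=
        Finset.single_le_sum (f := fun i : ℕ => |(Multiplicative.toAdd g.right.1) i|)
          (fun _ _ => abs_nonneg _) his
      have e2 : ∑ i ∈ (Multiplicative.toAdd g.right.1).support,
          |(Multiplicative.toAdd g.right.1) i| ≤ B2 := by
        rw [hB2]
        exact Finset.single_le_sum (f := fun g : G1 =>
          ∑ i ∈ (Multiplicative.toAdd g.right.1).support, |(Multiplicative.toAdd g.right.1) i|)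
          (fun g _ => h2 g) hg
      linarith

theorem c1m_act (q : Q1) (k : K1) (y : Y1) :
    (Multiplicative.toAdd (act1 q k)) y = (Multiplicative.toAdd k) ((pm1 q)⁻¹ y) :=
  dom_apply (pm1 q) k y

theorem c1m_pm (q : Q1) (y : Y1) : ((pm1 q)⁻¹ y).2.1 = y.2.1 - (Multiplicative.toAdd q.1) y.1 :=
  rfl

theorem chain1_mix (n : ℕ) (S : Finset G1) : ∃ z ∈ Z1 n, ∀ g ∈ S, ∀ k ∈ S, g ∉ D1 n →
    z * g * z⁻¹ ≠ k ∧ (k ∉ D1 n → g * z * k ∉ D1 n) := by
  classical
  obtain ⟨B, N, hB0, hB1, hB2⟩ := c1m_bounds S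
  obtain ⟨Zf, hZ1, hZ2⟩ : ∃ Zf : ℕ →₀ ℤ, (∀ i, n ≤ i → i < N → Zf i = 3 * B + 1) ∧
      (∀ i, i < n → Zf i = 0) := by
    refine ⟨Finsupp.onFinset (Finset.Ico n N) (fun i => if n ≤ i ∧ i < N then 3 * B + 1 else 0) ?_,
      ?_, ?_⟩
    · intro i hi
      rw [Finset.mem_Ico]
      by_contra h
      exact hi (if_neg h)
    · intro i h1 h2
      rw [Finsupp.onFinset_apply, if_pos ⟨h1, h2⟩]
    · intro i h1
      rw [Finsupp.onFinset_apply, if_neg (fun h => absurd h.1 (not_le.2 h1))]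
  obtain ⟨q, hq⟩ : ∃ q : Q1, q = (Multiplicative.ofAdd Zf, 1) := ⟨_, rfl⟩
  have hqv : ∀ i, (Multiplicative.toAdd q.1) i = Zf i := fun i => by rw [hq]; rfl
  refine ⟨SemidirectProduct.inr q, ⟨rfl, by rw [hq]; rfl, fun i hi => ?_⟩, ?_⟩
  · show (Multiplicative.toAdd q.1) i = 0
    rw [hqv, hZ2 i hi]
  intro g hg k hk hgD
  obtain ⟨y, hny, hy⟩ : ∃ y : Y1, n ≤ y.1 ∧ (Multiplicative.toAdd g.left) y ≠ 0 := by
    by_contra hcon
    push Not at hcon
    exact hgD hcon
  obtain ⟨hyB, hyN⟩ := hB1 g hg y hy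
  have hZy : Zf y.1 = 3 * B + 1 := hZ1 y.1 hny hyN
  have hyB' := abs_le.1 hyB
  refine ⟨?_, fun _ hmem => ?_⟩
  · intro hek
    have h1 : (SemidirectProduct.inr q * g * (SemidirectProduct.inr q)⁻¹ : G1).left =
        act1 q g.left := by
      rw [← map_inv, SemidirectProduct.mul_left, SemidirectProduct.mul_left,
        SemidirectProduct.left_inr, SemidirectProduct.left_inr, SemidirectProduct.right_inr,
        map_one, one_mul, mul_one]
    rw [hek] at h1
    have h2 : (Multiplicative.toAdd k.left) (pm1 q y) ≠ 0 := by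
      rw [h1, c1m_act]
      have : (pm1 q)⁻¹ (pm1 q y) = y := Equiv.symm_apply_apply (pm1 q) y
      rw [this]
      exact hy
    obtain ⟨h3, -⟩ := hB1 k hk _ h2
    have h4 : (pm1 q y).2.1 = y.2.1 + (Multiplicative.toAdd q.1) y.1 := rfl
    rw [h4, hqv, hZy] at h3
    have h5 := abs_le.1 h3
    linarith [h5.2, hyB'.1]
  · have h1 := hmem y hny
    have h2 : (g * SemidirectProduct.inr q * k : G1).left =
        g.left * act1 (g.right * q) k.left := by
      rw [SemidirectProduct.mul_left, SemidirectProduct.mul_left, SemidirectProduct.mul_right,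
        SemidirectProduct.left_inr, SemidirectProduct.right_inr, map_one, mul_one]
    rw [h2] at h1
    have h3 : (Multiplicative.toAdd (g.left * act1 (g.right * q) k.left)) y =
      (Multiplicative.toAdd g.left) y + (Multiplicative.toAdd (act1 (g.right * q) k.left)) y := rfl
    rw [h3, c1m_act] at h1
    have h4 : (Multiplicative.toAdd k.left) ((pm1 (g.right * q))⁻¹ y) = 0 := by
      by_contra h5
      obtain ⟨h6, -⟩ := hB1 k hk _ h5
      rw [c1m_pm] at h6
      have h7 : (Multiplicative.toAdd (g.right * q).1) y.1 =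
        (Multiplicative.toAdd g.right.1) y.1 + (Multiplicative.toAdd q.1) y.1 := rfl
      rw [h7, hqv, hZy] at h6
      have h8 := abs_le.1 h6
      have h9 := abs_le.1 (hB2 g hg y.1)
      linarith [h8.1, h9.1, hyB'.2]
    rw [h4, add_zero] at h1
    exact hy h1


end Pool.Agent.Helper159.GM
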