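import Mathlib
import Pool.Agent.Helper159.GM.Grp2

set_option autoImplicit false
set_option linter.unusedSectionVars false

namespace Pool.Agent.Helper159.GM



/-! TARGET (prove; you may add auxiliary lemmas before it) -/

theorem mv_fix (f : FreeGroup X2) : ∃ M : ℕ, ∀ i, M ≤ i → pm2 f i = i := by
  induction f using FreeGroup.induction_on with
  | C1 => exact ⟨0, fun i _ => by rw [map_one]; rfl⟩
  | of x =>
    cases x with
    | inl b =>
      refine ⟨0, fun i _ => ?_⟩
      show pm2 (FreeGroup.of (Sum.inl b)) i = i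
      unfold pm2
      rw [FreeGroup.lift_apply_of]
      rfl
    | inr r =>
      refine ⟨r.1 + r.2 + r.1, fun i hi => ?_⟩
      show pm2 (FreeGroup.of (Sum.inr r)) i = i
      unfold pm2
      rw [FreeGroup.lift_apply_of]
      show bsf r.1 r.2 i = i
      unfold bsf
      split_ifs <;> omega
  | inv_of x ih =>
    obtain ⟨M, hM⟩ := ih
    refine ⟨M, fun i hi => ?_⟩
    rw [map_inv, Equiv.Perm.inv_eq_iff_eq]
    exact (hM i hi).symm
  | mul x y hx hy =>
    obtain ⟨M, hM⟩ := hx
    obtain ⟨N, hN⟩ := hy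
    refine ⟨max M N, fun i hi => ?_⟩
    rw [map_mul, Equiv.Perm.mul_apply, hN i (le_trans (le_max_right _ _) hi),
      hM i (le_trans (le_max_left _ _) hi)]

theorem mv_act (f : FreeGroup X2) (M : ℕ) (h : ∀ i, M ≤ i → pm2 f i = i) (v : A2)
    (hv : ∀ i, i < M → Multiplicative.toAdd v i = 0) : act2 f v = v := by
  apply Multiplicative.toAdd.injective
  apply Finsupp.ext
  intro i
  show (Multiplicative.toAdd (dom (pm2 f) v)) i = Multiplicative.toAdd v i
  rw [dom_apply]
  by_cases hi : M ≤ i
  · have : (pm2 f)⁻¹ i = i := by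
      rw [Equiv.Perm.inv_eq_iff_eq]
      exact (h i hi).symm
    rw [this]
  · rw [hv i (not_le.mp hi)]
    apply hv
    by_contra hc
    have h1 := h _ (not_lt.mp hc)
    rw [show (pm2 f) ((pm2 f)⁻¹ i) = i from (pm2 f).apply_symm_apply i] at h1
    rw [← h1] at hc
    exact hc (not_le.mp hi)

theorem mv_comm (v : A2) (g : G2) (h : act2 g.right v = v) :
    (SemidirectProduct.inl v : G2) * g = g * SemidirectProduct.inl v := by
  apply SemidirectProduct.ext
  · rw [SemidirectProduct.mul_left, SemidirectProduct.mul_left, SemidirectProduct.left_inl,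
      SemidirectProduct.right_inl, map_one, h]
    show v * g.left = g.left * v
    rw [mul_comm]
  · rw [SemidirectProduct.mul_right, SemidirectProduct.mul_right, SemidirectProduct.right_inl,
      one_mul, mul_one]

theorem mv_supp (v : A2) : ∃ m : ℕ, ∀ i, m ≤ i → Multiplicative.toAdd v i = 0 := by
  refine ⟨(Multiplicative.toAdd v).support.sup id + 1, fun i hi => ?_⟩
  by_contra hc
  have h1 : i ∈ (Multiplicative.toAdd v).support := Finsupp.mem_support_iff.mpr hc
  have h2 : id i ≤ (Multiplicative.toAdd v).support.sup id := Finset.le_sup h1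
  have h3 : i ≤ (Multiplicative.toAdd v).support.sup id := h2
  omega

theorem mover2 (S T : Finset G2) (hS : ∀ a ∈ S, a ∈ C2) : ∃ s : G2,
    (∀ a, a ∈ C2 ↔ s * a * s⁻¹ ∈ C2) ∧ ∀ a ∈ S, ∀ g ∈ T, (s * a * s⁻¹) * g = g * (s * a * s⁻¹) := by
  choose mf hmf using mv_supp
  choose Mf hMf using mv_fix
  obtain ⟨m, hm⟩ : ∃ m : ℕ, ∀ a ∈ S, ∀ i, m ≤ i → Multiplicative.toAdd a.left i = 0 := by
    refine ⟨S.sup (fun a => mf a.left), fun a ha i hi => hmf a.left i (le_trans ?_ hi)⟩
    exact Finset.le_sup (f := fun a : G2 => mf a.left) ha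
  obtain ⟨M, hM⟩ : ∃ M : ℕ, ∀ g ∈ T, ∀ i, M ≤ i → pm2 g.right i = i := by
    refine ⟨T.sup (fun g => Mf g.right), fun g hg i hi => hMf g.right i (le_trans ?_ hi)⟩
    exact Finset.le_sup (f := fun g : G2 => Mf g.right) hg
  refine ⟨SemidirectProduct.inr (FreeGroup.of (Sum.inr (m, M))), fun a => ?_, fun a ha g hg => ?_⟩
  · show a.right = 1 ↔ ((SemidirectProduct.inr (FreeGroup.of (Sum.inr (m, M))) : G2) * a *
      (SemidirectProduct.inr (FreeGroup.of (Sum.inr (m, M))))⁻¹).right = 1
    rw [SemidirectProduct.mul_right, SemidirectProduct.mul_right, SemidirectProduct.inv_right,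
      conj_eq_one_iff]
  · have h1 : a.right = 1 := hS a ha
    have h2 : a = SemidirectProduct.inl a.left := by
      apply SemidirectProduct.ext
      · rw [SemidirectProduct.left_inl]
      · rw [SemidirectProduct.right_inl, h1]
    have h3 : (SemidirectProduct.inr (FreeGroup.of (Sum.inr (m, M))) : G2) * a *
        (SemidirectProduct.inr (FreeGroup.of (Sum.inr (m, M))))⁻¹ =
        SemidirectProduct.inl (act2 (FreeGroup.of (Sum.inr (m, M))) a.left) := by
      rw [SemidirectProduct.inl_aut, map_inv, ← h2]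
    rw [h3]
    apply mv_comm
    apply mv_act _ M (hM g hg)
    intro i hi
    show (Multiplicative.toAdd (dom (pm2 (FreeGroup.of (Sum.inr (m, M)))) a.left)) i = 0
    rw [dom_apply]
    apply hm a ha
    have h4 : pm2 (FreeGroup.of (Sum.inr (m, M))) = bs m M := by
      unfold pm2
      rw [FreeGroup.lift_apply_of]
      rfl
    have h5 : (bs m M)⁻¹ i = bsf m M i := by
      rw [Equiv.Perm.inv_eq_iff_eq, bs_apply, bsf_inv]
    rw [h4, h5]
    unfold bsf
    split_ifs <;> omega

theorem a2_ne (n : ℕ) : a2 n ≠ 1 := by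
  intro h
  have h1 : (SemidirectProduct.inl (Multiplicative.ofAdd (Finsupp.single n (1 : ZMod 2))) : G2)
      = SemidirectProduct.inl 1 := by
    rw [map_one]
    exact h
  have h2 := SemidirectProduct.inl_injective h1
  have h3 : (Finsupp.single n (1 : ZMod 2)) = 0 := h2
  rw [Finsupp.single_eq_zero] at h3
  exact one_ne_zero h3

theorem a2_comm (g : G2) : ∃ N, ∀ n ≥ N, a2 n * g = g * a2 n := by
  obtain ⟨M, hM⟩ := mv_fix g.right
  refine ⟨M, fun n hn => mv_comm _ g (mv_act _ M hM _ (fun i hi => ?_))⟩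
  show (Finsupp.single n (1 : ZMod 2)) i = 0
  rw [Finsupp.single_apply, if_neg]
  omega


end Pool.Agent.Helper159.GM
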