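import Mathlib
import Pool.Agent.Helper159.GM.JFinset

set_option autoImplicit false
set_option linter.unusedSectionVars false

open scoped InnerProductSpace ComplexOrder Topology
open Filter

namespace Pool.Agent.Helper159.GM

open Pool.Agent.Helper278 Pool.Agent.Helper278.CE

variable {A : Type} [Ring A] [StarRing A] [Algebra ℂ A] [StarModule ℂ A] {τ : A →ₗ[ℂ] ℂ}
  {G : Type} [Group G] {u : G →* A} {op : A →⋆ₐ[ℂ] (EllTwo G →L[ℂ] EllTwo G)}





theorem mix_one_norm_le {G : Type} (x y : EllTwo G) (hxy : ∀ k, ‖x k‖ ≤ ‖y k‖) : ‖x‖ ≤ ‖y‖ := by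
  have h := hasSum_le (fun k => pow_le_pow_left₀ (norm_nonneg _) (hxy k) 2) (norm_sq_eq x)
    (norm_sq_eq y)
  exact (pow_le_pow_iff_left₀ (norm_nonneg _) (norm_nonneg _) two_ne_zero).1 h

theorem mix_one_cut_add {G : Type} (S : Set G) (x y : EllTwo G) :
    cut S (x + y) = cut S x + cut S y := by
  ext g
  rw [lp.coeFn_add, Pi.add_apply]
  by_cases hg : g ∈ S
  · rw [cut_apply_mem _ hg, cut_apply_mem _ hg, cut_apply_mem _ hg, lp.coeFn_add, Pi.add_apply]
  · rw [cut_apply_not_mem _ hg, cut_apply_not_mem _ hg, cut_apply_not_mem _ hg, add_zero]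

theorem mix_one_cut_smul {G : Type} (S : Set G) (c : ℂ) (x : EllTwo G) :
    cut S (c • x) = c • cut S x := by
  ext g
  rw [lp.coeFn_smul, Pi.smul_apply]
  by_cases hg : g ∈ S
  · rw [cut_apply_mem _ hg, cut_apply_mem _ hg, lp.coeFn_smul, Pi.smul_apply]
  · rw [cut_apply_not_mem _ hg, cut_apply_not_mem _ hg, smul_zero]

theorem mix_one_cut_sum {G : Type} (S : Set G) (F : Finset G) (c : G → ℂ) (x : G → EllTwo G) :
    cut S (∑ i ∈ F, c i • x i) = ∑ i ∈ F, c i • cut S (x i) := by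
  classical
  induction F using Finset.induction_on with
  | empty =>
    rw [Finset.sum_empty, Finset.sum_empty]
    have := mix_one_cut_smul S (0 : ℂ) (0 : EllTwo G)
    simpa using this
  | insert a s ha ih =>
    rw [Finset.sum_insert ha, Finset.sum_insert ha, mix_one_cut_add, mix_one_cut_smul, ih]

theorem mix_one_cut_compl {G : Type} (S : Set G) (x : EllTwo G) :
    cut S x + cut Sᶜ x = x := by
  ext g
  rw [lp.coeFn_add, Pi.add_apply]
  by_cases hg : g ∈ S
  · rw [cut_apply_mem _ hg, cut_apply_not_mem _ (by simpa using hg), add_zero]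
  · rw [cut_apply_not_mem _ hg, cut_apply_mem _ (by simpa using hg), zero_add]

theorem mix_one_cut_finset {G : Type} (F : Finset G) (x : EllTwo G) :
    cut (F : Set G) x = ∑ i ∈ F, x i • sb G i := by
  classical
  ext g
  rw [lp.coeFn_sum, Finset.sum_apply]
  by_cases hg : g ∈ F
  · rw [cut_apply_mem _ (by simpa using hg), Finset.sum_eq_single g]
    · rw [lp.coeFn_smul, Pi.smul_apply, sb_self, smul_eq_mul, mul_one]
    · intro i _ hi
      rw [lp.coeFn_smul, Pi.smul_apply, sb_ne i g hi, smul_zero]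
    · intro h
      exact absurd hg h
  · rw [cut_apply_not_mem _ (by simpa using hg)]
    symm
    refine Finset.sum_eq_zero fun i hi => ?_
    rw [lp.coeFn_smul, Pi.smul_apply, sb_ne i g (fun h => hg (h ▸ hi)), smul_zero]

theorem mix_one_inv {G : Type} [Group G] (D : Subgroup G) (x y : EllTwo G)
    (hxy : ∀ g, x g = star (y g⁻¹)) : ‖cut (D : Set G) x‖ = ‖cut (D : Set G) y‖ := by
  rw [← norm_permOp (Equiv.inv G) (cut (D : Set G) y)]
  have key : ∀ g, ‖cut (D : Set G) x g‖ = ‖permOp (Equiv.inv G) (cut (D : Set G) y) g‖ := by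
    intro g
    rw [permOp_apply, Equiv.inv_apply]
    by_cases hg : g ∈ D
    · rw [cut_apply_mem _ (show g ∈ (D : Set G) from hg),
        cut_apply_mem _ (show g⁻¹ ∈ (D : Set G) from D.inv_mem hg), hxy, norm_star]
    · rw [cut_apply_not_mem _ (show g ∉ (D : Set G) from hg),
        cut_apply_not_mem _ (show g⁻¹ ∉ (D : Set G) from fun h => hg (by simpa using D.inv_mem h))]
  exact le_antisymm (mix_one_norm_le _ _ fun g => (key g).le)
    (mix_one_norm_le _ _ fun g => (key g).ge)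

/-! TARGET (prove; you may add auxiliary lemmas before it) -/

theorem mix_one (h : GVN τ u op) (Z D : Subgroup G) (hZD : Z ≤ D)
    (hmix : ∀ S : Finset G, ∃ z ∈ Z, ∀ g ∈ S, ∀ k ∈ S, g ∉ D →
      z * g * z⁻¹ ≠ k ∧ (k ∉ D → g * z * k ∉ D))
    (v : A) (hv : v ∈ unitary A) (ρ : ℝ) (hρ : 0 < ρ) :
    ∃ z ∈ Z, ‖cut (D : Set G) (op (v * u z * star v) (sb G 1))‖ ≤
      ‖cut (D : Set G) (op v (sb G 1))‖ + ρ := by
  classical
  set f := op v (sb G 1) with hf
  set ζ := op (star v) (sb G 1) with hζ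
  have hA : ‖cut (D : Set G) ζ‖ = ‖cut (D : Set G) f‖ :=
    mix_one_inv D ζ f fun g => h.hat_star v g
  obtain ⟨F, hFD, hF⟩ := exists_finset_cut (D : Set G)ᶜ ζ (ρ / 3) (by positivity)
  set M : ℝ := 1 + ∑ i ∈ F, ‖ζ i‖ with hM
  have hsum0 : 0 ≤ ∑ i ∈ F, ‖ζ i‖ := Finset.sum_nonneg fun i _ => norm_nonneg _
  have hM0 : 0 < M := by linarith
  obtain ⟨F', -, hF'⟩ := exists_finset_cut (Set.univ : Set G) f (ρ / (3 * M)) (by positivity)
  rw [cut_univ] at hF'
  obtain ⟨z, hz, hzS⟩ := hmix (F ∪ F')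
  refine ⟨z, hz, ?_⟩
  have hT : ∀ x : EllTwo G, ‖op v (op (u z) x)‖ = ‖x‖ := fun x => by
    rw [h.norm_op_unitary v hv, h.norm_op_unitary (u z) (h.u_unitary z)]
  have e1 : op (v * u z * star v) (sb G 1) = op v (op (u z) ζ) := by
    rw [h.hat_mul, map_mul, ← hζ]
    rfl
  have e2 : ζ = cut (D : Set G) ζ + (cut (D : Set G)ᶜ ζ - cut (F : Set G) ζ)
      + ∑ i ∈ F, ζ i • sb G i := by
    rw [← mix_one_cut_finset F ζ]
    conv_lhs => rw [← mix_one_cut_compl (D : Set G) ζ]
    abel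
  have e3 : op v (op (u z) ζ) = op v (op (u z) (cut (D : Set G) ζ))
      + op v (op (u z) (cut (D : Set G)ᶜ ζ - cut (F : Set G) ζ))
      + ∑ i ∈ F, ζ i • op v (op (u z) (sb G i)) := by
    conv_lhs => rw [e2]
    rw [map_add, map_add, map_add, map_add, map_sum, map_sum]
    congr 1
    refine Finset.sum_congr rfl fun i _ => ?_
    rw [map_smul, map_smul]
  have hB : ∀ i ∈ F, ‖cut (D : Set G) (op v (op (u z) (sb G i)))‖ ≤ ρ / (3 * M) := by
    intro i hi
    have e4 : op (u z) (sb G i) = sb G (z * i) := by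
      rw [← h.hat_u i, ← h.hat_mul, ← map_mul, h.hat_u]
    rw [e4]
    have hiD : i ∉ D := hFD (by simpa using hi)
    refine le_trans ?_ hF'.le
    rw [← norm_permOp (Equiv.mulRight (z * i)⁻¹) (f - cut (F' : Set G) f)]
    refine mix_one_norm_le _ _ fun k => ?_
    by_cases hk : k ∈ D
    · rw [cut_apply_mem _ (show k ∈ (D : Set G) from hk), h.coef, permOp_apply,
        Equiv.coe_mulRight, lp.coeFn_sub, Pi.sub_apply]
      have hk' : k * (z * i)⁻¹ ∉ F' := by
        intro hkF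
        have h1 : k * (z * i)⁻¹ ∉ D := by
          intro h2
          have h3 : z * i ∈ D := by
            have := D.mul_mem (D.inv_mem h2) hk
            simpa using this
          exact hiD ((D.mul_mem_cancel_left (hZD hz)).1 h3)
        have h4 := (hzS _ (Finset.mem_union_right F hkF) i (Finset.mem_union_left F' hi) h1).2 hiD
        apply h4
        have h5 : k * (z * i)⁻¹ * z * i = k := by group
        rw [h5]
        exact hk
      rw [cut_apply_not_mem _ (by simpa using hk'), sub_zero]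
    · rw [cut_apply_not_mem _ (show k ∉ (D : Set G) from hk), norm_zero]
      exact norm_nonneg _
  rw [e1, e3, mix_one_cut_add, mix_one_cut_add, mix_one_cut_sum]
  have n1 : ‖cut (D : Set G) (op v (op (u z) (cut (D : Set G) ζ)))‖ ≤ ‖cut (D : Set G) f‖ :=
    ((norm_cut_le_norm _ _).trans (hT _).le).trans hA.le
  have n2 : ‖cut (D : Set G) (op v (op (u z) (cut (D : Set G)ᶜ ζ - cut (F : Set G) ζ)))‖ ≤ ρ / 3 :=
    ((norm_cut_le_norm _ _).trans (hT _).le).trans hF.le
  have n3 : ‖∑ i ∈ F, ζ i • cut (D : Set G) (op v (op (u z) (sb G i)))‖ ≤ ρ / 3 := by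
    refine (norm_sum_le _ _).trans ?_
    calc ∑ i ∈ F, ‖ζ i • cut (D : Set G) (op v (op (u z) (sb G i)))‖
        ≤ ∑ i ∈ F, ‖ζ i‖ * (ρ / (3 * M)) := by
          refine Finset.sum_le_sum fun i hi => ?_
          rw [norm_smul]
          exact mul_le_mul_of_nonneg_left (hB i hi) (norm_nonneg _)
      _ = (∑ i ∈ F, ‖ζ i‖) * (ρ / (3 * M)) := (Finset.sum_mul _ _ _).symm
      _ ≤ M * (ρ / (3 * M)) := by
          refine mul_le_mul_of_nonneg_right (by linarith) (by positivity)
      _ = ρ / 3 := by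
          field_simp
  refine (norm_add_le _ _).trans ?_
  refine (add_le_add (norm_add_le _ _) le_rfl).trans ?_
  linarith


end Pool.Agent.Helper159.GM
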