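import Mathlib
import Pool.Agent.Helper159.GM.JFinset

set_option autoImplicit false
set_option linter.unusedSectionVars false

open scoped InnerProductSpace ComplexOrder Topology
open Filter

namespace Pool.Agent.Helper159.GM

open Pool.Agent.Helper278 Pool.Agent.Helper278.CE

variable {A : Type} [Ring A] [StarRing A] [Algebra ℂ A] [StarModule ℂ A] {τ : A →ₗ[ℂ] ℂ}
  {G : Type} [Group G] {u : G →* A} {op : A →⋆ₐ[ℂ] (EllTwo G →L[ℂ] EllTwo G)}





/-! TARGET (prove; you may add auxiliary lemmas before it) -/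

theorem mix_two (h : GVN τ u op) (Z D : Subgroup G) (hZD : Z ≤ D)
    (hmix : ∀ S : Finset G, ∃ z ∈ Z, ∀ g ∈ S, ∀ k ∈ S, g ∉ D →
      z * g * z⁻¹ ≠ k ∧ (k ∉ D → g * z * k ∉ D))
    (y : A) (ρ : ℝ) (hρ : 0 < ρ) :
    ∃ z ∈ Z, ‖cut ((D : Set G)ᶜ) (op y (sb G 1))‖ ≤ n2 τ (u z * y - y * u z) + ρ := by
  obtain ⟨F, hF, hFc⟩ := exists_finset_cut ((D : Set G)ᶜ) (op y (sb G 1)) (ρ / 4) (by linarith)
  obtain ⟨z, hz, hzS⟩ := hmix F
  refine ⟨z, hz, ?_⟩
  rw [h.n2_comm_u]
  set f := op y (sb G 1) with hf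
  have himg : (cj z) '' ((D : Set G)ᶜ) = (D : Set G)ᶜ := by
    have hzD := hZD hz
    ext g
    constructor
    · rintro ⟨k, hk, rfl⟩
      intro hk2
      apply hk
      have hk3 : z * k * z⁻¹ ∈ D := hk2
      have : k = z⁻¹ * (z * k * z⁻¹) * z := by group
      rw [this]
      exact D.mul_mem (D.mul_mem (D.inv_mem hzD) hk3) hzD
    · intro hg
      refine ⟨z⁻¹ * g * z, ?_, ?_⟩
      · intro hk2
        apply hg
        have hk3 : z⁻¹ * g * z ∈ D := hk2
        have : g = z * (z⁻¹ * g * z) * z⁻¹ := by group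
        rw [this]
        exact D.mul_mem (D.mul_mem hzD hk3) (D.inv_mem hzD)
      · rw [cj_apply]; group
  set a := cut ((D : Set G)ᶜ) f with ha
  set b := cut (F : Set G) f with hb
  have h1 : ‖permOp (cj z) a - a‖ ≤ ‖permOp (cj z) f - f‖ := by
    have h2 : permOp (cj z) a - a = cut ((D : Set G)ᶜ) (permOp (cj z) f - f) := by
      rw [cut_sub, cut_permOp, himg]
    rw [h2]
    exact norm_cut_le_norm _ _
  have h3 : ‖b‖ ≤ ‖permOp (cj z) b - b‖ := by
    have h4 : -b = cut (F : Set G) (permOp (cj z) b - b) := by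
      ext g
      by_cases hg : g ∈ (F : Set G)
      · rw [cut_apply_mem _ hg]
        have h5 : (permOp (cj z) b) g = 0 := by
          rw [permOp_apply, cj_apply, hb, cut_apply_not_mem]
          intro h6
          have hgD : g ∉ D := hF hg
          exact (hzS g hg (z * g * z⁻¹) h6 hgD).1 rfl
        rw [lp.coeFn_sub, Pi.sub_apply, h5, lp.coeFn_neg, Pi.neg_apply, zero_sub]
      · rw [cut_apply_not_mem _ hg, lp.coeFn_neg, Pi.neg_apply, hb, cut_apply_not_mem _ hg,
          neg_zero]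
    calc ‖b‖ = ‖-b‖ := (norm_neg b).symm
      _ = ‖cut (F : Set G) (permOp (cj z) b - b)‖ := by rw [h4]
      _ ≤ _ := norm_cut_le_norm _ _
  have h4 : ‖permOp (cj z) b - b‖ ≤ ‖permOp (cj z) a - a‖ + ‖a - b‖ + ‖a - b‖ := by
    have h5 : permOp (cj z) b - b = (permOp (cj z) a - a) - permOp (cj z) (a - b) + (a - b) := by
      rw [map_sub]; abel
    rw [h5]
    refine (norm_add_le _ _).trans ?_
    refine add_le_add ?_ le_rfl
    refine (norm_sub_le _ _).trans ?_
    rw [norm_permOp]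
  have h6 : ‖a‖ ≤ ‖b‖ + ‖a - b‖ := by
    have : a = b + (a - b) := by abel
    calc ‖a‖ = ‖b + (a - b)‖ := by rw [← this]
      _ ≤ _ := norm_add_le _ _
  linarith


end Pool.Agent.Helper159.GM
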