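import Mathlib
import Pool.Agent.Helper159.GM.JMixOne
import Pool.Agent.Helper159.GM.JMixTwo

set_option autoImplicit false
set_option linter.unusedSectionVars false

open scoped InnerProductSpace ComplexOrder Topology
open Filter

namespace Pool.Agent.Helper159.GM

open Pool.Agent.Helper278 Pool.Agent.Helper278.CE

variable {A : Type} [Ring A] [StarRing A] [Algebra ℂ A] [StarModule ℂ A] {τ : A →ₗ[ℂ] ℂ}
  {G : Type} [Group G] {u : G →* A} {op : A →⋆ₐ[ℂ] (EllTwo G →L[ℂ] EllTwo G)}





/-! TARGET (prove; you may add auxiliary lemmas before it) -/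

theorem neg_of_compl {G : Type} (S : Set G) (f : EllTwo G) : f - cut S f = cut Sᶜ f := by
  ext g
  show f g - cut S f g = cut Sᶜ f g
  by_cases hg : g ∈ S
  · rw [cut_apply_mem f hg, cut_apply_not_mem f (by simpa using hg), sub_self]
  · rw [cut_apply_not_mem f hg, cut_apply_mem f (by simpa using hg), sub_zero]

theorem neg_of_perm {G : Type} [Group G] (S : Set G) (f : EllTwo G) (z : G)
    (hz : ∀ g ∈ S, z * g = g * z) :
    ‖permOp (cj z) f - f‖ ≤ 2 * ‖f - cut S f‖ := by
  have h1 : permOp (cj z) (cut S f) = cut S f := by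
    ext g
    rw [permOp_apply, cj_apply]
    by_cases hg : g ∈ S
    · have : z * g * z⁻¹ = g := by rw [hz g hg]; group
      rw [this]
    · have h2 : z * g * z⁻¹ ∉ S := by
        intro h3
        have h4 := hz _ h3
        have h5 : g = z * g * z⁻¹ := by
          have h6 : z * (z * g * z⁻¹) = z * g := by rw [h4]; group
          exact (mul_left_cancel h6).symm
        exact hg (h5 ▸ h3)
      rw [cut_apply_not_mem f hg, cut_apply_not_mem f h2]
  have h2 : permOp (cj z) f - f = permOp (cj z) (f - cut S f) - (f - cut S f) := by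
    rw [map_sub, h1]
    abel
  rw [h2]
  calc _ ≤ ‖permOp (cj z) (f - cut S f)‖ + ‖f - cut S f‖ := norm_sub_le _ _
    _ = _ := by rw [norm_permOp]; ring

theorem neg_of_bc (h : GVN τ u op) (a t : G) (hat : a * t ≠ t * a) :
    12 / 10 ≤ n2 τ (u a * u t - u t * u a) := by
  have h1 : n2 τ (u a * u t - u t * u a) = ‖sb G (a * t) - sb G (t * a)‖ := by
    rw [h.n2_eq, ← map_mul, ← map_mul, map_sub]
    show ‖op (u (a * t)) (sb G 1) - op (u (t * a)) (sb G 1)‖ = _
    rw [h.hat_u, h.hat_u]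
  rw [h1]
  set f : EllTwo G := sb G (a * t) - sb G (t * a) with hf
  have h2 : f (a * t) = 1 := by
    show sb G (a * t) (a * t) - sb G (t * a) (a * t) = 1
    rw [sb_self, sb_ne _ _ hat.symm, sub_zero]
  have h3 : f (t * a) = -1 := by
    show sb G (a * t) (t * a) - sb G (t * a) (t * a) = -1
    rw [sb_self, sb_ne _ _ hat, zero_sub]
  classical
  have h4 := sum_le_hasSum ({a * t, t * a} : Finset G) (fun i _ => by positivity) (norm_sq_eq f)
  rw [Finset.sum_pair hat, h2, h3] at h4
  have h5 : ((12:ℝ) / 10) ^ 2 ≤ ‖f‖ ^ 2 := by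
    refine le_trans ?_ h4
    norm_num
  exact (sq_le_sq₀ (by norm_num) (norm_nonneg _)).1 h5

theorem neg_of (h : GVN τ u op) {Z D : ℕ → Subgroup G} {a t : ℕ → G} (hc : Chain G Z D a t) :
    Neg2 τ (1 / 1000) := by
  classical
  intro f₁ hf₁ f₂ hf₂ δ hδ
  obtain ⟨F₁, -, hF₁⟩ := exists_finset_cut Set.univ (op f₁ (sb G 1)) (δ / 4) (by positivity)
  obtain ⟨F₂, -, hF₂⟩ := exists_finset_cut Set.univ (op f₂ (sb G 1)) (δ / 4) (by positivity)
  rw [cut_univ] at hF₁ hF₂
  obtain ⟨n, hn⟩ := hc.fin (F₁ ∪ F₂)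
  have hdd : ∀ z ∈ Z n, dd τ f₁ f₂ (u z) ≤ δ := by
    intro z hz
    unfold dd
    have e1 : n2 τ (f₁ * u z - u z * f₁) ≤ 2 * (δ / 4) := by
      rw [h.tr.n2_sub_comm, h.n2_comm_u]
      refine (neg_of_perm (F₁ : Set G) _ z ?_).trans ?_
      · intro g hg
        exact hc.cent n z hz g (hn g (Finset.mem_union_left _ hg))
      · linarith
    have e2 : n2 τ (f₂ * u z - u z * f₂) ≤ 2 * (δ / 4) := by
      rw [h.tr.n2_sub_comm, h.n2_comm_u]
      refine (neg_of_perm (F₂ : Set G) _ z ?_).trans ?_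
      · intro g hg
        exact hc.cent n z hz g (hn g (Finset.mem_union_right _ hg))
      · linarith
    linarith
  refine ⟨u (a n), h.u_unitary _, u (t n), h.u_unitary _, hdd _ (hc.a_mem n), ?_⟩
  intro w hw
  by_contra hcon
  push Not at hcon
  obtain ⟨hc1, hc2⟩ := hcon
  obtain ⟨z, hz, hz1⟩ := mix_one h (Z n) (D n) (hc.sub n) (hc.mix n) w hw (1/1000) (by norm_num)
  set y : A := w * u z * star w with hy
  have hws : star w ∈ unitary A := Unitary.star_mem hw
  have hyU : y ∈ unitary A := mul_mem (mul_mem hw (h.u_unitary z)) hws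
  obtain ⟨z', hz', hz2⟩ := mix_two h (Z n) (D n) (hc.sub n) (hc.mix n) y (1/1000) (by norm_num)
  have k1 := hc2 (u z) (h.u_unitary z) (u z') (h.u_unitary z') (hdd z hz) (hdd z' hz')
  rw [← hy, h.tr.n2_sub_comm] at k1
  have k2 : ∀ v : A, v ∈ unitary A → ‖cut (D n : Set G) (op v (sb G 1))‖ ^ 2 +
      ‖cut ((D n : Set G)ᶜ) (op v (sb G 1))‖ ^ 2 = 1 := by
    intro v hv
    rw [norm_cut_disj _ _ disjoint_compl_right, Set.union_compl_self, cut_univ, ← h.n2_eq,
      h.n2_unitary v hv, one_pow]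
  have ky := k2 y hyU
  have kw := k2 w hw
  have p1 := norm_nonneg (cut (D n : Set G) (op y (sb G 1)))
  have p2 := norm_nonneg (cut ((D n : Set G)ᶜ) (op y (sb G 1)))
  have p3 := norm_nonneg (cut (D n : Set G) (op w (sb G 1)))
  have p4 := norm_nonneg (cut ((D n : Set G)ᶜ) (op w (sb G 1)))
  set α := ‖cut (D n : Set G) (op y (sb G 1))‖
  set β := ‖cut ((D n : Set G)ᶜ) (op y (sb G 1))‖
  set γ := ‖cut (D n : Set G) (op w (sb G 1))‖
  set ε := ‖cut ((D n : Set G)ᶜ) (op w (sb G 1))‖
  have hβ : β ≤ 2/1000 := by linarith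
  have hα : 9999/10000 ≤ α := by
    by_contra hh
    push Not at hh
    nlinarith
  have hγ : 9989/10000 ≤ γ := by linarith
  have hε : ε ≤ 5/100 := by
    by_contra hh
    push Not at hh
    nlinarith
  have l1 : n2 τ (u (a n) * w - w * u (a n)) ≤ 1/10 := by
    rw [h.n2_comm_u]
    refine (neg_of_perm (D n : Set G) _ (a n) ?_).trans ?_
    · intro g hg
      exact hc.cent n _ (hc.a_mem n) g hg
    · rw [neg_of_compl]
      show 2 * ε ≤ _
      linarith
  set b : A := u (a n) with hb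
  set c : A := u (t n) with hcc
  have hcU : c ∈ unitary A := h.u_unitary _
  have l2 : n2 τ (w * b * star w - b) ≤ 1/10 := by
    have e1 : w * b * star w - b = (w * b - b * w) * star w := by
      rw [sub_mul, mul_assoc b w, (Unitary.mem_iff.1 hw).2, mul_one]
    rw [e1, h.n2_mul_unitary _ _ hws, h.tr.n2_sub_comm]
    exact l1
  have l3 := neg_of_bc h (a n) (t n) (hc.a_t n)
  rw [← hb, ← hcc] at l3
  have l4 : b * c - c * b = (w * b * star w * c - c * (w * b * star w)) -
      ((w * b * star w - b) * c - c * (w * b * star w - b)) := by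
    noncomm_ring
  have l5 : n2 τ (b * c - c * b) ≤ n2 τ (w * b * star w * c - c * (w * b * star w)) +
      n2 τ ((w * b * star w - b) * c - c * (w * b * star w - b)) := by
    rw [l4]
    exact h.tr.n2_sub_le _ _
  have l6 : n2 τ ((w * b * star w - b) * c - c * (w * b * star w - b)) ≤
      n2 τ ((w * b * star w - b) * c) + n2 τ (c * (w * b * star w - b)) := h.tr.n2_sub_le _ _
  rw [h.n2_mul_unitary _ _ hcU, h.n2_unitary_mul _ _ hcU] at l6
  linarith


end Pool.Agent.Helper159.GM
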