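import Mathlib
import Pool.Agent.Helper159.GM.Core

set_option autoImplicit false
set_option linter.unusedSectionVars false

open scoped InnerProductSpace ComplexOrder Topology
open Filter

namespace Pool.Agent.Helper159.GM

open Pool.Agent.Helper278 Pool.Agent.Helper278.CE



/-! TARGET (prove; you may add auxiliary lemmas before it) -/

variable {A : Type} [Ring A] [StarRing A] [Algebra ℂ A] [StarModule ℂ A] {τ : A →ₗ[ℂ] ℂ}
  {G : Type} [Group G] {u : G →* A} {op : A →⋆ₐ[ℂ] (EllTwo G →L[ℂ] EllTwo G)}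


theorem cmc_split {G : Type} (S : Set G) (f : EllTwo G) : f = cut S f + cut Sᶜ f := by
  ext g
  rw [lp.coeFn_add, Pi.add_apply]
  by_cases hg : g ∈ S
  · have h2 : g ∉ Sᶜ := fun h => h hg
    rw [cut_apply_mem f hg, cut_apply_not_mem f h2, add_zero]
  · have h2 : g ∈ Sᶜ := hg
    rw [cut_apply_not_mem f hg, cut_apply_mem f h2, zero_add]

theorem cmc_eq (h : GVN τ u op) {C : Subgroup G} (hC : ∀ a ∈ C, ∀ b ∈ C, a * b = b * a)
    (x y : A) :
    cut (C : Set G) (op x (cut (C : Set G) (op y (sb G 1)))) =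
      cut (C : Set G) (op y (cut (C : Set G) (op x (sb G 1)))) := by
  ext g
  by_cases hg : g ∈ (C : Set G)
  · rw [cut_apply_mem _ hg, cut_apply_mem _ hg]
    have hgC : g ∈ C := hg
    have h1 := h.hasSum_op x (cut (C : Set G) (op y (sb G 1))) g
    have h2 := h.hasSum_op y (cut (C : Set G) (op x (sb G 1))) g
    let e : G ≃ G := (Equiv.inv G).trans (Equiv.mulRight g)
    have he : ∀ k, e k = k⁻¹ * g := fun k => rfl
    have h3 := (e.hasSum_iff).2 h2
    refine h1.unique ?_
    convert h3 using 1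
    funext k
    show _ = cut (C : Set G) (op x (sb G 1)) (e k) * op y (sb G 1) (g * (e k)⁻¹)
    rw [he]
    by_cases hk : k ∈ C
    · have hk1 : k ∈ (C : Set G) := hk
      have hkg : k⁻¹ * g ∈ (C : Set G) := C.mul_mem (C.inv_mem hk) hgC
      have e1 : g * (k⁻¹ * g)⁻¹ = k := by
        rw [mul_inv_rev, inv_inv, mul_inv_cancel_left]
      have e2 : k⁻¹ * g = g * k⁻¹ := hC _ (C.inv_mem hk) _ hgC
      rw [cut_apply_mem _ hk1, cut_apply_mem _ hkg, e1, e2, mul_comm]
    · have hk1 : k ∉ (C : Set G) := hk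
      have hkg : k⁻¹ * g ∉ (C : Set G) := by
        intro hh
        apply hk
        have h5 : g * (k⁻¹ * g)⁻¹ = k := by
          rw [mul_inv_rev, inv_inv, mul_inv_cancel_left]
        rw [← h5]
        exact C.mul_mem hgC (C.inv_mem hh)
      rw [cut_apply_not_mem _ hk1, cut_apply_not_mem _ hkg, zero_mul, zero_mul]
  · rw [cut_apply_not_mem _ hg, cut_apply_not_mem _ hg]


theorem cut_mul_comm (h : GVN τ u op) {C : Subgroup G} (hC : ∀ a ∈ C, ∀ b ∈ C, a * b = b * a)
    (x y : A) (hx : x ∈ unitary A) (hy : y ∈ unitary A) :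
    ‖cut (C : Set G) (op (x * y) (sb G 1) - op (y * x) (sb G 1))‖ ≤
      ‖cut ((C : Set G)ᶜ) (op x (sb G 1))‖ + ‖cut ((C : Set G)ᶜ) (op y (sb G 1))‖ := by
  rw [h.hat_mul x y, h.hat_mul y x]
  have e1 : op x (op y (sb G 1)) - op y (op x (sb G 1)) =
      (op x (cut (C : Set G) (op y (sb G 1))) - op y (cut (C : Set G) (op x (sb G 1)))) -
      (op y (cut ((C : Set G)ᶜ) (op x (sb G 1))) - op x (cut ((C : Set G)ᶜ) (op y (sb G 1)))) := by
    conv_lhs => rw [cmc_split (C : Set G) (op y (sb G 1)), cmc_split (C : Set G) (op x (sb G 1)),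
      map_add, map_add]
    abel
  rw [e1, cut_sub, cut_sub, cut_sub, cmc_eq h hC x y, sub_self, zero_sub, norm_neg]
  refine (norm_sub_le _ _).trans ?_
  apply add_le_add
  · refine (norm_cut_le_norm _ _).trans ?_
    rw [h.norm_op_unitary y hy]
  · refine (norm_cut_le_norm _ _).trans ?_
    rw [h.norm_op_unitary x hx]


end Pool.Agent.Helper159.GM
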