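import Mathlib
import Pool.Agent.Helper159.GM.Core

set_option autoImplicit false
set_option linter.unusedSectionVars false

open scoped InnerProductSpace ComplexOrder Topology
open Filter

namespace Pool.Agent.Helper159.GM

open Pool.Agent.Helper278 Pool.Agent.Helper278.CE



/-! TARGET (prove; you may add auxiliary lemmas before it) -/

variable {A : Type} [Ring A] [StarRing A] [Algebra ℂ A] [StarModule ℂ A] {τ : A →ₗ[ℂ] ℂ}
  {G : Type} [Group G] {u : G →* A} {op : A →⋆ₐ[ℂ] (EllTwo G →L[ℂ] EllTwo G)}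

theorem off_le_aux {G : Type} [Group G] (C : Subgroup G) (r : G) (hr : ∀ a ∈ C, r * a = a * r)
    (f0 : EllTwo G) :
    permOp (cj r) (cut ((C : Set G)ᶜ) f0) - cut ((C : Set G)ᶜ) f0 =
      cut ((C : Set G)ᶜ) (permOp (cj r) f0 - f0) := by
  have hmem : ∀ g, cj r g ∈ C ↔ g ∈ C := by
    intro g
    rw [cj_apply]
    constructor
    · intro hc
      have h1 := hr _ hc
      have h2 : g = r * g * r⁻¹ := by
        have h3 : r * (r * g * r⁻¹) = r * g := by
          rw [h1]
          group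
        exact (mul_left_cancel h3).symm
      rw [h2]
      exact hc
    · intro hc
      rw [hr g hc, mul_inv_cancel_right]
      exact hc
  ext g
  by_cases hgC : g ∈ C
  · have h1 : g ∉ ((C : Set G)ᶜ) := fun h => h hgC
    have h2 : cj r g ∉ ((C : Set G)ᶜ) := fun h => h ((hmem g).2 hgC)
    rw [cut_apply_not_mem _ h1]
    show (cut ((C : Set G)ᶜ) f0) (cj r g) - (cut ((C : Set G)ᶜ) f0) g = 0
    rw [cut_apply_not_mem _ h1, cut_apply_not_mem _ h2, sub_zero]
  · have h1 : g ∈ ((C : Set G)ᶜ) := hgC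
    have h2 : cj r g ∈ ((C : Set G)ᶜ) := fun h => hgC ((hmem g).1 h)
    rw [cut_apply_mem _ h1]
    show (cut ((C : Set G)ᶜ) f0) (cj r g) - (cut ((C : Set G)ᶜ) f0) g = f0 (cj r g) - f0 g
    rw [cut_apply_mem _ h1, cut_apply_mem _ h2]

theorem off_le (h : GVN τ u op) {C : Subgroup G} {p q : G} (hg : GapData G C p q) (x : A) :
    ‖cut ((C : Set G)ᶜ) (op x (sb G 1))‖ ≤ 20 * dd τ (u p) (u q) x := by
  have hp0 := n2_nonneg τ (u p * x - x * u p)
  have hq0 := n2_nonneg τ (u q * x - x * u q)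
  have hp1 : ‖permOp (cj p) (cut ((C : Set G)ᶜ) (op x (sb G 1))) -
      cut ((C : Set G)ᶜ) (op x (sb G 1))‖ ≤ n2 τ (u p * x - x * u p) := by
    rw [off_le_aux C p hg.p_comm, h.n2_comm_u]
    exact norm_cut_le_norm _ _
  have hq1 : ‖permOp (cj q) (cut ((C : Set G)ᶜ) (op x (sb G 1))) -
      cut ((C : Set G)ᶜ) (op x (sb G 1))‖ ≤ n2 τ (u q * x - x * u q) := by
    rw [off_le_aux C q hg.q_comm, h.n2_comm_u]
    exact norm_cut_le_norm _ _
  refine hg.gap _ ?_ _ ?_ ?_
  · intro g hgC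
    exact cut_apply_not_mem _ (fun h => h hgC)
  · unfold dd
    linarith
  · unfold dd
    linarith


end Pool.Agent.Helper159.GM
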