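import Mathlib
import Pool.Agent.Helper159.GM.JOff
import Pool.Agent.Helper159.GM.JCutComm

set_option autoImplicit false
set_option linter.unusedSectionVars false

open scoped InnerProductSpace ComplexOrder Topology
open Filter

namespace Pool.Agent.Helper159.GM

open Pool.Agent.Helper278 Pool.Agent.Helper278.CE

variable {A : Type} [Ring A] [StarRing A] [Algebra ℂ A] [StarModule ℂ A] {τ : A →ₗ[ℂ] ℂ}
  {G : Type} [Group G] {u : G →* A} {op : A →⋆ₐ[ℂ] (EllTwo G →L[ℂ] EllTwo G)}





/-! TARGET (prove; you may add auxiliary lemmas before it) -/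

theorem comm_le (h : GVN τ u op) {C : Subgroup G} {p q : G} (hg : GapData G C p q)
    (x y : A) (hx : x ∈ unitary A) (hy : y ∈ unitary A) :
    n2 τ (x * y - y * x) ≤ 80 * (dd τ (u p) (u q) x + dd τ (u p) (u q) y) := by
  have hdd : ∀ a x y : A, x ∈ unitary A → y ∈ unitary A →
      n2 τ (a * (x * y) - (x * y) * a) ≤ n2 τ (a * x - x * a) + n2 τ (a * y - y * a) := by
    intro a x y hx hy
    have h1 : a * (x * y) - (x * y) * a = (a * x - x * a) * y + x * (a * y - y * a) := by
      noncomm_ring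
    rw [h1]
    refine (h.tr.n2_add_le _ _).trans ?_
    rw [h.n2_mul_unitary _ _ hy, h.n2_unitary_mul _ _ hx]
  have hdd2 : ∀ x y : A, x ∈ unitary A → y ∈ unitary A →
      dd τ (u p) (u q) (x * y) ≤ dd τ (u p) (u q) x + dd τ (u p) (u q) y := by
    intro x y hx hy
    unfold dd
    have h1 := hdd (u p) x y hx hy
    have h2 := hdd (u q) x y hx hy
    linarith
  have hd0 : ∀ x : A, 0 ≤ dd τ (u p) (u q) x := fun x =>
    add_nonneg (n2_nonneg _ _) (n2_nonneg _ _)
  have hC := hg.comm
  have e1 := off_le h hg x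
  have e2 := off_le h hg y
  have e3 := off_le h hg (x * y)
  have e4 := off_le h hg (y * x)
  have e5 := cut_mul_comm h hC x y hx hy
  have e6 := hdd2 x y hx hy
  have e7 := hdd2 y x hy hx
  have hn : n2 τ (x * y - y * x) = ‖op (x * y) (sb G 1) - op (y * x) (sb G 1)‖ := by
    rw [h.n2_eq, map_sub]
    rfl
  rw [hn]
  set v := op (x * y) (sb G 1) - op (y * x) (sb G 1) with hv
  have hsplit : v = cut (C : Set G) v + cut ((C : Set G)ᶜ) v := by
    ext g
    show v g = cut (C : Set G) v g + cut ((C : Set G)ᶜ) v g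
    by_cases hgC : g ∈ (C : Set G)
    · rw [cut_apply_mem v hgC, cut_apply_not_mem v (by simpa using hgC), add_zero]
    · rw [cut_apply_not_mem v hgC, cut_apply_mem v (by simpa using hgC), zero_add]
  have e8 : ‖v‖ ≤ ‖cut (C : Set G) v‖ + ‖cut ((C : Set G)ᶜ) v‖ := by
    conv_lhs => rw [hsplit]
    exact norm_add_le _ _
  have e9 : ‖cut ((C : Set G)ᶜ) v‖ ≤ ‖cut ((C : Set G)ᶜ) (op (x * y) (sb G 1))‖ +
      ‖cut ((C : Set G)ᶜ) (op (y * x) (sb G 1))‖ := by
    rw [hv, cut_sub]
    exact norm_sub_le _ _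
  have := hd0 x
  have := hd0 y
  linarith


end Pool.Agent.Helper159.GM
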