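import Mathlib
import Pool.Agent.Helper159.GM.Core

set_option autoImplicit false
set_option linter.unusedSectionVars false

open scoped InnerProductSpace ComplexOrder Topology
open Filter

namespace Pool.Agent.Helper159.GM

open Pool.Agent.Helper278 Pool.Agent.Helper278.CE



/-! TARGET (prove; you may add auxiliary lemmas before it) -/

variable {A : Type} [Ring A] [StarRing A] [Algebra ℂ A] [StarModule ℂ A] {τ : A →ₗ[ℂ] ℂ}
  {G : Type} [Group G] {u : G →* A} {op : A →⋆ₐ[ℂ] (EllTwo G →L[ℂ] EllTwo G)}

theorem hat_fsum (h : GVN τ u op) (f : EllTwo G) (F : Finset G) :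
    op (∑ g ∈ F, f g • u g) (sb G 1) = cut (F : Set G) f := by
  classical
  have h1 : op (∑ g ∈ F, f g • u g) (sb G 1) = ∑ g ∈ F, f g • sb G g := by
    induction F using Finset.induction_on with
    | empty => simp
    | insert a F ha ih =>
      rw [Finset.sum_insert ha, Finset.sum_insert ha, map_add, ContinuousLinearMap.add_apply, ih,
        map_smul, ContinuousLinearMap.smul_apply, h.hat_u]
  have h2 : ∀ k : G, (∑ g ∈ F, f g • sb G g : EllTwo G) k = if k ∈ F then f k else 0 := by
    intro k
    clear h1
    induction F using Finset.induction_on with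
    | empty => simp
    | insert a F ha ih =>
      rw [Finset.sum_insert ha, lp.coeFn_add, Pi.add_apply, ih, lp.coeFn_smul, Pi.smul_apply,
        smul_eq_mul]
      by_cases hk : k = a
      · subst hk
        rw [sb_self, if_neg ha, if_pos (Finset.mem_insert_self _ _)]
        ring
      · have hz : sb G a k = 0 := by
          first
            | exact sb_ne a k (fun e => hk e.symm)
            | exact sb_ne a k hk
            | exact sb_ne k a hk
            | exact sb_ne k a (fun e => hk e.symm)
        rw [hz, mul_zero, zero_add]
        simp [Finset.mem_insert, hk]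
  rw [h1]
  ext k
  rw [h2 k]
  split_ifs with hk
  · rw [cut_apply_mem f (by exact_mod_cast hk)]
  · rw [cut_apply_not_mem f (by exact_mod_cast hk)]


end Pool.Agent.Helper159.GM
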