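import Mathlib
import Pool.Agent.Helper159.GM.JFinset
import Pool.Agent.Helper159.GM.JFsum
import Pool.Agent.Helper159.GM.JOff
import Pool.Agent.Helper159.GM.JComm

set_option autoImplicit false
set_option linter.unusedSectionVars false

open scoped InnerProductSpace ComplexOrder Topology
open Filter

namespace Pool.Agent.Helper159.GM

open Pool.Agent.Helper278 Pool.Agent.Helper278.CE

variable {A : Type} [Ring A] [StarRing A] [Algebra ℂ A] [StarModule ℂ A] {τ : A →ₗ[ℂ] ℂ}
  {G : Type} [Group G] {u : G →* A} {op : A →⋆ₐ[ℂ] (EllTwo G →L[ℂ] EllTwo G)}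





/-! TARGET (prove; you may add auxiliary lemmas before it) -/

theorem pos_n2_fsum (h : GVN τ u op) {ι : Type} (T : Finset ι) (f : ι → A) :
    n2 τ (∑ k ∈ T, f k) ≤ ∑ k ∈ T, n2 τ (f k) := by
  rw [h.n2_eq, map_sum]
  simp only [h.n2_eq]
  rw [ContinuousLinearMap.sum_apply]
  exact norm_sum_le _ _

theorem pos_n2_smul (h : GVN τ u op) (c : ℂ) (x : A) : n2 τ (c • x) = ‖c‖ * n2 τ x := by
  rw [h.n2_eq, h.n2_eq, map_smul, ContinuousLinearMap.smul_apply, norm_smul]

theorem pos_off_conj (h : GVN τ u op) {C : Subgroup G} (s : G)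
    (hs : ∀ a, a ∈ C ↔ s * a * s⁻¹ ∈ C) (x : A) :
    ‖cut ((C : Set G)ᶜ) (op (u s * x * star (u s)) (sb G 1))‖ =
      ‖cut ((C : Set G)ᶜ) (op x (sb G 1))‖ := by
  rw [h.star_u]
  have h1 := h.hat_conj x s⁻¹
  rw [inv_inv] at h1
  rw [h1, cut_permOp, norm_permOp]
  have h2 : (cj s⁻¹) '' ((C : Set G)ᶜ) = (C : Set G)ᶜ := by
    ext g
    constructor
    · rintro ⟨a, ha, rfl⟩
      intro hmem
      apply ha
      have h3 := (hs (cj s⁻¹ a)).1 hmem
      have h4 : s * cj s⁻¹ a * s⁻¹ = a := by rw [cj_apply]; group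
      rw [h4] at h3
      exact h3
    · intro hg
      refine ⟨s * g * s⁻¹, ?_, ?_⟩
      · intro hmem
        exact hg ((hs g).2 hmem)
      · rw [cj_apply]; group
  rw [h2]

theorem pos_comm_r (h : GVN τ u op) {C : Subgroup G} (r : G) (hr : ∀ a ∈ C, r * a = a * r) (X : A) :
    n2 τ (u r * X - X * u r) ≤ 2 * ‖cut ((C : Set G)ᶜ) (op X (sb G 1))‖ := by
  rw [h.n2_comm_u]
  have h1 : permOp (cj r) (op X (sb G 1)) - op X (sb G 1) =
      permOp (cj r) (cut ((C : Set G)ᶜ) (op X (sb G 1))) - cut ((C : Set G)ᶜ) (op X (sb G 1)) := by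
    ext g
    rw [lp.coeFn_sub, lp.coeFn_sub, Pi.sub_apply, Pi.sub_apply, permOp_apply, permOp_apply]
    by_cases hg : g ∈ C
    · have h2 : cj r g = g := by rw [cj_apply, hr g hg]; group
      rw [h2]
      simp
    · have h2 : cj r g ∉ C := by
        intro hmem
        apply hg
        have h3 := hr _ hmem
        have h4 : g = r⁻¹ * (cj r g * r) := by rw [cj_apply]; group
        rw [← h3] at h4
        have h5 : g = cj r g := by
          rw [inv_mul_cancel_left] at h4
          exact h4
        rw [h5]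
        exact hmem
      rw [cut_apply_mem _ (show cj r g ∈ (C : Set G)ᶜ from h2),
        cut_apply_mem _ (show g ∈ (C : Set G)ᶜ from hg)]
  rw [h1]
  refine (norm_sub_le _ _).trans ?_
  rw [norm_permOp]
  linarith

theorem pos_cut_split (S : Set G) (f : EllTwo G) : cut S f + cut Sᶜ f = f := by
  ext g
  rw [lp.coeFn_add, Pi.add_apply]
  by_cases hg : g ∈ S
  · rw [cut_apply_mem _ hg, cut_apply_not_mem _ (show g ∉ Sᶜ from fun h => h hg), add_zero]
  · rw [cut_apply_not_mem _ hg, cut_apply_mem _ (show g ∈ Sᶜ from hg), zero_add]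

theorem pos_of (h : GVN τ u op) {C : Subgroup G} {p q : G} (hg : GapData G C p q)
    (hm : ∀ S T : Finset G, (∀ a ∈ S, a ∈ C) → ∃ s : G, (∀ a, a ∈ C ↔ s * a * s⁻¹ ∈ C) ∧
      ∀ a ∈ S, ∀ g ∈ T, (s * a * s⁻¹) * g = g * (s * a * s⁻¹)) : Pos2 τ 6400 := by
  have htr := h.tr
  refine ⟨u p, h.u_unitary p, u q, h.u_unitary q, ?_⟩
  intro b hb c hc η hη
  set bh : EllTwo G := op b (sb G 1) with hbh
  set ch : EllTwo G := op c (sb G 1) with hch
  obtain ⟨F, hFC, hF⟩ := exists_finset_cut (C : Set G) bh (η / 8) (by positivity)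
  set K : ℝ := 1 + ∑ g ∈ F, ‖bh g‖ with hK
  have hS0 : 0 ≤ ∑ g ∈ F, ‖bh g‖ := Finset.sum_nonneg fun g _ => norm_nonneg _
  have hK1 : 1 ≤ K := by rw [hK]; linarith
  have hKpos : 0 < K := by linarith
  obtain ⟨T, -, hT⟩ := exists_finset_cut (Set.univ : Set G) ch (η / (8 * K)) (by positivity)
  rw [cut_univ] at hT
  obtain ⟨s, hsC, hsT⟩ := hm F T (fun a ha => hFC ha)
  have hwu : u s ∈ unitary A := h.u_unitary s
  have hws : star (u s) ∈ unitary A := Unitary.star_mem hwu
  have hdd : ∀ x, 0 ≤ dd τ (u p) (u q) x := fun x => add_nonneg (n2_nonneg _ _) (n2_nonneg _ _)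
  refine ⟨u s, hwu, ?_, ?_⟩
  · set b0 : A := ∑ g ∈ F, bh g • u g with hb0
    set c0 : A := ∑ g ∈ T, ch g • u g with hc0
    have hb0h : op b0 (sb G 1) = cut (F : Set G) bh := hat_fsum h bh F
    have hc0h : op c0 (sb G 1) = cut (T : Set G) ch := hat_fsum h ch T
    -- the element `w b0 w*`
    have hX0 : u s * b0 * star (u s) = ∑ g ∈ F, bh g • u (s * g * s⁻¹) := by
      rw [hb0, h.star_u, Finset.mul_sum, Finset.sum_mul]
      refine Finset.sum_congr rfl fun g _ => ?_
      rw [mul_smul_comm, smul_mul_assoc, map_mul, map_mul]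
    have hX0c0 : (u s * b0 * star (u s)) * c0 = c0 * (u s * b0 * star (u s)) := by
      rw [hX0, hc0, Finset.sum_mul_sum, Finset.sum_mul_sum, Finset.sum_comm]
      refine Finset.sum_congr rfl fun k hk => Finset.sum_congr rfl fun g hg' => ?_
      rw [smul_mul_smul_comm, smul_mul_smul_comm, ← map_mul, ← map_mul, hsT g hg' k hk, mul_comm (bh g)]
    have hbb : n2 τ (b - b0) ≤ 20 * dd τ (u p) (u q) b + η / 8 := by
      rw [h.n2_eq, map_sub, ContinuousLinearMap.sub_apply, hb0h, ← hbh]
      have e1 : bh - cut (F : Set G) bh =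
          cut ((C : Set G)ᶜ) bh + (cut (C : Set G) bh - cut (F : Set G) bh) := by
        have e2 := pos_cut_split (C : Set G) bh
        calc bh - cut (F : Set G) bh = (cut (C : Set G) bh + cut ((C : Set G)ᶜ) bh) -
              cut (F : Set G) bh := by rw [e2]
          _ = _ := by abel
      rw [e1]
      refine (norm_add_le _ _).trans ?_
      have e3 := off_le h hg b
      rw [← hbh] at e3
      linarith
    have hcc : n2 τ (c - c0) ≤ η / (8 * K) := by
      rw [h.n2_eq, map_sub, ContinuousLinearMap.sub_apply, hc0h, ← hch]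
      exact hT.le
    have hXX : n2 τ (u s * b * star (u s) - u s * b0 * star (u s)) = n2 τ (b - b0) := by
      have e1 : u s * b * star (u s) - u s * b0 * star (u s) = u s * (b - b0) * star (u s) := by
        noncomm_ring
      rw [e1, h.n2_mul_unitary _ _ hws, h.n2_unitary_mul _ _ hwu]
    -- the middle term
    have hmid : ∀ y : A, n2 τ ((u s * b0 * star (u s)) * y - y * (u s * b0 * star (u s))) ≤
        (∑ g ∈ F, ‖bh g‖) * (2 * n2 τ y) := by
      intro y
      have e1 : (u s * b0 * star (u s)) * y - y * (u s * b0 * star (u s)) =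
          ∑ g ∈ F, bh g • (u (s * g * s⁻¹) * y - y * u (s * g * s⁻¹)) := by
        rw [hX0, Finset.sum_mul, Finset.mul_sum, ← Finset.sum_sub_distrib]
        refine Finset.sum_congr rfl fun g _ => ?_
        rw [smul_mul_assoc, mul_smul_comm, smul_sub]
      rw [e1]
      refine (pos_n2_fsum h _ _).trans ?_
      rw [Finset.sum_mul]
      refine Finset.sum_le_sum fun g _ => ?_
      rw [pos_n2_smul h]
      refine mul_le_mul_of_nonneg_left ?_ (norm_nonneg _)
      refine (htr.n2_sub_le _ _).trans ?_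
      rw [h.n2_unitary_mul _ _ (h.u_unitary _), h.n2_mul_unitary _ _ (h.u_unitary _)]
      linarith
    have hdec : (u s * b * star (u s)) * c - c * (u s * b * star (u s)) =
        (((u s * b * star (u s) - u s * b0 * star (u s)) * c -
          c * (u s * b * star (u s) - u s * b0 * star (u s))) +
        ((u s * b0 * star (u s)) * (c - c0) - (c - c0) * (u s * b0 * star (u s)))) +
        ((u s * b0 * star (u s)) * c0 - c0 * (u s * b0 * star (u s))) := by
      noncomm_ring
    rw [hdec, hX0c0, sub_self, add_zero]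
    refine (htr.n2_add_le _ _).trans ?_
    have t1 := htr.n2_sub_le ((u s * b * star (u s) - u s * b0 * star (u s)) * c)
      (c * (u s * b * star (u s) - u s * b0 * star (u s)))
    rw [h.n2_mul_unitary _ _ hc, h.n2_unitary_mul _ _ hc, hXX] at t1
    have t2 := hmid (c - c0)
    have t3 : (∑ g ∈ F, ‖bh g‖) * (2 * n2 τ (c - c0)) ≤ η / 4 := by
      have e1 : (∑ g ∈ F, ‖bh g‖) * (2 * n2 τ (c - c0)) ≤ K * (2 * (η / (8 * K))) := by
        apply mul_le_mul
        · rw [hK]; linarith
        · linarith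
        · have := n2_nonneg τ (c - c0)
          linarith
        · exact hKpos.le
      have e2 : K * (2 * (η / (8 * K))) = η / 4 := by
        field_simp
        ring
      linarith
    have := hdd b
    linarith
  · intro x hx y hy
    have hXu : u s * x * star (u s) ∈ unitary A := mul_mem (mul_mem hwu hx) hws
    have t1 := comm_le h hg (u s * x * star (u s)) y hXu hy
    have t2 := pos_off_conj h s hsC x
    have t3 := off_le h hg x
    have t4 := pos_comm_r h p hg.p_comm (u s * x * star (u s))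
    have t5 := pos_comm_r h q hg.q_comm (u s * x * star (u s))
    rw [t2] at t4 t5
    have t6 : dd τ (u p) (u q) (u s * x * star (u s)) ≤ 80 * dd τ (u p) (u q) x := by
      have e1 : dd τ (u p) (u q) (u s * x * star (u s)) =
        n2 τ (u p * (u s * x * star (u s)) - (u s * x * star (u s)) * u p) +
        n2 τ (u q * (u s * x * star (u s)) - (u s * x * star (u s)) * u q) := rfl
      rw [e1]
      linarith
    have := hdd x
    have := hdd y
    linarith


end Pool.Agent.Helper159.GM
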