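import Mathlib
import Pool.Agent.Helper159.GM.Grp1

set_option autoImplicit false
set_option linter.unusedSectionVars false

namespace Pool.Agent.Helper159.GM



/-! TARGET (prove; you may add auxiliary lemmas before it) -/

theorem free_left_aux (y : Bool) (x : F2)
    (h : ∀ (s : Bool) (L : List (Bool × Bool)), x.toWord = (y, s) :: L → s = true) :
    (FreeGroup.of y * x).toWord = (y, true) :: x.toWord := by
  rw [FreeGroup.toWord_mul, FreeGroup.toWord_of, List.singleton_append, FreeGroup.reduce.cons,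
    FreeGroup.reduce_toWord]
  cases hx : x.toWord with
  | nil => rfl
  | cons hd tl =>
    have h1 : ¬ (y = hd.1 ∧ true = !hd.2) := by
      rintro ⟨h2, h3⟩
      have h4 := h hd.2 tl (by rw [hx, h2])
      rw [h4] at h3
      exact absurd h3 (by decide)
    simp only [h1, if_false]

theorem free_left : ∃ B E : Set F2, Disjoint B E ∧ B ∪ E = Set.univ ∧
    (∀ x ∈ B, FreeGroup.of true * x ∉ B) ∧
    (∀ x ∈ B, FreeGroup.of true * (FreeGroup.of true * x) ∉ B) ∧
    (∀ x ∈ E, FreeGroup.of false * x ∈ B) := by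
  obtain ⟨B, hB⟩ : ∃ B : Set F2, ∀ x, x ∈ B ↔
      ∃ (s : Bool) (L : List (Bool × Bool)), x.toWord = (false, s) :: L := ⟨{x | _}, fun _ => Iff.rfl⟩
  have h1 : ∀ x ∈ B, (FreeGroup.of true * x).toWord = (true, true) :: x.toWord := by
    intro x hx
    obtain ⟨s, L, hx⟩ := (hB x).1 hx
    apply free_left_aux
    intro s' L' h
    rw [hx] at h
    simp at h
  refine ⟨B, Bᶜ, disjoint_compl_right, Set.union_compl_self B, ?_, ?_, ?_⟩
  · intro x hx h
    obtain ⟨s, L, h⟩ := (hB _).1 h
    rw [h1 x hx] at h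
    simp at h
  · intro x hx h
    obtain ⟨s, L, h⟩ := (hB _).1 h
    rw [free_left_aux true (FreeGroup.of true * x) (by
      intro s' L' h'
      rw [h1 x hx] at h'
      simp at h'
      exact h'.1)] at h
    simp at h
  · intro x hx
    rw [hB]
    refine ⟨true, x.toWord, free_left_aux false x ?_⟩
    intro s L h
    exact absurd ((hB x).2 ⟨s, L, h⟩) hx


end Pool.Agent.Helper159.GM
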