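import Mathlib
import Pool.Agent.Helper159.GM.JFreeLeft

set_option autoImplicit false
set_option linter.unusedSectionVars false

namespace Pool.Agent.Helper159.GM





/-! TARGET (prove; you may add auxiliary lemmas before it) -/

/-- paradoxical decomposition for a free action of the free group -/
theorem free_act {X : Type} [MulAction F2 X] (hfree : ∀ (g : F2) (x : X), g • x = x → g = 1) :
    ∃ B E : Set X, Disjoint B E ∧ B ∪ E = Set.univ ∧
    (∀ x ∈ B, (FreeGroup.of true : F2) • x ∉ B) ∧
    (∀ x ∈ B, (FreeGroup.of true : F2) • ((FreeGroup.of true : F2) • x) ∉ B) ∧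
    (∀ x ∈ E, (FreeGroup.of false : F2) • x ∈ B) := by
  obtain ⟨B0, E0, hd, hu, h1, h2, h3⟩ := free_left
  let r : X → X := fun x => (Quotient.mk (MulAction.orbitRel F2 X) x).out
  have hr1 : ∀ (g : F2) (x : X), r (g • x) = r x := by
    intro g x
    have : (Quotient.mk (MulAction.orbitRel F2 X) (g • x)) =
        Quotient.mk (MulAction.orbitRel F2 X) x := by
      apply Quotient.sound
      exact ⟨g, rfl⟩
    simp only [r, this]
  have hr2 : ∀ x : X, ∃ g : F2, g • r x = x := by
    intro x
    have h : (MulAction.orbitRel F2 X) (r x) x := Quotient.mk_out (s := MulAction.orbitRel F2 X) x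
    have h' : r x ∈ MulAction.orbit F2 x := h
    obtain ⟨g, hg⟩ := h'
    refine ⟨g⁻¹, ?_⟩
    rw [← hg]
    exact inv_smul_smul g x
  choose w hw using hr2
  have hwg : ∀ (g : F2) (x : X), w (g • x) = g * w x := by
    intro g x
    have e1 : w (g • x) • r x = g • x := by
      have := hw (g • x)
      rwa [hr1] at this
    have e2 : (g * w x) • r x = g • x := by
      rw [mul_smul, hw]
    have e3 : ((g * w x)⁻¹ * w (g • x)) • r x = r x := by
      rw [mul_smul, e1, ← e2, inv_smul_smul]
    have e4 := hfree _ _ e3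
    exact (inv_mul_eq_one.mp e4).symm
  refine ⟨{x | w x ∈ B0}, {x | w x ∈ E0}, ?_, ?_, ?_, ?_, ?_⟩
  · rw [Set.disjoint_left]
    intro x hx hx'
    exact Set.disjoint_left.mp hd hx hx'
  · ext x
    constructor
    · intro _
      trivial
    · intro _
      have : w x ∈ B0 ∪ E0 := by rw [hu]; trivial
      exact this
  · intro x hx hx'
    change w _ ∈ B0 at hx'
    rw [hwg] at hx'
    exact h1 _ hx hx'
  · intro x hx hx'
    change w _ ∈ B0 at hx'
    rw [hwg, hwg] at hx'
    exact h2 _ hx hx'
  · intro x hx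
    change w _ ∈ B0
    rw [hwg]
    exact h3 _ hx


end Pool.Agent.Helper159.GM
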