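import Mathlib

set_option autoImplicit false
set_option linter.unusedSectionVars false

open scoped InnerProductSpace Topology

namespace Pool.Agent.Helper159.GM


/-! TARGET (prove; you may add auxiliary lemmas before it) -/

theorem free_conj_isReduced_cons {X : Type} [DecidableEq X] {x y : X} {s t : Bool}
    {L : List (X × Bool)}
    (h : FreeGroup.IsReduced ((x, s) :: L)) (hxy : y ≠ x ∨ t = s) :
    FreeGroup.IsReduced ((y, t) :: (x, s) :: L) := by
  unfold FreeGroup.IsReduced at *
  rw [List.isChain_cons_cons]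
  refine ⟨?_, h⟩
  intro hy
  rcases hxy with h1 | h1
  · exact absurd hy h1
  · exact h1

theorem free_conj_left_mul {X : Type} [DecidableEq X] {x y : X} {s t : Bool}
    {L : List (X × Bool)} {w : FreeGroup X} (hw : w.toWord = (x, s) :: L)
    (hxy : y ≠ x ∨ t = s) : (FreeGroup.mk [(y, t)] * w).toWord = (y, t) :: (x, s) :: L := by
  have h1 : FreeGroup.IsReduced ((x, s) :: L) := hw ▸ FreeGroup.isReduced_toWord
  have h2 := free_conj_isReduced_cons h1 hxy
  have h3 : FreeGroup.mk [(y, t)] * w = FreeGroup.mk ((y, t) :: (x, s) :: L) := by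
    conv_lhs => rw [← FreeGroup.mk_toWord (x := w), hw]
    rw [FreeGroup.mul_mk]
    rfl
  rw [h3, FreeGroup.toWord_mk, h2.reduce_eq]

theorem free_conj_right_mul {X : Type} [DecidableEq X] {x y : X} {s t : Bool}
    {L : List (X × Bool)} {w : FreeGroup X} (hw : w.toWord = (x, s) :: L)
    (hxy : y ≠ x) : ∃ L', (w * FreeGroup.mk [(y, t)]).toWord = (x, s) :: L' := by
  have h1 : FreeGroup.IsReduced ((x, s) :: L) := hw ▸ FreeGroup.isReduced_toWord
  have h3 : w * FreeGroup.mk [(y, t)] = FreeGroup.mk (((x, s) :: L) ++ [(y, t)]) := by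
    conv_lhs => rw [← FreeGroup.mk_toWord (x := w), hw]
    rw [FreeGroup.mul_mk]
  by_cases h2 : FreeGroup.IsReduced (((x, s) :: L) ++ [(y, t)])
  · refine ⟨L ++ [(y, t)], ?_⟩
    rw [h3, FreeGroup.toWord_mk, h2.reduce_eq]
    rfl
  · -- the last letter cancels
    obtain ⟨M, z, r, hM⟩ : ∃ M z r, (x, s) :: L = M ++ [(z, r)] := by
      have := List.dropLast_append_getLast (l := (x, s) :: L) (by simp)
      exact ⟨_, (((x, s) :: L).getLast (by simp)).1, (((x, s) :: L).getLast (by simp)).2, this.symm⟩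
    have h4 : y = z ∧ t = !r := by
      by_contra hcon
      apply h2
      rw [hM]
      unfold FreeGroup.IsReduced at *
      rw [hM] at h1
      rw [List.isChain_append]
      refine ⟨h1, List.isChain_singleton _, ?_⟩
      intro p hp q hq
      simp only [List.getLast?_append, List.getLast?_singleton, Option.some_or, Option.mem_def,
        Option.some.injEq] at hp
      simp only [List.head?_cons, Option.mem_def, Option.some.injEq] at hq
      subst hp hq
      intro hzy
      by_contra hne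
      exact hcon ⟨hzy.symm, by
        cases r <;> cases t <;> simp_all⟩
    obtain ⟨h5, h6⟩ := h4
    subst h5 h6
    cases M with
    | nil =>
      simp only [List.nil_append, List.cons.injEq, Prod.mk.injEq] at hM
      exact absurd hM.1.1.symm hxy
    | cons m M =>
      simp only [List.cons_append, List.cons.injEq] at hM
      obtain ⟨hm, hL⟩ := hM
      refine ⟨M, ?_⟩
      have h7 : w * FreeGroup.mk [(y, !r)] = FreeGroup.mk ((x, s) :: M) := by
        rw [h3, hL]
        have : ((x, s) :: (M ++ [(y, r)])) ++ [(y, !r)] = ((x, s) :: M) ++ ([(y, r)] ++ [(y, !r)]) := by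
          simp
        rw [this, ← FreeGroup.mul_mk, ← FreeGroup.mul_mk (L₁ := [(y, r)])]
        have h8 : FreeGroup.mk [(y, r)] * FreeGroup.mk [(y, !r)] = 1 := by
          have : FreeGroup.mk [(y, !r)] = (FreeGroup.mk [(y, r)])⁻¹ := by
            rw [FreeGroup.inv_mk]
            rfl
          rw [this, mul_inv_cancel]
        rw [h8, mul_one]
      have h8 : FreeGroup.IsReduced ((x, s) :: M) := by
        rw [hL] at h1
        unfold FreeGroup.IsReduced at *
        have : (x, s) :: (M ++ [(y, r)]) = ((x, s) :: M) ++ [(y, r)] := rfl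
        rw [this] at h1
        exact (List.isChain_append.1 h1).1
      rw [h7, FreeGroup.toWord_mk, h8.reduce_eq]

theorem free_conj_inv_of {X : Type} (x : X) : (FreeGroup.of x)⁻¹ = FreeGroup.mk [(x, false)] := by
  show (FreeGroup.mk [(x, true)])⁻¹ = _
  rw [FreeGroup.inv_mk]
  rfl

theorem free_conj {X : Type} [DecidableEq X] (s t : X) (hst : s ≠ t) :
    ∃ B E : Set (FreeGroup X), Disjoint B E ∧ B ∪ E = {x | x ≠ 1} ∧
    (∀ x ∈ B, FreeGroup.of s * x * (FreeGroup.of s)⁻¹ ∉ B) ∧
    (∀ x ∈ B, FreeGroup.of s * (FreeGroup.of s * x * (FreeGroup.of s)⁻¹) * (FreeGroup.of s)⁻¹ ∉ B) ∧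
    (∀ x ∈ E, FreeGroup.of t * x * (FreeGroup.of t)⁻¹ ∈ B) := by
  have hof : ∀ z : X, FreeGroup.of z = FreeGroup.mk [(z, true)] := fun z => rfl
  refine ⟨{w | ∃ x e L, x ≠ s ∧ w.toWord = (x, e) :: L}, {w | ∃ e L, w.toWord = (s, e) :: L},
    ?_, ?_, ?_, ?_, ?_⟩
  · rw [Set.disjoint_left]
    rintro w ⟨x, e, L, hx, hL⟩ ⟨e', L', hL'⟩
    rw [hL] at hL'
    simp only [List.cons.injEq, Prod.mk.injEq] at hL'
    exact hx hL'.1.1
  · ext w
    constructor
    · rintro (⟨x, e, L, hx, hL⟩ | ⟨e', L', hL'⟩) h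
      · rw [h, FreeGroup.toWord_one] at hL
        simp at hL
      · rw [h, FreeGroup.toWord_one] at hL'
        simp at hL'
    · intro hw
      have h1 : w.toWord ≠ [] := fun h => hw (FreeGroup.toWord_eq_nil_iff.1 h)
      obtain ⟨⟨x, e⟩, L, hL⟩ := List.exists_cons_of_ne_nil h1
      by_cases hx : x = s
      · subst hx
        exact Or.inr ⟨e, L, hL⟩
      · exact Or.inl ⟨x, e, L, hx, hL⟩
  · rintro w ⟨x, e, L, hx, hL⟩ ⟨x', e', L', hx', hL'⟩
    obtain ⟨L1, hL1⟩ : ∃ L', (w * FreeGroup.mk [(s, false)]).toWord = (x, e) :: L' :=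
      free_conj_right_mul hL (Ne.symm hx)
    have h3 := free_conj_left_mul (y := s) (t := true) hL1 (Or.inl (Ne.symm hx))
    rw [free_conj_inv_of, hof, mul_assoc, h3] at hL'
    simp only [List.cons.injEq, Prod.mk.injEq] at hL'
    exact hx' hL'.1.1.symm
  · rintro w ⟨x, e, L, hx, hL⟩ ⟨x', e', L', hx', hL'⟩
    obtain ⟨L1, hL1⟩ : ∃ L', (w * FreeGroup.mk [(s, false)]).toWord = (x, e) :: L' :=
      free_conj_right_mul hL (Ne.symm hx)
    obtain ⟨L2, hL2⟩ : ∃ L', (w * FreeGroup.mk [(s, false)] * FreeGroup.mk [(s, false)]).toWord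
        = (x, e) :: L' :=
      free_conj_right_mul hL1 (Ne.symm hx)
    have h3 := free_conj_left_mul (y := s) (t := true) hL2 (Or.inl (Ne.symm hx))
    have h4 := free_conj_left_mul (y := s) (t := true) h3 (Or.inr rfl)
    have e1 : FreeGroup.of s * (FreeGroup.of s * w * (FreeGroup.of s)⁻¹) * (FreeGroup.of s)⁻¹ =
      FreeGroup.of s * (FreeGroup.of s * (w * (FreeGroup.of s)⁻¹ * (FreeGroup.of s)⁻¹)) := by group
    rw [e1, free_conj_inv_of, hof, h4] at hL'
    simp only [List.cons.injEq, Prod.mk.injEq] at hL'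
    exact hx' hL'.1.1.symm
  · rintro w ⟨e, L, hL⟩
    obtain ⟨L1, hL1⟩ : ∃ L', (w * FreeGroup.mk [(t, false)]).toWord = (s, e) :: L' :=
      free_conj_right_mul hL (Ne.symm hst)
    have h3 := free_conj_left_mul (y := t) (t := true) hL1 (Or.inl (Ne.symm hst))
    refine ⟨t, true, (s, e) :: L1, Ne.symm hst, ?_⟩
    rw [free_conj_inv_of, hof, mul_assoc, h3]


end Pool.Agent.Helper159.GM
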