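import Mathlib
import Pool.Agent.Helper159.GM.Grp1

set_option autoImplicit false
set_option linter.unusedSectionVars false

namespace Pool.Agent.Helper159.GM



/-! TARGET (prove; you may add auxiliary lemmas before it) -/

/-- the free group acts freely on the nontrivial elements of `K1` -/
theorem free_K1 (f : F2) (k : K1) (hk : k ≠ 1) (h : act1 (1, f) k = k) : f = 1 := by
  by_contra hf
  have h1 : ∀ y : Y1, (Multiplicative.toAdd k) (pm1 (1, f) y) = (Multiplicative.toAdd k) y := by
    intro y
    have h2 := dom_apply (pm1 (1, f)) k (pm1 (1, f) y)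
    have h3 : dom (pm1 (1, f)) k = k := h
    rw [h3] at h2
    rw [h2]; exact congrArg _ (Equiv.symm_apply_apply _ _)
  have h4 : ∃ y : Y1, (Multiplicative.toAdd k) y ≠ 0 := by
    by_contra hcon
    push Not at hcon
    apply hk
    apply Multiplicative.toAdd.injective
    ext y : 1
    rw [hcon y]
    rfl
  obtain ⟨⟨i, m, x⟩, hy⟩ := h4
  have h5 : ∀ n : ℕ, (Multiplicative.toAdd k) (i, m, f ^ n * x) ≠ 0 := by
    intro n
    induction n with
    | zero => simpa using hy
    | succ n ih =>
      have h6 := h1 (i, m, f ^ n * x)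
      have h7 : pm1 (1, f) (i, m, f ^ n * x) = (i, m, f ^ (n + 1) * x) := by
        show (i, m + 0, f * (f ^ n * x)) = (i, m, f ^ (n + 1) * x)
        rw [add_zero, pow_succ', mul_assoc]
      rw [h7] at h6
      rw [h6]
      exact ih
  have hinj : Function.Injective (fun n : ℕ => ((i, m, f ^ n * x) : Y1)) := by
    intro a b hab
    have h8 : f ^ a * x = f ^ b * x := by
      have := congrArg (fun y : Y1 => y.2.2) hab
      exact this
    have h9 : f ^ a = f ^ b := mul_right_cancel h8
    have h10 : ¬ IsOfFinOrder f := not_isOfFinOrder_of_isMulTorsionFree hf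
    exact (injective_pow_iff_not_isOfFinOrder.mpr h10) h9
  have hfin : (Set.range (fun n : ℕ => ((i, m, f ^ n * x) : Y1))).Finite := by
    apply Set.Finite.subset (Multiplicative.toAdd k).support.finite_toSet
    rintro _ ⟨n, rfl⟩
    exact Finsupp.mem_support_iff.mpr (h5 n)
  exact Set.infinite_range_of_injective hinj hfin


end Pool.Agent.Helper159.GM
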