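import Mathlib
import Pool.Agent.Helper159.GM.JFreeConj
import Pool.Agent.Helper159.GM.JFreeAct
import Pool.Agent.Helper159.GM.JFreeK

set_option autoImplicit false
set_option linter.unusedSectionVars false

namespace Pool.Agent.Helper159.GM





/-! TARGET (prove; you may add auxiliary lemmas before it) -/


/-- the action of `F2` on the nontrivial elements of `K1` -/
@[reducible] noncomputable def sets1_act : MulAction F2 {k : K1 // k ≠ 1} where
  smul x k := ⟨act1 (1, x) k.1, fun h => k.2 ((map_eq_one_iff _ (MulEquiv.injective _)).1 h)⟩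
  one_smul k := by
    apply Subtype.ext
    show act1 (1, 1) k.1 = k.1
    rw [show ((1, 1) : Q1) = 1 from rfl, map_one]
    rfl
  mul_smul x y k := by
    apply Subtype.ext
    show act1 (1, x * y) k.1 = act1 (1, x) (act1 (1, y) k.1)
    rw [show ((1, x * y) : Q1) = (1, x) * (1, y) by
      rw [Prod.mk_mul_mk, one_mul], map_mul]
    rfl

theorem sets1_left (x : F2) (g : G1) : (cj (fr1 x) g).left = act1 (1, x) g.left := by
  rw [cj_apply, SemidirectProduct.mul_left, SemidirectProduct.mul_left]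
  have h1 : (fr1 x).left = 1 := rfl
  have h2 : (fr1 x).right = (1, x) := rfl
  have h3 : ((fr1 x)⁻¹).left = 1 := by
    rw [SemidirectProduct.inv_left, h1, inv_one, map_one]
  rw [h1, h2, h3, map_one, one_mul, mul_one]

theorem sets1_right (x : F2) (g : G1) : (cj (fr1 x) g).right.2 = x * g.right.2 * x⁻¹ := by
  rw [cj_apply, SemidirectProduct.mul_right, SemidirectProduct.mul_right,
    SemidirectProduct.inv_right, Prod.snd_mul, Prod.snd_mul, Prod.snd_inv]
  rfl

theorem sets1_left_one (x : F2) (g : G1) : (cj (fr1 x) g).left = 1 ↔ g.left = 1 := by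
  rw [sets1_left]
  exact map_eq_one_iff _ (MulEquiv.injective _)

/-- the set of `g` with nontrivial left part in `B'`, or trivial left part and right part in `B''` -/
def sets1_S (B' : Set {k : K1 // k ≠ 1}) (B'' : Set F2) : Set G1 :=
  {g | (∃ h : g.left ≠ 1, (⟨g.left, h⟩ : {k : K1 // k ≠ 1}) ∈ B') ∨ (g.left = 1 ∧ g.right.2 ∈ B'')}

theorem sets1_mem1 (B' : Set {k : K1 // k ≠ 1}) (B'' : Set F2) (g : G1) (h : g.left ≠ 1) :
    g ∈ sets1_S B' B'' ↔ (⟨g.left, h⟩ : {k : K1 // k ≠ 1}) ∈ B' := by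
  constructor
  · rintro (⟨_, h2⟩ | ⟨h1, _⟩)
    · exact h2
    · exact absurd h1 h
  · exact fun h2 => Or.inl ⟨h, h2⟩

theorem sets1_mem2 (B' : Set {k : K1 // k ≠ 1}) (B'' : Set F2) (g : G1) (h : g.left = 1) :
    g ∈ sets1_S B' B'' ↔ g.right.2 ∈ B'' := by
  constructor
  · rintro (⟨h1, _⟩ | ⟨_, h2⟩)
    · exact absurd h h1
    · exact h2
  · exact fun h2 => Or.inr ⟨h, h2⟩

theorem sets1_cj1 (B' : Set {k : K1 // k ≠ 1}) (B'' : Set F2) (x : F2) (g : G1) (h : g.left ≠ 1) :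
    cj (fr1 x) g ∈ sets1_S B' B'' ↔ sets1_act.toSMul.smul x ⟨g.left, h⟩ ∈ B' := by
  have h1 : (cj (fr1 x) g).left ≠ 1 := fun h2 => h ((sets1_left_one x g).1 h2)
  rw [sets1_mem1 _ _ _ h1]
  have e : (⟨(cj (fr1 x) g).left, h1⟩ : {k : K1 // k ≠ 1}) = sets1_act.toSMul.smul x ⟨g.left, h⟩ :=
    Subtype.ext (sets1_left x g)
  rw [e]

theorem sets1_cj2 (B' : Set {k : K1 // k ≠ 1}) (B'' : Set F2) (x : F2) (g : G1) (h : g.left = 1) :
    cj (fr1 x) g ∈ sets1_S B' B'' ↔ x * g.right.2 * x⁻¹ ∈ B'' := by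
  rw [sets1_mem2 _ _ _ ((sets1_left_one x g).2 h), sets1_right]

/-- sets for the spectral gap estimate in `G1` -/
theorem sets1 : ∃ B E : Set G1, Disjoint B E ∧ Disjoint B (cj p1 '' B) ∧
    Disjoint B (cj p1 '' (cj p1 '' B)) ∧ cj q1 '' E ⊆ B ∧ ∀ g : G1, g ∉ C1 → g ∈ B ∪ E := by
  letI := sets1_act
  obtain ⟨B', E', hd', hu', hb1', hb2', he'⟩ := free_act (X := {k : K1 // k ≠ 1}) (by
    intro f k hk
    exact free_K1 f k.1 k.2 (congrArg Subtype.val hk))
  obtain ⟨B'', E'', hd'', hu'', hb1'', hb2'', he''⟩ := free_conj true false (by decide)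
  refine ⟨sets1_S B' B'', sets1_S E' E'', ?_, ?_, ?_, ?_, ?_⟩
  · rw [Set.disjoint_left]
    intro g hg hg'
    by_cases h : g.left = 1
    · rw [sets1_mem2 _ _ _ h] at hg hg'
      exact Set.disjoint_left.1 hd'' hg hg'
    · rw [sets1_mem1 _ _ _ h] at hg hg'
      exact Set.disjoint_left.1 hd' hg hg'
  · rw [Set.disjoint_left]
    rintro _ hg ⟨g, hg', rfl⟩
    by_cases h : g.left = 1
    · rw [sets1_mem2 _ _ _ h] at hg'
      exact hb1'' _ hg' ((sets1_cj2 B' B'' (FreeGroup.of true) g h).1 hg)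
    · rw [sets1_mem1 _ _ _ h] at hg'
      exact hb1' _ hg' ((sets1_cj1 B' B'' (FreeGroup.of true) g h).1 hg)
  · rw [Set.disjoint_left]
    rintro _ hg ⟨_, ⟨g, hg', rfl⟩, rfl⟩
    by_cases h : g.left = 1
    · rw [sets1_mem2 _ _ _ h] at hg'
      have h1 : (cj p1 g).left = 1 := (sets1_left_one _ g).2 h
      have h2 := (sets1_cj2 B' B'' (FreeGroup.of true) (cj p1 g) h1).1 hg
      have h3 : (cj p1 g).right.2 = FreeGroup.of true * g.right.2 * (FreeGroup.of true)⁻¹ :=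
        sets1_right _ g
      rw [h3] at h2
      exact hb2'' _ hg' h2
    · rw [sets1_mem1 _ _ _ h] at hg'
      have h1 : (cj p1 g).left ≠ 1 := fun h2 => h ((sets1_left_one _ g).1 h2)
      have h2 := (sets1_cj1 B' B'' (FreeGroup.of true) (cj p1 g) h1).1 hg
      have e : (⟨(cj p1 g).left, h1⟩ : {k : K1 // k ≠ 1}) =
          (FreeGroup.of true : F2) • (⟨g.left, h⟩ : {k : K1 // k ≠ 1}) :=
        Subtype.ext (sets1_left _ g)
      rw [e] at h2
      exact hb2' _ hg' h2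
  · rintro _ ⟨g, hg', rfl⟩
    by_cases h : g.left = 1
    · rw [sets1_mem2 _ _ _ h] at hg'
      exact (sets1_cj2 B' B'' (FreeGroup.of false) g h).2 (he'' _ hg')
    · rw [sets1_mem1 _ _ _ h] at hg'
      exact (sets1_cj1 B' B'' (FreeGroup.of false) g h).2 (he' _ hg')
  · intro g hg
    by_cases h : g.left = 1
    · have h1 : g.right.2 ≠ 1 := fun h2 => hg ⟨h, h2⟩
      have h2 : g.right.2 ∈ B'' ∪ E'' := by rw [hu'']; exact h1
      rcases h2 with h2 | h2
      · exact Or.inl ((sets1_mem2 _ _ _ h).2 h2)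
      · exact Or.inr ((sets1_mem2 _ _ _ h).2 h2)
    · have h2 : (⟨g.left, h⟩ : {k : K1 // k ≠ 1}) ∈ B' ∪ E' := by rw [hu']; exact Set.mem_univ _
      rcases h2 with h2 | h2
      · exact Or.inl ((sets1_mem1 _ _ _ h).2 h2)
      · exact Or.inr ((sets1_mem1 _ _ _ h).2 h2)


end Pool.Agent.Helper159.GM
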