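import Mathlib
import Pool.Agent.Helper159.GM.Grp2
import Pool.Agent.Helper159.GM.JFreeConj

set_option autoImplicit false
set_option linter.unusedSectionVars false

namespace Pool.Agent.Helper159.GM





/-! TARGET (prove; you may add auxiliary lemmas before it) -/

theorem h400_cj_right (g h : G2) : (cj g h).right = g.right * h.right * g.right⁻¹ := by
  rw [cj_apply, SemidirectProduct.mul_right, SemidirectProduct.mul_right,
    SemidirectProduct.inv_right]

theorem h400_mem (g : G2) : g ∈ C2 ↔ g.right = 1 := Iff.rfl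

theorem h400_act (b : Bool) : act2 (FreeGroup.of (Sum.inl b)) = 1 := by
  unfold act2 pm2
  rw [MonoidHom.comp_apply, FreeGroup.lift_apply_of]
  show dom 1 = 1
  rw [map_one]

theorem h400_comm (b : Bool) (a : G2) (ha : a ∈ C2) :
    (SemidirectProduct.inr (FreeGroup.of (Sum.inl b)) : G2) * a =
      a * SemidirectProduct.inr (FreeGroup.of (Sum.inl b)) := by
  have ha' : a.right = 1 := ha
  apply SemidirectProduct.ext
  · rw [SemidirectProduct.mul_left, SemidirectProduct.mul_left, SemidirectProduct.left_inr,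
      SemidirectProduct.right_inr, h400_act, ha', map_one, one_mul, mul_one]
    rfl
  · rw [SemidirectProduct.mul_right, SemidirectProduct.mul_right, SemidirectProduct.right_inr,
      ha', mul_one, one_mul]

/-- sets for the spectral gap estimate in `G2` -/
theorem sets2 : ∃ B E : Set G2, Disjoint B E ∧ Disjoint B (cj p2 '' B) ∧
    Disjoint B (cj p2 '' (cj p2 '' B)) ∧ cj q2 '' E ⊆ B ∧ ∀ g : G2, g ∉ C2 → g ∈ B ∪ E := by
  obtain ⟨B, E, h1, h2, h3, h4, h5⟩ := free_conj (X := X2) (Sum.inl true) (Sum.inl false)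
    (by simp)
  refine ⟨{g | g.right ∈ B}, {g | g.right ∈ E}, ?_, ?_, ?_, ?_, ?_⟩
  · rw [Set.disjoint_left]
    intro g hg hg'
    exact Set.disjoint_left.mp h1 hg hg'
  · rw [Set.disjoint_left]
    rintro g hg ⟨h, hh, rfl⟩
    have hg' : (cj p2 h).right ∈ B := hg
    rw [h400_cj_right] at hg'
    exact h3 h.right hh hg'
  · rw [Set.disjoint_left]
    rintro g hg ⟨k, ⟨h, hh, rfl⟩, rfl⟩
    have hg' : (cj p2 (cj p2 h)).right ∈ B := hg
    rw [h400_cj_right, h400_cj_right] at hg'
    exact h4 h.right hh hg'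
  · rintro g ⟨h, hh, rfl⟩
    show (cj q2 h).right ∈ B
    rw [h400_cj_right]
    exact h5 h.right hh
  · intro g hg
    have hg' : g.right ∈ B ∪ E := by
      rw [h2]
      exact hg
    exact hg'

theorem c2_comm : ∀ a ∈ C2, ∀ b ∈ C2, a * b = b * a := by
  intro a ha b hb
  have ha' : a.right = 1 := ha
  have hb' : b.right = 1 := hb
  apply SemidirectProduct.ext
  · rw [SemidirectProduct.mul_left, SemidirectProduct.mul_left, ha', hb', map_one]
    exact mul_comm _ _
  · rw [SemidirectProduct.mul_right, SemidirectProduct.mul_right, ha', hb']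

theorem p2_comm : ∀ a ∈ C2, p2 * a = a * p2 := fun a ha => h400_comm true a ha

theorem q2_comm : ∀ a ∈ C2, q2 * a = a * q2 := fun a ha => h400_comm false a ha


end Pool.Agent.Helper159.GM
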