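import Mathlib
import Pool.Agent.Helper159.GM.Inst
import Pool.Agent.Helper159.GM.JCenter
import Pool.Agent.Helper159.GM.JGamma
import Pool.Agent.Helper159.GM.JPos
import Pool.Agent.Helper159.GM.JNeg
import Pool.Agent.Helper159.GM.JMix1
import Pool.Agent.Helper159.GM.JChain1
import Pool.Agent.Helper159.GM.JIcc1
import Pool.Agent.Helper159.GM.JSets1
import Pool.Agent.Helper159.GM.JSets2
import Pool.Agent.Helper159.GM.JMover
import Pool.Agent.Helper159.GM.JIcc2

set_option autoImplicit false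
set_option linter.unusedSectionVars false

open scoped InnerProductSpace ComplexOrder Topology
open Filter

namespace Pool.Agent.Helper159.GM

open Pool.Agent.Helper278 Pool.Agent.Helper278.CE

theorem gap_of_sets {G : Type} [Group G] {C : Subgroup G} {p q : G}
    (hs : ∃ B E : Set G, Disjoint B E ∧ Disjoint B (cj p '' B) ∧
      Disjoint B (cj p '' (cj p '' B)) ∧ cj q '' E ⊆ B ∧ ∀ g : G, g ∉ C → g ∈ B ∪ E)
    (f : EllTwo G) (hf : ∀ g ∈ C, f g = 0) (t : ℝ)
    (h1 : ‖permOp (cj p) f - f‖ ≤ t) (h2 : ‖permOp (cj q) f - f‖ ≤ t) : ‖f‖ ≤ 20 * t := by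
  obtain ⟨B, E, k1, k2, k3, k4, k5⟩ := hs
  refine gap_estimate B E (cj p) (cj q) k1 k2 k3 k4 f ?_ t h1 h2
  intro g hg
  apply hf
  by_contra hgC
  exact hg (k5 g hgC)

theorem gapData1 : GapData G1 C1 p1 q1 where
  comm := c1_comm
  p_comm := p1_comm
  q_comm := q1_comm
  gap f hf t h1 h2 := gap_of_sets sets1 f hf t h1 h2
  icc := icc1

theorem gapData2 : GapData G2 C2 p2 q2 where
  comm := c2_comm
  p_comm := p2_comm
  q_comm := q2_comm
  gap f hf t h1 h2 := gap_of_sets sets2 f hf t h1 h2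
  icc := icc2

theorem chain1 : Chain G1 Z1 D1 a1 t1 where
  fin := chain1_fin
  sub := chain1_sub
  cent := chain1_cent
  a_mem := chain1_a_mem
  a_t := chain1_a_t
  mix := chain1_mix

instance : Infinite G1 := by
  have h := icc1 (a1 0) (by
    have := chain1_a_mem 0
    exact ⟨this.1, this.2.1⟩) (a1_ne 0)
  exact Set.infinite_univ_iff.1 (h.mono (Set.subset_univ _))

instance : Infinite G2 := by
  have h := icc2 (a2 0) rfl (a2_ne 0)
  exact Set.infinite_univ_iff.1 (h.mono (Set.subset_univ _))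

theorem isIIOne_of_gap {G : Type} [Group G] [Infinite G] {C : Subgroup G} {p q : G}
    (hg : GapData G C p q) : IsIIOneFactor (LG G) (fun x => (TL G).τ x) := by
  refine ⟨?_, infinite_dim (gvn (G := G)), ⟨(TL G).map_one, (TL G).tracial, (TL G).faithful⟩,
    (TL G).normal⟩
  intro z hz hcom
  obtain ⟨c, hc⟩ := center (gvn (G := G)) hg (⟨z, hz⟩ : Elt (LG G))
    (fun x => Subtype.ext (hcom x x.2))
  exact ⟨c, congrArg Subtype.val hc⟩

end Pool.Agent.Helper159.GM
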