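import Mathlib

set_option autoImplicit false
set_option linter.unusedSectionVars false

open scoped InnerProductSpace Topology

namespace Pool.Agent.Helper159.GM


/-! TARGET (prove; you may add auxiliary lemmas before it) -/

theorem dense_bicomm {H : Type} [NormedAddCommGroup H] [InnerProductSpace ℂ H] [CompleteSpace H]
    (B : StarSubalgebra ℂ (H →L[ℂ] H)) (Ω : H) (x : H →L[ℂ] H)
    (hx : ∀ t : H →L[ℂ] H, (∀ b ∈ B, b * t = t * b) → x * t = t * x) (ε : ℝ) (hε : 0 < ε) :
    ∃ b ∈ B, ‖x Ω - b Ω‖ < ε := by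
  let S : Submodule ℂ H :=
    { carrier := {v | ∃ b ∈ B, b Ω = v}
      add_mem' := by
        rintro _ _ ⟨a, ha, rfl⟩ ⟨b, hb, rfl⟩
        exact ⟨a + b, add_mem ha hb, rfl⟩
      zero_mem' := ⟨0, zero_mem B, rfl⟩
      smul_mem' := by
        rintro c _ ⟨a, ha, rfl⟩
        exact ⟨c • a, B.smul_mem ha c, rfl⟩ }
  have hS : ∀ v, v ∈ S ↔ ∃ b ∈ B, b Ω = v := fun v => Iff.rfl
  obtain ⟨K0, hK0⟩ : ∃ K0 : Submodule ℂ H, K0 = S.topologicalClosure := ⟨_, rfl⟩
  have hcl : IsClosed (K0 : Set H) := by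
    rw [hK0]
    exact S.isClosed_topologicalClosure
  haveI : CompleteSpace K0 := hcl.completeSpace_coe
  have hmap : ∀ b ∈ B, ∀ v ∈ K0, b v ∈ K0 := by
    intro b hb v hv
    have h1 : v ∈ closure (S : Set H) := by
      rw [hK0] at hv
      exact hv
    have h2 : b v ∈ closure (S : Set H) := by
      refine map_mem_closure b.continuous h1 ?_
      rintro _ ⟨a, ha, rfl⟩
      exact ⟨b * a, mul_mem hb ha, rfl⟩
    rw [hK0]
    exact h2
  have horth : ∀ b ∈ B, ∀ v ∈ K0ᗮ, b v ∈ K0ᗮ := by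
    intro b hb v hv w hw
    have h1 : ⟪w, b v⟫_ℂ = ⟪(star b) w, v⟫_ℂ := by
      rw [ContinuousLinearMap.star_eq_adjoint, ContinuousLinearMap.adjoint_inner_left]
    rw [h1]
    exact hv _ (hmap (star b) (star_mem hb) w hw)
  have hcomm : ∀ b ∈ B, b * K0.starProjection = K0.starProjection * b := by
    intro b hb
    ext v
    have h1 : K0.starProjection (b v) = b (K0.starProjection v) := by
      apply Submodule.eq_starProjection_of_mem_orthogonal
      · exact hmap b hb _ (Submodule.starProjection_apply_mem K0 v)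
      · rw [← map_sub]
        exact horth b hb _ (Submodule.sub_starProjection_mem_orthogonal v)
    exact h1.symm
  have hxP := hx _ hcomm
  have hΩ : Ω ∈ K0 := by
    rw [hK0]
    exact subset_closure ⟨1, one_mem B, rfl⟩
  have hxΩ : x Ω ∈ K0 := by
    have h1 : x (K0.starProjection Ω) = K0.starProjection (x Ω) :=
      congrArg (fun T : H →L[ℂ] H => T Ω) hxP
    rw [Submodule.starProjection_eq_self_iff.2 hΩ] at h1
    exact Submodule.starProjection_eq_self_iff.1 h1.symm
  have hxcl : x Ω ∈ closure (S : Set H) := by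
    rw [hK0] at hxΩ
    exact hxΩ
  obtain ⟨_, ⟨b, hb, rfl⟩, hd⟩ := Metric.mem_closure_iff.1 hxcl ε hε
  exact ⟨b, hb, by rwa [dist_eq_norm] at hd⟩


end Pool.Agent.Helper159.GM
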