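import Mathlib
import Pool.Agent.Helper278.DefsG
import Pool.Agent.Helper278.CEStmt
import Pool.Agent.Helper436.SM.Stmt

set_option autoImplicit false

namespace Pool.Agent.Helper159.GM

open Pool.Agent.Helper278 Pool.Agent.Helper436.SM

/-- Property Gamma: for every finite set `F` and every `ε > 0` there is a unitary `u` with
`τ(u) = 0` and `‖u x - x u‖₂ < ε` for all `x ∈ F`. -/
def HasGamma {A : Type} [CStarAlgebra A] (τ : A → ℂ) : Prop :=
  ∀ (F : Finset A) (ε : ℝ), 0 < ε →
    ∃ u ∈ unitary A, τ u = 0 ∧ ∀ x ∈ F, norm2 τ (u * x - x * u) < ε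

/-- `A` and `B` are isomorphic as star algebras. -/
def StarIso (A B : Type) [CStarAlgebra A] [CStarAlgebra B] : Prop := Nonempty (A ≃⋆ₐ[ℂ] B)

/-- There is a star isomorphism of `A` onto `B` that carries the functional `σ` on `B` to the
functional `ρ` on `A`. -/
def TraceIso {A B : Type} [CStarAlgebra A] [CStarAlgebra B] (ρ : A → ℂ) (σ : B → ℂ) : Prop :=
  ∃ e : A ≃⋆ₐ[ℂ] B, ∀ x, σ (e x) = ρ x

section

variable {H : Type} [NormedAddCommGroup H] [InnerProductSpace ℂ H] [CompleteSpace H]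
variable {L : Type} [NormedAddCommGroup L] [InnerProductSpace ℂ L] [CompleteSpace L]

/-- `(N, τ)` is the von Neumann algebra tensor product of its von Neumann subalgebras `P` and `Q`:
`P` and `Q` commute, they generate `N`, and `τ` is a product trace on them. -/
structure IsTensor (N : VonNeumannAlgebra H) (τ : Elt N → ℂ) (P Q : VonNeumannAlgebra H) :
    Prop where
  left : ∀ x ∈ P, x ∈ N
  right : ∀ y ∈ Q, y ∈ N
  comm : ∀ x ∈ P, ∀ y ∈ Q, x * y = y * x
  gen : N = vnGen ((P : Set (H →L[ℂ] H)) ∪ (Q : Set (H →L[ℂ] H)))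
  prod : ∀ x y : Elt N, op x ∈ P → op y ∈ Q → τ (x * y) = τ x * τ y

/-- `(N, τ)` is McDuff, relative to the model `(R, ρ)` of the hyperfinite II₁ factor:
`N ≅ N ⊗̄ R`, that is, `N` is the tensor product of a subalgebra `P ≅ N` and a subalgebra `Q` that,
with the restriction `σ` of the trace `τ`, is isomorphic to `(R, ρ)`. -/
def IsMcDuff (R : VonNeumannAlgebra L) (ρ : Elt R → ℂ) (N : VonNeumannAlgebra H)
    (τ : Elt N → ℂ) : Prop :=
  ∃ (P Q : VonNeumannAlgebra H) (σ : Elt Q → ℂ), IsTensor N τ P Q ∧ Restricts τ σ ∧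
    StarIso (Elt P) (Elt N) ∧ TraceIso ρ σ

end

/-- A von Neumann algebra `N` on a Hilbert space `H` together with a functional `τ` on `N`. -/
structure VNA where
  /-- the Hilbert space -/
  H : Type
  [i1 : NormedAddCommGroup H]
  [i2 : InnerProductSpace ℂ H]
  [i3 : CompleteSpace H]
  /-- the von Neumann algebra -/
  N : VonNeumannAlgebra H
  /-- the functional -/
  τ : Elt N → ℂ

attribute [instance] VNA.i1 VNA.i2 VNA.i3

end Pool.Agent.Helper159.GM
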