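import Mathlib
import Pool.Agent.Helper159.GM.Stmt
import Pool.Agent.Helper159.GM.Core
import Pool.Agent.Helper159.GM.JDense
import Pool.Agent.Helper436.SM.Hyp
import Pool.Agent.Helper436.SM.NoPty
import Pool.Agent.Helper278.CEStd
import Pool.Agent.Helper436.SM.PB

set_option autoImplicit false
set_option linter.unusedSectionVars false

open scoped InnerProductSpace ComplexOrder Topology
open Filter

namespace Pool.Agent.Helper159.GM

open Pool.Agent.Helper278 Pool.Agent.Helper436.SM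

section pauli

variable {A : Type} [Ring A] [StarRing A] [Algebra ℂ A] [StarModule ℂ A] {τ : A →ₗ[ℂ] ℂ}
  {W : VV → A}

theorem exists_fin_approx (hτ : TrAlg τ) (hW : PauliSys τ W)
    (hP : ∀ x : A, HasSum (fun v => ‖τ (star (W v) * x)‖ ^ 2) (n2 τ x ^ 2)) (x : A) (ε : ℝ)
    (hε : 0 < ε) : ∃ F : Finset VV, n2 τ (x - ∑ v ∈ F, τ (star (W v) * x) • W v) < ε := by
  have hlt : n2 τ x ^ 2 - ε ^ 2 < n2 τ x ^ 2 := by
    have : 0 < ε ^ 2 := by positivity
    linarith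
  obtain ⟨F, hF⟩ := ((hP x).eventually (lt_mem_nhds hlt)).exists
  refine ⟨F, ?_⟩
  have h := Hyp.hyp_expand hτ hW x F
  have h' : n2 τ (x - ∑ v ∈ F, τ (star (W v) * x) • W v) ^ 2 < ε ^ 2 := by
    rw [h]; linarith
  exact lt_of_pow_lt_pow_left₀ 2 hε.le h'

theorem tendsto_pauli (hτ : TrAlg τ) (hW : PauliSys τ W)
    (hP : ∀ x : A, HasSum (fun v => ‖τ (star (W v) * x)‖ ^ 2) (n2 τ x ^ 2)) (v : ℕ → VV)
    (hv : ∀ u, ∃ M, ∀ n ≥ M, sf u (v n) = 0) (x : A) :
    Tendsto (fun n => n2 τ (x * W (v n) - W (v n) * x)) atTop (𝓝 0) := by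
  rw [Metric.tendsto_atTop]
  intro ε hε
  obtain ⟨F, hF⟩ := exists_fin_approx hτ hW hP x (ε / 2) (by positivity)
  choose M hM using hv
  refine ⟨F.sup M, fun n hn => ?_⟩
  set y := ∑ v ∈ F, τ (star (W v) * x) • W v with hy
  have hcom : y * W (v n) = W (v n) * y := by
    rw [hy, Finset.sum_mul, Finset.mul_sum]
    refine Finset.sum_congr rfl fun u hu => ?_
    rw [smul_mul_assoc, mul_smul_comm, NoPty.hW_comm hW, hM u n (le_trans (Finset.le_sup hu) hn)]
    simp [Helper436.SM.sg]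
  have e : x * W (v n) - W (v n) * x = (x - y) * W (v n) - W (v n) * (x - y) := by
    rw [sub_mul, mul_sub, hcom]
    abel
  rw [Real.dist_eq, sub_zero, abs_of_nonneg (n2_nonneg _ _), e]
  refine (hτ.n2_sub_le _ _).trans_lt ?_
  rw [NoPty.n2_mul_unitary hτ _ _ (NoPty.hW_unitary hW _),
    NoPty.n2_unitary_mul _ _ (NoPty.hW_unitary hW _)]
  linarith

end pauli

section gen

variable {H : Type} [NormedAddCommGroup H] [InnerProductSpace ℂ H] [CompleteSpace H]
variable {N : VonNeumannAlgebra H} {T : TracialState N} {Ω : H}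

theorem n2_vec (hΩ : ∀ x : Elt N, T.τ x = ⟪Ω, (x : H →L[ℂ] H) Ω⟫_ℂ) (x : Elt N) :
    n2 T.τ x = ‖(x : H →L[ℂ] H) Ω‖ := by
  unfold n2
  have h1 : T.τ (star x * x) = ((‖(x : H →L[ℂ] H) Ω‖ ^ 2 : ℝ) : ℂ) := by
    rw [hΩ]
    have h2 : ⟪Ω, ((star x * x : Elt N) : H →L[ℂ] H) Ω⟫_ℂ =
        ⟪(x : H →L[ℂ] H) Ω, (x : H →L[ℂ] H) Ω⟫_ℂ := by
      rw [← ContinuousLinearMap.adjoint_inner_right, ← ContinuousLinearMap.star_eq_adjoint]
      rfl
    rw [h2, inner_self_eq_norm_sq_to_K]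
    push_cast
    rfl
  rw [h1, Complex.ofReal_re, Real.sqrt_sq (norm_nonneg _)]

theorem n2_mul_le (hΩ : ∀ x : Elt N, T.τ x = ⟪Ω, (x : H →L[ℂ] H) Ω⟫_ℂ) (x y : Elt N) :
    n2 T.τ (x * y) ≤ ‖(x : H →L[ℂ] H)‖ * n2 T.τ y := by
  rw [n2_vec hΩ, n2_vec hΩ]
  exact (x : H →L[ℂ] H).le_opNorm _

theorem n2_mul_le' (hΩ : ∀ x : Elt N, T.τ x = ⟪Ω, (x : H →L[ℂ] H) Ω⟫_ℂ) (x y : Elt N) :
    n2 T.τ (x * y) ≤ ‖(y : H →L[ℂ] H)‖ * n2 T.τ x := by
  have hτ := trAlg T
  rw [← hτ.n2_star, star_mul, ← hτ.n2_star x]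
  refine (n2_mul_le hΩ (star y) (star x)).trans (le_of_eq ?_)
  congr 1
  exact norm_star (y : H →L[ℂ] H)

/-- If the generators asymptotically commute with the unitaries `X n`, then so does everything. -/
theorem tendsto_gen (hΩ : ∀ x : Elt N, T.τ x = ⟪Ω, (x : H →L[ℂ] H) Ω⟫_ℂ)
    (S : Set (H →L[ℂ] H)) (hN : N = vnGen S) (X : ℕ → Elt N) (hX : ∀ n, X n ∈ unitary (Elt N))
    (hS : ∀ s ∈ S, ∃ y : Elt N, (y : H →L[ℂ] H) = s ∧
      Tendsto (fun n => n2 T.τ (y * X n - X n * y)) atTop (𝓝 0)) (f : Elt N) :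
    Tendsto (fun n => n2 T.τ (f * X n - X n * f)) atTop (𝓝 0) := by
  have hτ := trAlg T
  -- the star algebra generated by `S`
  have hB : ∀ b ∈ StarAlgebra.adjoin ℂ S, ∃ y : Elt N, (y : H →L[ℂ] H) = b ∧
      Tendsto (fun n => n2 T.τ (y * X n - X n * y)) atTop (𝓝 0) := by
    intro b hb
    refine StarAlgebra.adjoin_induction (p := fun b _ => ∃ y : Elt N, (y : H →L[ℂ] H) = b ∧
      Tendsto (fun n => n2 T.τ (y * X n - X n * y)) atTop (𝓝 0)) (fun s hs => hS s hs)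
      ?_ ?_ ?_ ?_ hb
    · intro c
      refine ⟨algebraMap ℂ (Elt N) c, rfl, ?_⟩
      refine tendsto_const_nhds.congr fun n => ?_
      rw [Algebra.commutes, sub_self, hτ.n2_zero]
    · rintro _ _ _ _ ⟨y, rfl, hy⟩ ⟨z, rfl, hz⟩
      refine ⟨y + z, rfl, squeeze_zero (fun n => n2_nonneg _ _) (fun n => ?_)
        (by simpa using hy.add hz)⟩
      have e : (y + z) * X n - X n * (y + z) = (y * X n - X n * y) + (z * X n - X n * z) := by
        noncomm_ring
      rw [e]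
      exact hτ.n2_add_le _ _
    · rintro _ _ _ _ ⟨y, rfl, hy⟩ ⟨z, rfl, hz⟩
      refine ⟨y * z, rfl, squeeze_zero (fun n => n2_nonneg _ _) (fun n => ?_)
        (by simpa using (hz.const_mul ‖(y : H →L[ℂ] H)‖).add (hy.const_mul ‖(z : H →L[ℂ] H)‖))⟩
      have e : (y * z) * X n - X n * (y * z) = y * (z * X n - X n * z) +
          (y * X n - X n * y) * z := by
        noncomm_ring
      rw [e]
      exact (hτ.n2_add_le _ _).trans (add_le_add (n2_mul_le hΩ _ _) (n2_mul_le' hΩ _ _))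
    · rintro _ _ ⟨y, rfl, hy⟩
      refine ⟨star y, rfl, hy.congr fun n => ?_⟩
      have h1 := (Unitary.mem_iff.1 (hX n)).1
      have h2 := (Unitary.mem_iff.1 (hX n)).2
      have e : y * X n - X n * y = X n * (star (star y * X n - X n * star y)) * X n := by
        rw [star_sub, star_mul, star_mul, star_star, mul_sub, sub_mul, ← mul_assoc, h2, one_mul,
          mul_assoc (X n) (y * star (X n)) (X n), mul_assoc y, h1, mul_one]
      rw [e, NoPty.n2_mul_unitary hτ _ _ (hX n), NoPty.n2_unitary_mul _ _ (hX n), hτ.n2_star]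
  -- density
  rw [Metric.tendsto_atTop]
  intro ε hε
  obtain ⟨b, hb, hbf⟩ := dense_bicomm (StarAlgebra.adjoin ℂ S) Ω (f : H →L[ℂ] H) (by
    intro t ht
    have hf : (f : H →L[ℂ] H) ∈ vnGen S := by
      rw [← hN]
      exact f.2
    rw [CE.mem_vnGen] at hf
    refine ((hf t ?_).1).symm
    rw [StarSubalgebra.mem_centralizer_iff (R := ℂ)]
    intro s hs
    exact ⟨ht s (StarAlgebra.subset_adjoin ℂ S hs),
      ht (star s) (star_mem (StarAlgebra.subset_adjoin ℂ S hs))⟩) (ε / 4) (by positivity)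
  obtain ⟨y, hyb, hy⟩ := hB b hb
  rw [Metric.tendsto_atTop] at hy
  obtain ⟨M, hM⟩ := hy (ε / 4) (by positivity)
  refine ⟨M, fun n hn => ?_⟩
  have h3 := hM n hn
  rw [Real.dist_eq, sub_zero, abs_of_nonneg (n2_nonneg _ _)] at h3 ⊢
  have h4 : n2 T.τ (f - y) < ε / 4 := by
    rw [n2_vec hΩ]
    have : ((f - y : Elt N) : H →L[ℂ] H) Ω = (f : H →L[ℂ] H) Ω - b Ω := by
      rw [← hyb]
      rfl
    rw [this]
    exact hbf
  have e : f * X n - X n * f = (y * X n - X n * y) + ((f - y) * X n - X n * (f - y)) := by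
    noncomm_ring
  rw [e]
  refine (hτ.n2_add_le _ _).trans_lt ?_
  have h5 := hτ.n2_sub_le ((f - y) * X n) (X n * (f - y))
  rw [NoPty.n2_mul_unitary hτ _ _ (hX n), NoPty.n2_unitary_mul _ _ (hX n)] at h5
  linarith

end gen

section main

variable {H L : Type} [NormedAddCommGroup H] [InnerProductSpace ℂ H] [CompleteSpace H]
  [NormedAddCommGroup L] [InnerProductSpace ℂ L] [CompleteSpace L]

theorem not_mcDuff (N : VonNeumannAlgebra H) (T : TracialState N) (Ω : H)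
    (hΩ : ∀ x : Elt N, T.τ x = ⟪Ω, (x : H →L[ℂ] H) Ω⟫_ℂ) (f₁ f₂ : Elt N) (κ : ℝ)
    (hκ : ∀ x ∈ unitary (Elt N), ∀ y ∈ unitary (Elt N),
      n2 T.τ (x * y - y * x) ≤ κ * (dd T.τ f₁ f₂ x + dd T.τ f₁ f₂ y))
    (R : VonNeumannAlgebra L) (S : TracialState R) (W : VV → Elt R) (hW : PauliSys S.τ W)
    (hP : ∀ x : Elt R, HasSum (fun v => ‖S.τ (star (W v) * x)‖ ^ 2) (n2 S.τ x ^ 2)) :
    ¬ IsMcDuff R (fun x => S.τ x) N (fun x => T.τ x) := by
  rintro ⟨P, Q, σ, hPQ, hσr, -, e, he0⟩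
  have hτ := trAlg T
  have hσ := trAlg S
  -- the embedding of `R`
  let ι : Elt R → Elt N := fun x => ⟨(e x : Elt Q), hPQ.right _ (e x).2⟩
  have ιmul : ∀ x y, ι (x * y) = ι x * ι y := fun x y => Subtype.ext (by
    show ((e (x * y) : Elt Q) : H →L[ℂ] H) = (e x : Elt Q) * (e y : Elt Q)
    rw [map_mul]; rfl)
  have ιsub : ∀ x y, ι (x - y) = ι x - ι y := fun x y => Subtype.ext (by
    show ((e (x - y) : Elt Q) : H →L[ℂ] H) = (e x : Elt Q) - (e y : Elt Q)
    rw [map_sub]; rfl)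
  have ιstar : ∀ x, ι (star x) = star (ι x) := fun x => Subtype.ext (by
    show ((e (star x) : Elt Q) : H →L[ℂ] H) = star ((e x : Elt Q) : H →L[ℂ] H)
    rw [map_star]; rfl)
  have ιone : ι 1 = 1 := Subtype.ext (by
    show ((e 1 : Elt Q) : H →L[ℂ] H) = 1
    rw [map_one]; rfl)
  have ιtr : ∀ x, T.τ (ι x) = S.τ x := fun x => by
    have h1 : σ (e x) = T.τ (ι x) := hσr (e x) (ι x) rfl
    rw [← h1]
    exact he0 x
  have ιn2 : ∀ x, n2 T.τ (ι x) = n2 S.τ x := by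
    intro x
    unfold n2
    rw [← ιstar, ← ιmul, ιtr]
  have ιun : ∀ x ∈ unitary (Elt R), ι x ∈ unitary (Elt N) := by
    intro x hx
    rw [Unitary.mem_iff] at hx ⊢
    rw [← ιstar, ← ιmul, ← ιmul, hx.1, hx.2, ιone]
    exact ⟨rfl, rfl⟩
  -- asymptotic centrality
  have key : ∀ c : ZMod 2 × ZMod 2, ∀ f : Elt N,
      Tendsto (fun n => n2 T.τ (f * ι (W (Finsupp.single n c)) - ι (W (Finsupp.single n c)) * f))
        atTop (𝓝 0) := by
    intro c f
    refine tendsto_gen hΩ _ hPQ.gen (fun n => ι (W (Finsupp.single n c)))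
      (fun n => ιun _ (NoPty.hW_unitary hW _)) ?_ f
    rintro s (hs | hs)
    · refine ⟨⟨s, hPQ.left s hs⟩, rfl, ?_⟩
      refine tendsto_const_nhds.congr fun n => ?_
      have : (⟨s, hPQ.left s hs⟩ : Elt N) * ι (W (Finsupp.single n c)) =
          ι (W (Finsupp.single n c)) * ⟨s, hPQ.left s hs⟩ :=
        Subtype.ext (hPQ.comm s hs _ (e (W (Finsupp.single n c))).2)
      rw [this, sub_self, hτ.n2_zero]
    · refine ⟨⟨s, hPQ.right s hs⟩, rfl, ?_⟩
      have hz : (⟨s, hPQ.right s hs⟩ : Elt N) = ι (e.symm ⟨s, hs⟩) := by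
        apply Subtype.ext
        show s = ((e (e.symm ⟨s, hs⟩) : Elt Q) : H →L[ℂ] H)
        rw [e.apply_symm_apply]
      have h1 := tendsto_pauli hσ hW hP (fun n => Finsupp.single n c) (by
        intro u
        refine ⟨u.support.sup id + 1, fun n hn => ?_⟩
        have hun : u n = 0 := by
          by_contra hne
          have h1 : n ≤ u.support.sup id := Finset.le_sup (f := id) (Finsupp.mem_support_iff.mpr hne)
          omega
        rw [sf_comm, sf_single, hun]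
        simp) (e.symm ⟨s, hs⟩)
      refine h1.congr fun n => ?_
      rw [hz, ← ιmul, ← ιmul, ← ιsub, ιn2]
  -- two anticommuting sequences
  set X : ℕ → Elt N := fun n => ι (W (Finsupp.single n (1, 0))) with hX
  set Z : ℕ → Elt N := fun n => ι (W (Finsupp.single n (0, 1))) with hZ
  have hXu : ∀ n, X n ∈ unitary (Elt N) := fun n => ιun _ (NoPty.hW_unitary hW _)
  have hZu : ∀ n, Z n ∈ unitary (Elt N) := fun n => ιun _ (NoPty.hW_unitary hW _)
  have htwo : ∀ n, n2 T.τ (X n * Z n - Z n * X n) = 2 := by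
    intro n
    have h1 : sf (Finsupp.single n ((1, 0) : ZMod 2 × ZMod 2))
        (Finsupp.single n ((0, 1) : ZMod 2 × ZMod 2)) = 1 := by
      rw [sf_single]
      simp
    have h2 : W (Finsupp.single n (1, 0)) * W (Finsupp.single n (0, 1)) -
        W (Finsupp.single n (0, 1)) * W (Finsupp.single n (1, 0)) =
        (-2 : ℂ) • (W (Finsupp.single n (0, 1)) * W (Finsupp.single n (1, 0))) := by
      rw [NoPty.hW_comm hW, h1]
      have : Helper436.SM.sg 1 = -1 := by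
        unfold Helper436.SM.sg
        simp
      rw [this]
      module
    rw [hX, hZ]
    show n2 T.τ (ι _ * ι _ - ι _ * ι _) = 2
    rw [← ιmul, ← ιmul, ← ιsub, ιn2, h2, PB.n2_smul hσ,
      NoPty.n2_unitary hσ _ (mul_mem (NoPty.hW_unitary hW _) (NoPty.hW_unitary hW _))]
    norm_num
  have hlim : Tendsto (fun n => κ * (dd T.τ f₁ f₂ (X n) + dd T.τ f₁ f₂ (Z n))) atTop (𝓝 0) := by
    have h1 := (((key (1, 0) f₁).add (key (1, 0) f₂)).add
      ((key (0, 1) f₁).add (key (0, 1) f₂))).const_mul κ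
    have h2 : κ * ((0 + 0 : ℝ) + (0 + 0)) = 0 := by ring
    rw [h2] at h1
    refine h1.congr fun n => ?_
    unfold dd
    rfl
  have hge : ∀ n, 2 ≤ κ * (dd T.τ f₁ f₂ (X n) + dd T.τ f₁ f₂ (Z n)) := by
    intro n
    rw [← htwo n]
    exact hκ _ (hXu n) _ (hZu n)
  have := ge_of_tendsto' hlim hge
  norm_num at this

end main

end Pool.Agent.Helper159.GM
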