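import Mathlib
import Pool.Agent.Helper159.GM.Core
import Pool.Agent.Helper436.SM.Transfer

set_option autoImplicit false
set_option linter.unusedSectionVars false

open scoped Topology
open Filter

namespace Pool.Agent.Helper159.GM

open Pool.Agent.Helper278 Pool.Agent.Helper436.SM

universe w

section

variable {H K : Type} [NormedAddCommGroup H] [InnerProductSpace ℂ H] [CompleteSpace H]
  [NormedAddCommGroup K] [InnerProductSpace ℂ K] [CompleteSpace K]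
variable {N : VonNeumannAlgebra H} {T : TracialState N} {M : VonNeumannAlgebra K}
  {S : TracialState M}

theorem tendsto_dd {I : Type w} {U : Ultrafilter I} {Q : Type w} [Ring Q] [StarRing Q] [Algebra ℂ Q]
    {π : (I → Elt N) → Q} {φ : Q → ℂ}
    (hπ : CE.IsTracialUltrapower (fun x => T.τ x) U π φ) (a b x : I → Elt N)
    (ha : CE.BddFam a) (hb : CE.BddFam b) (hx : CE.BddFam x) :
    Tendsto (fun i => dd T.τ (a i) (b i) (x i)) U (𝓝 (dd φ (π a) (π b) (π x))) :=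
  (tendsto_comm hπ a x ha hx).add (tendsto_comm hπ b x hb hx)

theorem tendsto_wxy {I : Type w} {U : Ultrafilter I} {Q : Type w} [Ring Q] [StarRing Q] [Algebra ℂ Q]
    {π : (I → Elt N) → Q} {φ : Q → ℂ}
    (hπ : CE.IsTracialUltrapower (fun x => T.τ x) U π φ) (w x y : I → Elt N)
    (hw : CE.BddFam w) (hx : CE.BddFam x) (hy : CE.BddFam y) :
    Tendsto (fun i => n2 T.τ ((w i * x i * star (w i)) * y i - y i * (w i * x i * star (w i)))) U
      (𝓝 (n2 φ ((π w * π x * star (π w)) * π y - π y * (π w * π x * star (π w))))) := by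
  have h1 := tendsto_comm hπ (fun i => w i * x i * star (w i)) y
    (CE.bdd_mul (CE.bdd_mul hw hx) (bdd_st hw)) hy
  rw [pi_conj hπ w x hw hx] at h1
  exact h1

theorem n2_iso {P Q : Type w} [Ring P] [StarRing P] [Algebra ℂ P] [Ring Q] [StarRing Q]
    [Algebra ℂ Q] {φ : P → ℂ} {ψ : Q → ℂ} (e : P ≃⋆ₐ[ℂ] Q) (he : ∀ x, ψ (e x) = φ x) (x : P) :
    n2 ψ (e x) = n2 φ x := by
  unfold n2
  rw [← map_star, ← map_mul, he]

theorem dd_iso {P Q : Type w} [Ring P] [StarRing P] [Algebra ℂ P] [Ring Q] [StarRing Q]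
    [Algebra ℂ Q] {φ : P → ℂ} {ψ : Q → ℂ} (e : P ≃⋆ₐ[ℂ] Q) (he : ∀ x, ψ (e x) = φ x) (a b x : P) :
    dd ψ (e a) (e b) (e x) = dd φ a b x := by
  unfold dd
  rw [← map_mul, ← map_mul, ← map_sub, ← map_mul, ← map_mul, ← map_sub, n2_iso e he, n2_iso e he]

theorem wxy_iso {P Q : Type w} [Ring P] [StarRing P] [Algebra ℂ P] [Ring Q] [StarRing Q]
    [Algebra ℂ Q] {φ : P → ℂ} {ψ : Q → ℂ} (e : P ≃⋆ₐ[ℂ] Q) (he : ∀ x, ψ (e x) = φ x) (w x y : P) :
    n2 ψ ((e w * e x * star (e w)) * e y - e y * (e w * e x * star (e w))) =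
      n2 φ ((w * x * star w) * y - y * (w * x * star w)) := by
  rw [← map_star, ← map_mul, ← map_mul, ← map_mul, ← map_mul, ← map_sub, n2_iso e he]

theorem un_iso {P Q : Type w} [Ring P] [StarRing P] [Algebra ℂ P] [Ring Q] [StarRing Q]
    [Algebra ℂ Q] (e : P ≃⋆ₐ[ℂ] Q) {x : P} (hx : x ∈ unitary P) : e x ∈ unitary Q := by
  rw [Unitary.mem_iff] at hx ⊢
  rw [← map_star, ← map_mul, ← map_mul, hx.1, hx.2, map_one]
  exact ⟨rfl, rfl⟩

/-- The transfer argument. -/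
theorem transfer {I J : Type w} {U : Ultrafilter I} {V : Ultrafilter J} {P Q : Type w} [Ring P]
    [StarRing P] [Algebra ℂ P] [Ring Q] [StarRing Q] [Algebra ℂ Q]
    {π : (I → Elt N) → P} {φ : P → ℂ} {ρ : (J → Elt M) → Q} {ψ : Q → ℂ}
    (h1 : CE.IsTracialUltrapower (fun x => T.τ x) U π φ)
    (h2 : CE.IsTracialUltrapower (fun x => S.τ x) V ρ ψ) (e : P ≃⋆ₐ[ℂ] Q)
    (he : ∀ x, ψ (e x) = φ x) {κ c₀ : ℝ} (hκ : 0 ≤ κ) (hc₀ : 0 < c₀)
    (hpos : Pos2 S.τ κ) (hneg : Neg2 T.τ c₀) : False := by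
  obtain ⟨f₁, hf₁, f₂, hf₂, hf⟩ := hpos
  -- the parameters
  have hF₁ : (ρ fun _ => f₁) ∈ unitary Q := pi_unitary h2 (fun _ => hf₁)
  have hF₂ : (ρ fun _ => f₂) ∈ unitary Q := pi_unitary h2 (fun _ => hf₂)
  obtain ⟨g₁, hg₁, hgg₁⟩ := exists_lift h1 (e.symm (ρ fun _ => f₁)) (un_iso e.symm hF₁)
  obtain ⟨g₂, hg₂, hgg₂⟩ := exists_lift h1 (e.symm (ρ fun _ => f₂)) (un_iso e.symm hF₂)
  have hE₁ : e (π g₁) = ρ fun _ => f₁ := by rw [hgg₁, e.apply_symm_apply]
  have hE₂ : e (π g₂) = ρ fun _ => f₂ := by rw [hgg₂, e.apply_symm_apply]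
  -- small numbers
  obtain ⟨δ, hδ, hδ1, hδ2⟩ : ∃ δ : ℝ, 0 < δ ∧ κ * δ + δ < 1 ∧ κ * (δ + δ) + δ < c₀ := by
    refine ⟨min 1 c₀ / (2 * (2 * κ + 2)), by positivity, ?_, ?_⟩
    · have h3 : (κ + 1) * (min 1 c₀ / (2 * (2 * κ + 2))) = min 1 c₀ / 4 := by
        field_simp
        ring
      have h4 : min 1 c₀ ≤ 1 := min_le_left _ _
      nlinarith
    · have h3 : (2 * κ + 2) * (min 1 c₀ / (2 * (2 * κ + 2))) = min 1 c₀ / 2 := by
        field_simp
      have h4 : min 1 c₀ ≤ c₀ := min_le_right _ _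
      have h5 : 0 < min 1 c₀ / (2 * (2 * κ + 2)) := by positivity
      nlinarith
  choose b hb c hc hbd hw using fun i => hneg (g₁ i) (hg₁ i) (g₂ i) (hg₂ i) δ hδ
  obtain ⟨b', hb', hbb'⟩ := exists_lift h2 (e (π b)) (un_iso e (pi_unitary h1 hb))
  obtain ⟨c', hc', hcc'⟩ := exists_lift h2 (e (π c)) (un_iso e (pi_unitary h1 hc))
  choose v hv hv1 hv2 using fun j => hf (b' j) (hb' j) (c' j) (hc' j) δ hδ
  obtain ⟨w, hwu, hww⟩ := exists_lift h1 (e.symm (ρ v)) (un_iso e.symm (pi_unitary h2 hv))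
  have hEw : e (π w) = ρ v := by rw [hww, e.apply_symm_apply]
  have hdd : ∀ (x : I → Elt N) (x' : J → Elt M), (∀ i, x i ∈ unitary (Elt N)) →
      (∀ j, x' j ∈ unitary (Elt M)) → ρ x' = e (π x) → (∀ᶠ i in U, dd T.τ (g₁ i) (g₂ i) (x i) ≤ δ) →
      dd ψ (ρ fun _ => f₁) (ρ fun _ => f₂) (ρ x') ≤ δ := by
    intro x x' hx hx' hxx hle
    rw [hxx, ← hE₁, ← hE₂, dd_iso e he]
    exact le_of_tendsto (tendsto_dd h1 g₁ g₂ x (bdd_un hg₁) (bdd_un hg₂) (bdd_un hx)) hle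
  rcases (Ultrafilter.em (f := U) (p := fun i => 1 ≤ n2 T.τ ((w i * b i * star (w i)) * c i -
    c i * (w i * b i * star (w i))))) with hcase | hcase
  · -- first case
    have k1 : 1 ≤ n2 φ ((π w * π b * star (π w)) * π c - π c * (π w * π b * star (π w))) :=
      ge_of_tendsto (tendsto_wxy h1 w b c (bdd_un hwu) (bdd_un hb) (bdd_un hc)) hcase
    have k2 := tendsto_wxy h2 v b' c' (bdd_un hv) (bdd_un hb') (bdd_un hc')
    have k3 := (((tendsto_dd h2 (fun _ => f₁) (fun _ => f₂) b' (CE.bdd_const _) (CE.bdd_const _)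
      (bdd_un hb')).const_mul κ).add_const δ)
    have k4 := le_of_tendsto_of_tendsto' k2 k3 (fun j => hv1 j)
    have k5 := hdd b b' hb hb' hbb' (Eventually.of_forall hbd)
    rw [hbb', hcc', ← hEw, wxy_iso e he] at k4
    rw [hbb'] at k5
    have k6 := mul_le_mul_of_nonneg_left k5 hκ
    linarith
  · -- second case
    have hex : ∀ i, ∃ x ∈ unitary (Elt N), ∃ y ∈ unitary (Elt N),
        ¬ 1 ≤ n2 T.τ ((w i * b i * star (w i)) * c i - c i * (w i * b i * star (w i))) →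
        dd T.τ (g₁ i) (g₂ i) x ≤ δ ∧ dd T.τ (g₁ i) (g₂ i) y ≤ δ ∧
        c₀ ≤ n2 T.τ ((w i * x * star (w i)) * y - y * (w i * x * star (w i))) := by
      intro i
      by_cases hi : 1 ≤ n2 T.τ ((w i * b i * star (w i)) * c i - c i * (w i * b i * star (w i)))
      · exact ⟨1, one_mem _, 1, one_mem _, fun h => absurd hi h⟩
      · rcases hw i (w i) (hwu i) with h3 | ⟨x, hx, y, hy, h3⟩
        · exact absurd h3 hi
        · exact ⟨x, hx, y, hy, fun _ => h3⟩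
    choose x hx y hy hxy using hex
    obtain ⟨x', hx', hxx'⟩ := exists_lift h2 (e (π x)) (un_iso e (pi_unitary h1 hx))
    obtain ⟨y', hy', hyy'⟩ := exists_lift h2 (e (π y)) (un_iso e (pi_unitary h1 hy))
    have k1 : c₀ ≤ n2 φ ((π w * π x * star (π w)) * π y - π y * (π w * π x * star (π w))) :=
      ge_of_tendsto (tendsto_wxy h1 w x y (bdd_un hwu) (bdd_un hx) (bdd_un hy))
        (hcase.mono fun i hi => (hxy i hi).2.2)
    have k2 := tendsto_wxy h2 v x' y' (bdd_un hv) (bdd_un hx') (bdd_un hy')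
    have k3 := ((((tendsto_dd h2 (fun _ => f₁) (fun _ => f₂) x' (CE.bdd_const _) (CE.bdd_const _)
      (bdd_un hx')).add (tendsto_dd h2 (fun _ => f₁) (fun _ => f₂) y' (CE.bdd_const _)
      (CE.bdd_const _) (bdd_un hy'))).const_mul κ).add_const δ)
    have k4 := le_of_tendsto_of_tendsto' k2 k3 (fun j => hv2 j _ (hx' j) _ (hy' j))
    have k5 := hdd x x' hx hx' hxx' (hcase.mono fun i hi => (hxy i hi).1)
    have k6 := hdd y y' hy hy' hyy' (hcase.mono fun i hi => (hxy i hi).2.1)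
    rw [hxx', hyy', ← hEw, wxy_iso e he] at k4
    rw [hxx'] at k5
    rw [hyy'] at k6
    have k7 := mul_le_mul_of_nonneg_left (add_le_add k5 k6) hκ
    linarith

end

end Pool.Agent.Helper159.GM
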